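import Pool.Agent.MP_88847a_mp.H86.Elliptic

/-!
Finite sum identities following from the quadratic identity for zeta.
-/

open Filter Topology PeriodPair Complex

noncomputable section

namespace Pool.Agent.MP_88847a_mp.H86

variable {L : PeriodPair} {ι : Type*} [Fintype ι]

/-- `∑ ζ(z - Y j)` -/
def Zs (L : PeriodPair) (Y : ι → ℂ) (z : ℂ) : ℂ := ∑ j, zeta L (z - Y j)
/-- `∑ ℘(z - Y j)` -/
def Ps (L : PeriodPair) (Y : ι → ℂ) (z : ℂ) : ℂ := ∑ j, ℘[L] (z - Y j)
/-- `∑ ζ(Y i - Y j)` -/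
def rho (L : PeriodPair) (Y : ι → ℂ) (i : ι) : ℂ := ∑ j, zeta L (Y i - Y j)
/-- the potential -/
def Vs (L : PeriodPair) (Y : ι → ℂ) : ℂ := ∑ i, ∑ j, ℘[L] (Y i - Y j)
/-- auxiliary elliptic function -/
def Fw (L : PeriodPair) (w a b : ℂ) : ℂ := zeta L (a - b) + zeta L (w - a) - zeta L (w - b)

lemma Fw_sq {w a b : ℂ} (h1 : a - b ∉ L.lattice) (h2 : w - a ∉ L.lattice)
    (h3 : w - b ∉ L.lattice) : Fw L w a b ^ 2 = ℘[L] (a - b) + ℘[L] (w - a) + ℘[L] (w - b) := by
  have := zeta_sq h1 h2 (by rwa [show a - b + (w - a) = w - b by ring])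
  rwa [show a - b + (w - a) = w - b by ring] at this

lemma Fw_comm (w a b : ℂ) : Fw L w a b = - Fw L w b a := by
  rw [Fw, Fw, zeta_sub_comm L a b]; ring

lemma Fw_self (w a : ℂ) : Fw L w a a = 0 := by simp [Fw, zeta_zero]

lemma sub_notMem_comm {a b : ℂ} (h : a - b ∉ L.lattice) : b - a ∉ L.lattice := by
  rw [← neg_sub]; exact neg_notMem h

lemma Fw_three {w a b c : ℂ} (hab : a - b ∉ L.lattice) (hbc : b - c ∉ L.lattice)
    (hac : a - c ∉ L.lattice) (ha : w - a ∉ L.lattice) (hb : w - b ∉ L.lattice)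
    (hc : w - c ∉ L.lattice) :
    Fw L w a b * Fw L w a c + Fw L w b a * Fw L w b c + Fw L w c a * Fw L w c b
      = ℘[L] (w - a) + ℘[L] (w - b) + ℘[L] (w - c) := by
  have h1 := Fw_sq hab ha hb
  have h2 := Fw_sq hbc hb hc
  have h3 := Fw_sq hac ha hc
  have h4 := zeta_sq hab hbc (by rwa [show a - b + (b - c) = a - c by ring])
  rw [show a - b + (b - c) = a - c by ring] at h4
  have h5 : zeta L (a - b) + zeta L (b - c) - zeta L (a - c)
      = Fw L w a b + Fw L w b c - Fw L w a c := by simp only [Fw]; ring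
  rw [h5] at h4
  rw [Fw_comm w b a, Fw_comm w c a, Fw_comm w c b]
  linear_combination (h1 + h2 + h3 - h4) / 2

lemma sum_sq_diff {Y : ι → ℂ} {z w : ℂ} (hz : ∀ i, z - Y i ∉ L.lattice)
    (hw : ∀ i, w - Y i ∉ L.lattice) (hzw : z - w ∉ L.lattice) :
    ∑ i, (zeta L (z - Y i) - zeta L (w - Y i)) ^ 2 = Ps L Y z + Ps L Y w
      + Fintype.card ι * ℘[L] (z - w) + 2 * zeta L (z - w) * (Zs L Y z - Zs L Y w)
      - Fintype.card ι * zeta L (z - w) ^ 2 := by
  have h : ∀ i, (zeta L (z - Y i) - zeta L (w - Y i)) ^ 2 = ℘[L] (z - Y i) + ℘[L] (w - Y i)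
      + ℘[L] (z - w) + 2 * zeta L (z - w) * (zeta L (z - Y i) - zeta L (w - Y i))
      - zeta L (z - w) ^ 2 := by
    intro i
    have := zeta_sq hzw (hw i) (by rw [show z - w + (w - Y i) = z - Y i by ring]; exact hz i)
    rw [show z - w + (w - Y i) = z - Y i by ring] at this
    linear_combination this
  simp only [h, Finset.sum_add_distrib, Finset.sum_sub_distrib, Ps, Zs, ← Finset.mul_sum,
    Finset.sum_const, Finset.card_univ, nsmul_eq_mul]

lemma sum_Fw (Y : ι → ℂ) (w : ℂ) (i : ι) :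
    ∑ j, Fw L w (Y i) (Y j) = rho L Y i + Fintype.card ι * zeta L (w - Y i) - Zs L Y w := by
  simp only [Fw, Finset.sum_add_distrib, Finset.sum_sub_distrib, rho, Zs,
    Finset.sum_const, Finset.card_univ, nsmul_eq_mul]

lemma sum_rho (Y : ι → ℂ) : ∑ i, rho L Y i = 0 := by
  have h : ∑ i, rho L Y i = -∑ i, rho L Y i := by
    simp only [rho]
    conv_rhs => rw [Finset.sum_comm]
    simp only [← Finset.sum_neg_distrib]
    exact Finset.sum_congr rfl fun i _ => Finset.sum_congr rfl fun j _ => zeta_sub_comm L _ _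
  exact CharZero.eq_neg_self_iff.1 h

lemma sum_f_sq {Y : ι → ℂ} (hY : ∀ i j, i ≠ j → Y i - Y j ∉ L.lattice) {w : ℂ}
    (hw : ∀ i, w - Y i ∉ L.lattice) :
    ∑ i, (rho L Y i + Fintype.card ι * zeta L (w - Y i) - Zs L Y w) ^ 2
      = Vs L Y + Fintype.card ι * (Fintype.card ι - 1) * Ps L Y w := by
  classical
  set F : ι → ι → ℂ := fun i j => Fw L w (Y i) (Y j) with hF
  set p : ι → ℂ := fun i => ℘[L] (w - Y i) with hp
  set q : ι → ι → ℂ := fun i j => ℘[L] (Y i - Y j) with hq
  have hq0 : ∀ i, q i i = 0 := fun i => by simp [hq]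
  have hqc : ∀ i j, q i j = q j i := fun i j => wp_sub_comm L _ _
  have hF0 : ∀ i, F i i = 0 := fun i => Fw_self _ _
  have hFc : ∀ i j, F i j = - F j i := fun i j => Fw_comm _ _ _
  have hFs : ∀ i j, i ≠ j → F i j ^ 2 = q i j + p i + p j :=
    fun i j h => Fw_sq (hY i j h) (hw i) (hw j)
  have hT : ∀ i j k, F i j * F i k + F j i * F j k + F k i * F k j = p i + p j + p k
      + (if i = j then q i k - p i else 0) + (if j = k then q j i - p j else 0)
      + (if k = i then q k j - p k else 0) := by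
    intro i j k
    by_cases hij : i = j
    · subst hij
      by_cases hik : i = k
      · subst hik; simp [hF0, hq0]
      · have := hFs k i (Ne.symm hik)
        simp only [hF0, if_true, if_neg hik, if_neg (Ne.symm hik), hqc i k]
        linear_combination this
    · by_cases hjk : j = k
      · subst hjk
        have := hFs i j hij
        simp only [hF0, if_true, if_neg hij, if_neg (Ne.symm hij), hqc j i]
        linear_combination this
      · by_cases hki : k = i
        · subst hki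
          have := hFs j k hjk
          simp only [hF0, if_true, if_neg hjk, if_neg hij, hqc k j]
          linear_combination this
        · simp only [if_neg hij, if_neg hjk, if_neg hki, add_zero]
          exact Fw_three (hY _ _ hij) (hY _ _ hjk) (hY _ _ (Ne.symm hki)) (hw _) (hw _) (hw _)
  have hS : ∑ i, (rho L Y i + Fintype.card ι * zeta L (w - Y i) - Zs L Y w) ^ 2
      = ∑ i, ∑ j, ∑ k, F i j * F i k := by
    refine Finset.sum_congr rfl fun i _ => ?_
    rw [← sum_Fw, sq, Finset.sum_mul_sum]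
  have h2 : ∑ i, ∑ j, ∑ k, F j i * F j k = ∑ i, ∑ j, ∑ k, F i j * F i k := Finset.sum_comm
  have h3 : ∑ i, ∑ j, ∑ k, F k i * F k j = ∑ i, ∑ j, ∑ k, F i j * F i k := by
    calc ∑ i, ∑ j, ∑ k, F k i * F k j = ∑ i, ∑ k, ∑ j, F k i * F k j :=
          Finset.sum_congr rfl fun i _ => Finset.sum_comm
      _ = _ := Finset.sum_comm
  have h4 : ∑ i, ∑ j, ∑ k, (F i j * F i k + F j i * F j k + F k i * F k j)
      = 3 * ∑ i, ∑ j, ∑ k, F i j * F i k := by
    simp only [Finset.sum_add_distrib]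
    rw [h2, h3]; ring
  have hV : Vs L Y = ∑ i, ∑ j, q i j := rfl
  have hP : Ps L Y w = ∑ i, p i := rfl
  have h5 : ∑ i, ∑ j, ∑ k, (if i = j then q i k - p i else 0)
      = Vs L Y - Fintype.card ι * Ps L Y w := by
    rw [hV, hP, Finset.mul_sum, ← Finset.sum_sub_distrib]
    refine Finset.sum_congr rfl fun i _ => ?_
    rw [Finset.sum_comm]
    simp
  have h6 : ∑ i, ∑ j, ∑ k, (if j = k then q j i - p j else 0)
      = Vs L Y - Fintype.card ι * Ps L Y w := by
    rw [hV, hP, Finset.mul_sum, ← Finset.sum_sub_distrib, Finset.sum_comm]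
    refine Finset.sum_congr rfl fun i _ => ?_
    simp
  have h7 : ∑ i, ∑ j, ∑ k, (if k = i then q k j - p k else 0)
      = Vs L Y - Fintype.card ι * Ps L Y w := by
    rw [hV, hP, Finset.mul_sum, ← Finset.sum_sub_distrib]
    refine Finset.sum_congr rfl fun i _ => ?_
    simp
  have h8 : ∑ i, ∑ j, ∑ k, (p i + p j + p k) = 3 * (Fintype.card ι : ℂ) ^ 2 * Ps L Y w := by
    simp only [Finset.sum_add_distrib, Finset.sum_const, Finset.card_univ, nsmul_eq_mul, hP,
      ← Finset.mul_sum]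
    ring
  have h9 : ∑ i, ∑ j, ∑ k, (F i j * F i k + F j i * F j k + F k i * F k j)
      = ∑ i, ∑ j, ∑ k, (p i + p j + p k) + ∑ i, ∑ j, ∑ k, (if i = j then q i k - p i else 0)
        + ∑ i, ∑ j, ∑ k, (if j = k then q j i - p j else 0)
        + ∑ i, ∑ j, ∑ k, (if k = i then q k j - p k else 0) := by
    simp only [hT, ← Finset.sum_add_distrib]
  rw [h4, h5, h6, h7, h8] at h9
  rw [hS]
  linear_combination h9 / 3

lemma sum_f_mul {Y : ι → ℂ} (hY : ∀ i j, i ≠ j → Y i - Y j ∉ L.lattice) {z w : ℂ}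
    (hz : ∀ i, z - Y i ∉ L.lattice) (hw : ∀ i, w - Y i ∉ L.lattice) (hzw : z - w ∉ L.lattice) :
    ∑ i, (rho L Y i + Fintype.card ι * zeta L (w - Y i) - Zs L Y w)
        * (zeta L (w - Y i) - zeta L (z - Y i))
      = (Fintype.card ι - 1 / 2) * Ps L Y w + Ps L Y z / 2
        + (Fintype.card ι : ℂ) ^ 2 / 2 * ℘[L] (z - w)
        - (Zs L Y z - Zs L Y w - Fintype.card ι * zeta L (z - w)) ^ 2 / 2 := by
  classical
  set F : ι → ι → ℂ := fun i j => Fw L w (Y i) (Y j) with hF
  set G : ι → ℂ := fun i => Fw L w (Y i) z with hG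
  set p : ι → ℂ := fun i => ℘[L] (w - Y i) with hp
  set r : ι → ℂ := fun i => ℘[L] (z - Y i) with hr
  have hwz := sub_notMem_comm hzw
  have hT : ∀ i j, F i j * G i + F j i * G j + G i * G j = p i + p j + ℘[L] (z - w)
      + (if i = j then r i - p i else 0) := by
    intro i j
    by_cases hij : i = j
    · subst hij
      have := Fw_sq (sub_notMem_comm (hz i)) (hw i) hwz
      simp only [hF, Fw_self, if_true, hG, hp, hr]
      rw [wp_sub_comm L (Y i) z, wp_sub_comm L w z] at this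
      linear_combination this
    · have := Fw_three (hY _ _ hij) (sub_notMem_comm (hz j)) (sub_notMem_comm (hz i))
        (hw i) (hw j) hwz
      rw [Fw_comm w z, Fw_comm w z, wp_sub_comm L w z] at this
      simp only [if_neg hij, hF, hG, hp]
      linear_combination this
  have h0 : ∑ i, (rho L Y i + Fintype.card ι * zeta L (w - Y i) - Zs L Y w) = 0 := by
    simp only [Finset.sum_add_distrib, Finset.sum_sub_distrib, sum_rho, ← Finset.mul_sum,
      Finset.sum_const, Finset.card_univ, nsmul_eq_mul, Zs]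
    ring
  have hS : ∑ i, (rho L Y i + Fintype.card ι * zeta L (w - Y i) - Zs L Y w)
        * (zeta L (w - Y i) - zeta L (z - Y i)) = ∑ i, ∑ j, F i j * G i := by
    have : ∀ i, zeta L (w - Y i) - zeta L (z - Y i) = G i + zeta L (w - z) := by
      intro i
      simp only [hG, Fw]
      rw [zeta_sub_comm L (Y i) z]; ring
    simp only [this, mul_add, Finset.sum_add_distrib, ← Finset.sum_mul, h0, zero_mul, add_zero]
    refine Finset.sum_congr rfl fun i _ => ?_
    rw [← sum_Fw]
  have h2 : ∑ i, ∑ j, F j i * G j = ∑ i, ∑ j, F i j * G i := Finset.sum_comm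
  have h3 : ∑ i, G i = -(Zs L Y z - Zs L Y w - Fintype.card ι * zeta L (z - w)) := by
    have : ∀ i, G i = - zeta L (z - Y i) + zeta L (w - Y i) + zeta L (z - w) := by
      intro i
      simp only [hG, Fw]
      rw [zeta_sub_comm L (Y i) z, zeta_sub_comm L w z]; ring
    simp only [this, Finset.sum_add_distrib, Finset.sum_neg_distrib, Zs, Finset.sum_const,
      Finset.card_univ, nsmul_eq_mul]
    ring
  have h4 : ∑ i, ∑ j, (F i j * G i + F j i * G j + G i * G j)
      = 2 * ∑ i, ∑ j, F i j * G i + (∑ i, G i) ^ 2 := by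
    simp only [Finset.sum_add_distrib]
    rw [h2, sq, Finset.sum_mul_sum]; ring
  simp only [hT, Finset.sum_add_distrib, Finset.sum_const, Finset.card_univ, nsmul_eq_mul,
    Finset.sum_ite_eq, Finset.mem_univ, if_true, Finset.sum_sub_distrib, ← Finset.mul_sum] at h4
  have hP : Ps L Y w = ∑ i, p i := rfl
  have hR : Ps L Y z = ∑ i, r i := rfl
  rw [hS, hP, hR]
  rw [h3] at h4
  linear_combination -h4 / 2

end Pool.Agent.MP_88847a_mp.H86
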