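import Pool.Agent.MP_88847a_mp.H86.Defs
import Pool.Agent.MP_88847a_mp.H86.Sums

/-!
Directional derivatives, the Laplacian of the root lattice metric and its product and chain rules.
-/

open Filter Topology PeriodPair Complex

noncomputable section

namespace Pool.Agent.MP_88847a_mp.H86

variable {N : ℕ} {F G : (Fin N → ℂ) → ℂ} {y v : Fin N → ℂ} {a b : ℂ}

/-- derivative in direction `v` -/
def dd (v : Fin N → ℂ) (F : (Fin N → ℂ) → ℂ) (y : Fin N → ℂ) : ℂ := fderiv ℂ F y v

/-- short name for having a directional derivative -/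
def HL (F : (Fin N → ℂ) → ℂ) (a : ℂ) (y v : Fin N → ℂ) : Prop :=
  HasDerivAt (fun t : ℂ => F (y + t • v)) a 0

lemma HL_dd (hF : DifferentiableAt ℂ F y) (v : Fin N → ℂ) : HL F (dd v F y) y v :=
  hF.hasFDerivAt.hasLineDerivAt v

lemma HL.dd_eq (h : HL F a y v) (hF : DifferentiableAt ℂ F y) : dd v F y = a :=
  HasDerivAt.unique (HL_dd hF v) h

lemma HL.unique (h : HL F a y v) (h' : HL F b y v) : a = b := HasDerivAt.unique h h'

lemma HL.congr_val (h : HL F a y v) (hab : a = b) : HL F b y v := hab ▸ h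

lemma tendsto_line (y v : Fin N → ℂ) : Tendsto (fun t : ℂ => y + t • v) (𝓝 0) (𝓝 y) := by
  have : Continuous fun t : ℂ => y + t • v := by fun_prop
  simpa using this.tendsto 0

lemma HL.congr (h : HL F a y v) (hFG : G =ᶠ[𝓝 y] F) : HL G a y v :=
  HasDerivAt.congr_of_eventuallyEq h ((tendsto_line y v).eventually hFG)

lemma HL_const (c : ℂ) (y v : Fin N → ℂ) : HL (fun _ => c) 0 y v := hasDerivAt_const _ _

lemma HL.add (h : HL F a y v) (h' : HL G b y v) : HL (fun x => F x + G x) (a + b) y v :=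
  HasDerivAt.fun_add h h'

lemma HL.sub (h : HL F a y v) (h' : HL G b y v) : HL (fun x => F x - G x) (a - b) y v :=
  HasDerivAt.fun_sub h h'

lemma HL.neg (h : HL F a y v) : HL (fun x => - F x) (-a) y v := HasDerivAt.fun_neg h

lemma HL.mul (h : HL F a y v) (h' : HL G b y v) :
    HL (fun x => F x * G x) (a * G y + F y * b) y v := by
  simpa [HL] using HasDerivAt.fun_mul h h'

lemma HL.const_mul (h : HL F a y v) (c : ℂ) : HL (fun x => c * F x) (c * a) y v :=
  HasDerivAt.const_mul c h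

lemma HL.div_const (h : HL F a y v) (c : ℂ) : HL (fun x => F x / c) (a / c) y v :=
  HasDerivAt.div_const h c

lemma HL.sum {ι : Type*} (s : Finset ι) {F : ι → (Fin N → ℂ) → ℂ} {a : ι → ℂ}
    (h : ∀ i ∈ s, HL (F i) (a i) y v) : HL (fun x => ∑ i ∈ s, F i x) (∑ i ∈ s, a i) y v :=
  HasDerivAt.fun_sum h

lemma HL.comp {g : ℂ → ℂ} (hg : HasDerivAt g b (F y)) (h : HL F a y v) :
    HL (fun x => g (F x)) (b * a) y v := by
  have hg' : HasDerivAt g b (F (y + (0 : ℂ) • v)) := by simpa using hg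
  exact HasDerivAt.comp (h := fun t : ℂ => F (y + t • v)) 0 hg' h

/-- logarithmic product rule -/
lemma HL.prod {ι : Type*} (s : Finset ι) {F : ι → (Fin N → ℂ) → ℂ} {a : ι → ℂ}
    (h : ∀ i ∈ s, HL (F i) (a i * F i y) y v) :
    HL (fun x => ∏ i ∈ s, F i x) ((∑ i ∈ s, a i) * ∏ i ∈ s, F i y) y v := by
  classical
  induction s using Finset.induction_on with
  | empty => simpa using HL_const 1 y v
  | insert j s hj ih =>
    simp only [Finset.prod_insert hj, Finset.sum_insert hj]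
    refine ((h j (Finset.mem_insert_self _ _)).mul
      (ih fun i hi => h i (Finset.mem_insert_of_mem hi))).congr_val ?_
    ring

lemma HL_coord (j : Fin N) (y v : Fin N → ℂ) : HL (fun x => x j) (v j) y v := by
  simpa [HL] using ((hasDerivAt_id (0 : ℂ)).mul_const (v j)).const_add (y j)

lemma ext_castSucc (y : Fin N → ℂ) (j : Fin N) : ext y j.castSucc = y j := by simp [ext]

lemma ext_last (y : Fin N → ℂ) : ext y (Fin.last N) = -∑ i, y i := by simp [ext]

lemma sum_ext (y : Fin N → ℂ) : ∑ i, ext y i = 0 := by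
  rw [Fin.sum_univ_castSucc]; simp [ext]

lemma HL_ext (j : Fin (N + 1)) (y v : Fin N → ℂ) : HL (fun x => ext x j) (ext v j) y v := by
  refine Fin.lastCases ?_ (fun j => ?_) j
  · simp only [ext_last]
    exact (HL.sum _ fun i _ => HL_coord i y v).neg
  · simp only [ext_castSucc]
    exact HL_coord j y v

lemma analyticAt_coord (j : Fin N) (y : Fin N → ℂ) : AnalyticAt ℂ (fun x : Fin N → ℂ => x j) y :=
  (ContinuousLinearMap.proj (R := ℂ) (φ := fun _ : Fin N => ℂ) j).analyticAt y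

lemma analyticAt_ext (j : Fin (N + 1)) (y : Fin N → ℂ) : AnalyticAt ℂ (fun x => ext x j) y := by
  refine Fin.lastCases ?_ (fun j => ?_) j
  · simp only [ext_last]
    exact (Finset.analyticAt_fun_sum _ fun i _ => analyticAt_coord i y).neg
  · simp only [ext_castSucc]
    exact analyticAt_coord j y

lemma analyticAt_dd (hF : AnalyticAt ℂ F y) (v : Fin N → ℂ) : AnalyticAt ℂ (dd v F) y :=
  ((ContinuousLinearMap.apply ℂ ℂ v).analyticAt _).comp hF.fderiv

lemma dd_congr (h : F =ᶠ[𝓝 y] G) (v : Fin N → ℂ) : dd v F =ᶠ[𝓝 y] dd v G := by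
  filter_upwards [h.fderiv (𝕜 := ℂ)] with x hx
  simp only [dd, hx]

lemma dd_congr_at (h : F =ᶠ[𝓝 y] G) (v : Fin N → ℂ) : dd v F y = dd v G y :=
  (dd_congr h v).eq_of_nhds

lemma dd_eq_sum (v : Fin N → ℂ) (F : (Fin N → ℂ) → ℂ) (y : Fin N → ℂ) :
    dd v F y = ∑ j, v j * pd j F y := by
  have : v = ∑ j, v j • (Pi.single j (1 : ℂ) : Fin N → ℂ) := by
    ext k; simp [Finset.sum_apply, Pi.single_apply]
  conv_lhs => rw [dd, this, map_sum]
  simp [pd]

lemma pd_eq_dd (j : Fin N) (F : (Fin N → ℂ) → ℂ) : pd j F = dd (Pi.single j 1) F := rfl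

/-- the vectors `e_i - (1, ..., 1)/(N+1)` -/
def vv (i : Fin (N + 1)) : Fin N → ℂ :=
  fun j => (if i = j.castSucc then 1 else 0) - 1 / ((N : ℂ) + 1)

lemma n_ne_zero (N : ℕ) : (N : ℂ) + 1 ≠ 0 := by exact_mod_cast Nat.succ_ne_zero N

lemma ext_vv (i j : Fin (N + 1)) :
    ext (vv i) j = (if i = j then 1 else 0) - 1 / ((N : ℂ) + 1) := by
  refine Fin.lastCases ?_ (fun j => ?_) j
  · have := n_ne_zero N
    rw [ext_last]
    simp only [vv, Finset.sum_sub_distrib, Finset.sum_const, Finset.card_univ, Fintype.card_fin,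
      nsmul_eq_mul]
    refine Fin.lastCases ?_ (fun i => ?_) i
    · simp [(Fin.castSucc_ne_last _).symm]; field_simp; ring
    · simp [Fin.castSucc_ne_last]; field_simp; ring
  · rw [ext_castSucc]; rfl

/-- the gradient pairing -/
def Gam (F G : (Fin N → ℂ) → ℂ) (y : Fin N → ℂ) : ℂ := ∑ i, dd (vv i) F y * dd (vv i) G y

/-- the Laplacian -/
def Lap (F : (Fin N → ℂ) → ℂ) (y : Fin N → ℂ) : ℂ := ∑ i, dd (vv i) (dd (vv i) F) y

lemma Gam_comm (F G : (Fin N → ℂ) → ℂ) (y : Fin N → ℂ) : Gam F G y = Gam G F y := by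
  simp only [Gam, mul_comm]

lemma dd_dd_eq_sum (hF : AnalyticAt ℂ F y) (v w : Fin N → ℂ) :
    dd v (dd w F) y = ∑ j, ∑ k, v j * w k * pd j (pd k F) y := by
  have h1 : dd w F = fun x => ∑ k, w k * pd k F x := funext fun x => dd_eq_sum w F x
  have h2 : ∀ k, AnalyticAt ℂ (pd k F) y := fun k => analyticAt_dd hF _
  have h3 : HL (fun x => ∑ k, w k * pd k F x) (∑ k, w k * dd v (pd k F) y) y v :=
    HL.sum _ fun k _ => (HL_dd (h2 k).differentiableAt v).const_mul _
  rw [← h1] at h3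
  rw [h3.dd_eq (analyticAt_dd hF w).differentiableAt, Finset.sum_comm]
  refine Finset.sum_congr rfl fun k _ => ?_
  rw [dd_eq_sum, Finset.mul_sum]
  exact Finset.sum_congr rfl fun j _ => by ring

lemma sum_vv_mul (j k : Fin N) :
    ∑ i, vv i j * vv i k = (if j = k then 1 else 0) - 1 / ((N : ℂ) + 1) := by
  have := n_ne_zero N
  simp only [vv, sub_mul, mul_sub, Finset.sum_sub_distrib, ite_mul, one_mul, zero_mul, mul_ite,
    mul_one, mul_zero, Finset.sum_ite_eq', Finset.mem_univ, if_true, Finset.sum_const,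
    Finset.card_univ, Fintype.card_fin, nsmul_eq_mul, Fin.castSucc_inj]
  by_cases h : j = k
  · subst h; simp; field_simp; ring
  · simp [h, Ne.symm h]; field_simp; ring

lemma ham_eq (L : PeriodPair) (β : ℂ) (hF : AnalyticAt ℂ F y) :
    ham L β F y = - Lap F y + β * (β - 1) * Vs L (ext y) * F y := by
  have hn := n_ne_zero N
  have hV : (∑ i, ∑ j ∈ Finset.univ.erase i, L.weierstrassP (ext y i - ext y j)) = Vs L (ext y) := by
    refine Finset.sum_congr rfl fun i _ => ?_
    rw [Finset.sum_erase]; simp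
  have hL : Lap F y = ∑ j, ∑ k, ((if j = k then 1 else 0) - 1 / ((N : ℂ) + 1)) * pd j (pd k F) y := by
    simp only [Lap, dd_dd_eq_sum hF, ← sum_vv_mul, Finset.sum_mul]
    rw [Finset.sum_comm]
    exact Finset.sum_congr rfl fun j _ => Finset.sum_comm
  rw [ham, hV, hL]
  congr 1
  rw [Finset.mul_sum, Finset.mul_sum, ← Finset.sum_add_distrib, ← Finset.sum_neg_distrib]
  refine Finset.sum_congr rfl fun j _ => ?_
  rw [Finset.sum_erase_eq_sub (Finset.mem_univ j)]
  simp only [sub_mul, Finset.sum_sub_distrib, ite_mul, one_mul, zero_mul, Finset.sum_ite_eq,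
    Finset.mem_univ, if_true, ← Finset.mul_sum]
  field_simp
  ring

lemma dd_mul (hF : AnalyticAt ℂ F y) (hG : AnalyticAt ℂ G y) (v : Fin N → ℂ) :
    dd v (fun x => F x * G x) y = dd v F y * G y + F y * dd v G y :=
  ((HL_dd hF.differentiableAt v).mul (HL_dd hG.differentiableAt v)).dd_eq
    (hF.mul hG).differentiableAt

lemma Lap_mul (hF : AnalyticAt ℂ F y) (hG : AnalyticAt ℂ G y) :
    Lap (fun x => F x * G x) y = Lap F y * G y + 2 * Gam F G y + F y * Lap G y := by
  simp only [Lap, Gam, Finset.sum_mul, Finset.mul_sum, ← Finset.sum_add_distrib]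
  refine Finset.sum_congr rfl fun i _ => ?_
  have h1 : dd (vv i) (fun x => F x * G x) =ᶠ[𝓝 y]
      fun x => dd (vv i) F x * G x + F x * dd (vv i) G x := by
    filter_upwards [hF.eventually_analyticAt, hG.eventually_analyticAt] with x h1 h2
    exact dd_mul h1 h2 _
  have hF' := analyticAt_dd hF (vv i)
  have hG' := analyticAt_dd hG (vv i)
  refine ((((HL_dd hF'.differentiableAt _).mul (HL_dd hG.differentiableAt _)).add
    ((HL_dd hF.differentiableAt _).mul (HL_dd hG'.differentiableAt _))).congr h1).dd_eq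
      (analyticAt_dd (hF.mul hG) _).differentiableAt |>.trans ?_
  ring

lemma dd_exp (hF : AnalyticAt ℂ F y) (γ : ℂ) (v : Fin N → ℂ) :
    dd v (fun x => cexp (γ * F x)) y = cexp (γ * F y) * (γ * dd v F y) :=
  (HL.comp (F := fun x => γ * F x) (Complex.hasDerivAt_exp _)
    ((HL_dd hF.differentiableAt v).const_mul γ)).dd_eq
    (analyticAt_const.mul hF).cexp.differentiableAt

lemma Lap_exp (hF : AnalyticAt ℂ F y) (γ : ℂ) :
    Lap (fun x => cexp (γ * F x)) y = cexp (γ * F y) * (γ * Lap F y + γ ^ 2 * Gam F F y) := by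
  simp only [Lap, Gam, Finset.mul_sum, ← Finset.sum_add_distrib]
  refine Finset.sum_congr rfl fun i _ => ?_
  have h1 : dd (vv i) (fun x => cexp (γ * F x)) =ᶠ[𝓝 y]
      fun x => cexp (γ * F x) * (γ * dd (vv i) F x) := by
    filter_upwards [hF.eventually_analyticAt] with x h1
    exact dd_exp h1 _ _
  have hF' := analyticAt_dd hF (vv i)
  have hE : AnalyticAt ℂ (fun x => cexp (γ * F x)) y := (analyticAt_const.mul hF).cexp
  refine (((HL_dd hE.differentiableAt _).mul
    ((HL_dd hF'.differentiableAt _).const_mul γ)).congr h1).dd_eq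
      (analyticAt_dd hE _).differentiableAt |>.trans ?_
  rw [dd_exp hF]
  ring

lemma Gam_exp (hF : AnalyticAt ℂ F y) (γ : ℂ) (G : (Fin N → ℂ) → ℂ) :
    Gam (fun x => cexp (γ * F x)) G y = cexp (γ * F y) * (γ * Gam F G y) := by
  simp only [Gam, Finset.mul_sum, dd_exp hF]
  exact Finset.sum_congr rfl fun i _ => by ring

variable {u : (Fin N → ℂ) → (Fin N → ℂ)} {f : (Fin N → ℂ) → ℂ}

lemma dd_comp (hu : AnalyticAt ℂ u y) (hf : AnalyticAt ℂ f (u y)) (v : Fin N → ℂ) :
    dd v (fun x => f (u x)) y = ∑ k, pd k f (u y) * dd v (fun x => u x k) y := by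
  have h1 := hf.differentiableAt.hasFDerivAt.comp y hu.differentiableAt.hasFDerivAt
  have h2 : dd v (fun x => f (u x)) y = dd (fderiv ℂ u y v) f (u y) := by
    have := h1.fderiv
    simp only [dd]
    rw [show (fun x => f (u x)) = f ∘ u from rfl, this]
    rfl
  rw [h2, dd_eq_sum]
  refine Finset.sum_congr rfl fun k _ => ?_
  rw [mul_comm]
  congr 1
  have h3 := (hasFDerivAt_pi'.1 hu.differentiableAt.hasFDerivAt k).fderiv
  simp only [dd]
  rw [h3]
  rfl

lemma Gam_comp (hu : AnalyticAt ℂ u y) (hf : AnalyticAt ℂ f (u y)) (G : (Fin N → ℂ) → ℂ) :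
    Gam G (fun x => f (u x)) y = ∑ k, pd k f (u y) * Gam G (fun x => u x k) y := by
  simp only [Gam, dd_comp hu hf, Finset.mul_sum]
  rw [Finset.sum_comm]
  exact Finset.sum_congr rfl fun k _ => Finset.sum_congr rfl fun i _ => by ring

lemma Lap_comp (hu : AnalyticAt ℂ u y) (hf : AnalyticAt ℂ f (u y)) :
    Lap (fun x => f (u x)) y
      = ∑ k, ∑ l, Gam (fun x => u x k) (fun x => u x l) y * pd k (pd l f) (u y)
        + ∑ k, Lap (fun x => u x k) y * pd k f (u y) := by
  have huk : ∀ k, AnalyticAt ℂ (fun x => u x k) y := fun k => (analyticAt_coord k _).comp hu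
  have key : ∀ v, dd v (dd v (fun x => f (u x))) y
      = ∑ l, ((∑ k, pd k (pd l f) (u y) * dd v (fun x => u x k) y) * dd v (fun x => u x l) y
        + pd l f (u y) * dd v (dd v (fun x => u x l)) y) := by
    intro v
    have h1 : dd v (fun x => f (u x)) =ᶠ[𝓝 y]
        fun x => ∑ l, pd l f (u x) * dd v (fun x => u x l) x := by
      filter_upwards [hu.eventually_analyticAt,
        hu.continuousAt.eventually hf.eventually_analyticAt] with x h1 h2
      exact dd_comp h1 h2 v
    have h2 : ∀ l, AnalyticAt ℂ (pd l f) (u y) := fun l => analyticAt_dd hf _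
    refine ((HL.sum _ fun l _ => ?_).congr h1).dd_eq (analyticAt_dd (hf.comp hu) _).differentiableAt
    rw [← dd_comp hu (h2 l)]
    exact (HL_dd ((h2 l).comp hu).differentiableAt v).mul
      (HL_dd (analyticAt_dd (huk l) v).differentiableAt v)
  simp only [Lap, key, Gam, Finset.sum_add_distrib, Finset.sum_mul]
  congr 1
  · rw [Finset.sum_comm]
    conv_rhs => rw [Finset.sum_comm]
    refine Finset.sum_congr rfl fun l _ => ?_
    rw [Finset.sum_comm]
    exact Finset.sum_congr rfl fun k _ => Finset.sum_congr rfl fun i _ => by ring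
  · rw [Finset.sum_comm]
    exact Finset.sum_congr rfl fun k _ => Finset.sum_congr rfl fun i _ => by ring

/-- the conjugated operator in terms of `Gam` and `Lap` -/
lemma conj_eq (L : PeriodPair) (β γ : ℂ) {ℓ : (Fin N → ℂ) → ℂ} (hℓ : AnalyticAt ℂ ℓ y)
    (hu : AnalyticAt ℂ u y) (hf : AnalyticAt ℂ f (u y)) :
    cexp (-(γ * ℓ y)) * ham L β (fun x => cexp (γ * ℓ x) * f (u x)) y
      = ∑ k, ∑ l, (- Gam (fun x => u x k) (fun x => u x l) y) * pd k (pd l f) (u y)
        + ∑ k, (-(Lap (fun x => u x k) y + 2 * γ * Gam ℓ (fun x => u x k) y)) * pd k f (u y)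
        + (β * (β - 1) * Vs L (ext y) - γ * Lap ℓ y - γ ^ 2 * Gam ℓ ℓ y) * f (u y) := by
  have hE : AnalyticAt ℂ (fun x => cexp (γ * ℓ x)) y := (analyticAt_const.mul hℓ).cexp
  have hg : AnalyticAt ℂ (fun x => f (u x)) y := hf.comp hu
  rw [ham_eq L β (hE.fun_mul hg), Lap_mul hE hg, Lap_exp hℓ, Gam_exp hℓ, Gam_comp hu hf, Lap_comp hu hf,
    exp_neg]
  have := exp_ne_zero (γ * ℓ y)
  simp only [neg_mul, Finset.sum_neg_distrib, add_mul, Finset.sum_add_distrib]
  have h2 : ∑ k, 2 * γ * Gam ℓ (fun x => u x k) y * pd k f (u y)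
      = 2 * γ * ∑ k, pd k f (u y) * Gam ℓ (fun x => u x k) y := by
    rw [Finset.mul_sum]; exact Finset.sum_congr rfl fun k _ => by ring
  rw [h2]
  field_simp
  ring

end Pool.Agent.MP_88847a_mp.H86
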