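import Mathlib

/-!
Definitions for the polynomial form of the elliptic Calogero-Moser operator.
-/

open Filter Topology

noncomputable section

namespace Pool.Agent.MP_88847a_mp.H86

/-- The derivative of `F` with respect to the `i`-th coordinate. -/
def pd {N : ℕ} (i : Fin N) (F : (Fin N → ℂ) → ℂ) (y : Fin N → ℂ) : ℂ :=
  fderiv ℂ F y (Pi.single i 1)

/-- The `N + 1` positions `y_1, ..., y_N, y_{N+1} = -(y_1 + ... + y_N)`. -/
def ext {N : ℕ} (y : Fin N → ℂ) : Fin (N + 1) → ℂ :=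
  Fin.snoc y (-∑ i, y i)

/-- The elliptic Calogero-Moser operator `H_N` with the centre of mass removed, applied to `F`
and evaluated at `y`. -/
def ham (L : PeriodPair) {N : ℕ} (β : ℂ) (F : (Fin N → ℂ) → ℂ) (y : Fin N → ℂ) : ℂ :=
  -((N : ℂ) / (N + 1)) * ∑ i, pd i (pd i F) y
    + 1 / ((N : ℂ) + 1) * ∑ i, ∑ j ∈ Finset.univ.erase i, pd i (pd j F) y
    + β * (β - 1) * (∑ i, ∑ j ∈ Finset.univ.erase i, L.weierstrassP (ext y i - ext y j)) * F y

/-- The matrix whose `i`-th row is `(℘(y_i), ℘'(y_i), ..., ℘^{(N-1)}(y_i))`. -/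
def wmat (L : PeriodPair) {N : ℕ} (y : Fin N → ℂ) : Matrix (Fin N) (Fin N) ℂ :=
  Matrix.of fun i k => iteratedDeriv k L.weierstrassP (y i)

/-- The new variables `u(y)`: the solution of `wmat y * u = (1, ..., 1)`. -/
def uMap (L : PeriodPair) {N : ℕ} (y : Fin N → ℂ) : Fin N → ℂ :=
  (wmat L y)⁻¹.mulVec fun _ => 1

/-- The Jacobian determinant `D_N` of the map `y ↦ u`. -/
def jac (L : PeriodPair) {N : ℕ} (y : Fin N → ℂ) : ℂ :=
  (Matrix.of fun k j => pd j (fun x => uMap L x k) y).det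

/-- The points where the operator and the change of variables are defined. -/
def Regular (L : PeriodPair) {N : ℕ} (y : Fin N → ℂ) : Prop :=
  (∀ i, y i ∉ L.lattice) ∧ (wmat L y).det ≠ 0 ∧
    ∀ i j, i ≠ j → ext y i - ext y j ∉ L.lattice

/-- The operator `D^{-γ} H_N D^{γ}`, written in the variables `u`, has polynomial coefficients:
the identity holds at each regular point, for each local branch `ℓ` of `log D` and each
function `f` of `u` holomorphic near `u(y)`. -/
def HasPolyForm (L : PeriodPair) (N : ℕ) (β γ : ℂ) : Prop :=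
  ∃ (a : Fin N → Fin N → MvPolynomial (Fin N) ℂ) (b : Fin N → MvPolynomial (Fin N) ℂ)
    (c : MvPolynomial (Fin N) ℂ),
    ∀ y : Fin N → ℂ, Regular L y →
      ∀ ℓ : (Fin N → ℂ) → ℂ, AnalyticAt ℂ ℓ y → (∀ᶠ x in 𝓝 y, Complex.exp (ℓ x) = jac L x) →
        ∀ f : (Fin N → ℂ) → ℂ, AnalyticAt ℂ f (uMap L y) →
          Complex.exp (-(γ * ℓ y)) * ham L β (fun x => Complex.exp (γ * ℓ x) * f (uMap L x)) y
            = ∑ k, ∑ l, MvPolynomial.eval (uMap L y) (a k l) * pd k (pd l f) (uMap L y)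
              + ∑ k, MvPolynomial.eval (uMap L y) (b k) * pd k f (uMap L y)
              + MvPolynomial.eval (uMap L y) c * f (uMap L y)

end Pool.Agent.MP_88847a_mp.H86
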