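import Pool.Agent.MP_88847a_mp.H86.Zeta

/-!
Liouville's theorem for elliptic functions, the basic quadratic identity for zeta, and the
description of elliptic functions with poles on the lattice only.
-/

open Filter Topology PeriodPair Complex

noncomputable section

namespace Pool.Agent.MP_88847a_mp.H86

variable {L : PeriodPair}

lemma exists_factor {F : ℂ → ℂ} (hF : AnalyticAt ℂ F 0) (h0 : F 0 = 0) :
    ∃ G : ℂ → ℂ, AnalyticAt ℂ G 0 ∧ (∀ z, F z = z * G z) ∧ G 0 = deriv F 0 := by
  obtain ⟨p, hp⟩ := hF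
  refine ⟨dslope F 0, ⟨_, hp.has_fpower_series_dslope_fslope⟩, fun z => ?_, dslope_same _ _⟩
  have := sub_smul_dslope F 0 z
  rw [h0, sub_zero, sub_zero, smul_eq_mul] at this
  exact this.symm

lemma exists_factor_two {F : ℂ → ℂ} (hF : AnalyticAt ℂ F 0) (h0 : F 0 = 0) (h1 : deriv F 0 = 0) :
    ∃ G : ℂ → ℂ, AnalyticAt ℂ G 0 ∧ (∀ z, F z = z ^ 2 * G z) := by
  obtain ⟨G, hG, hFG, hG0⟩ := exists_factor hF h0
  obtain ⟨G', hG', hGG, -⟩ := exists_factor hG (hG0.trans h1)
  exact ⟨G', hG', fun z => by rw [hFG, hGG]; ring⟩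

lemma tendsto_add_nhdsNE (z a : ℂ) : Tendsto (fun w => w + a) (𝓝[≠] z) (𝓝[≠] (z + a)) := by
  refine tendsto_nhdsWithin_iff.2 ⟨?_, ?_⟩
  · exact ((continuous_add_const a).tendsto z).mono_left nhdsWithin_le_nhds
  · filter_upwards [self_mem_nhdsWithin] with w hw
    simpa using hw

lemma eventually_sub_notMem (L : PeriodPair) (z a : ℂ) : ∀ᶠ w in 𝓝[≠] z, w - a ∉ L.lattice := by
  have := (tendsto_add_nhdsNE z (-a)).eventually (eventually_notMem_nhdsNE L (z + -a))
  simpa [sub_eq_add_neg] using this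

lemma liouville {ι : Type*} [Finite ι] (p : ι → ℂ) (f : ℂ → ℂ)
    (han : ∀ z, (∀ i, z - p i ∉ L.lattice) → AnalyticAt ℂ f z)
    (hper : ∀ l ∈ L.lattice, ∀ z, (∀ i, z - p i ∉ L.lattice) → f (z + l) = f z)
    (hrem : ∀ i, ∃ g, AnalyticAt ℂ g (p i) ∧ f =ᶠ[𝓝[≠] (p i)] g) :
    ∃ c, ∀ z, (∀ i, z - p i ∉ L.lattice) → f z = c := by
  have hev : ∀ z : ℂ, ∀ᶠ w in 𝓝[≠] z, ∀ i, w - p i ∉ L.lattice :=
    fun z => eventually_all.2 fun i => eventually_sub_notMem L z (p i)
  have hall : ∀ z, ∃ g, AnalyticAt ℂ g z ∧ f =ᶠ[𝓝[≠] z] g := by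
    intro z
    by_cases hz : ∀ i, z - p i ∉ L.lattice
    · exact ⟨f, han z hz, EventuallyEq.rfl⟩
    · push Not at hz
      obtain ⟨i, hi⟩ := hz
      obtain ⟨g, hg, hfg⟩ := hrem i
      have hzp : z + -(z - p i) = p i := by ring
      refine ⟨fun w => g (w + -(z - p i)), ?_, ?_⟩
      · exact AnalyticAt.comp_of_eq hg (by fun_prop) hzp
      · have h1 := tendsto_add_nhdsNE z (-(z - p i))
        rw [hzp] at h1
        filter_upwards [h1.eventually hfg, hev z] with w hw hw'
        rw [← hw, hper _ (neg_mem hi) w hw']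
  set F : ℂ → ℂ := fun z => limUnder (𝓝[≠] z) f with hF
  have hlim : ∀ z g, ContinuousAt g z → f =ᶠ[𝓝[≠] z] g → F z = g z := by
    intro z g hg hfg
    exact ((hg.tendsto.mono_left nhdsWithin_le_nhds).congr' hfg.symm).limUnder_eq
  have hFan : ∀ z, AnalyticAt ℂ F z := by
    intro z
    obtain ⟨g, hg, hfg⟩ := hall z
    refine hg.congr ?_
    have h1 : ∀ᶠ w in 𝓝 z, w ≠ z → f w = g w := eventually_nhdsWithin_iff.1 hfg
    filter_upwards [h1.eventually_nhds, hg.eventually_analyticAt] with w hw hw'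
    refine (hlim w g hw'.continuousAt ?_).symm
    by_cases hwz : w = z
    · subst hwz; exact hfg
    · have : ∀ᶠ v in 𝓝 w, v ≠ z := isOpen_ne.mem_nhds hwz
      filter_upwards [mem_nhdsWithin_of_mem_nhds hw, mem_nhdsWithin_of_mem_nhds this] with v h1 h2
      exact h1 h2
  have hFper : ∀ z w, w ∈ L.lattice → F (z + w) = F z := by
    intro z l hl
    obtain ⟨g, hg, hfg⟩ := hall (z + l)
    rw [hlim _ g hg.continuousAt hfg]
    refine (hlim z (fun w => g (w + l)) ?_ ?_).symm
    · exact ContinuousAt.comp_of_eq hg.continuousAt (f := fun w => w + l) (by fun_prop) rfl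
    · filter_upwards [(tendsto_add_nhdsNE z l).eventually hfg, hev z] with w hw hw'
      rw [← hw, hper _ hl w hw']
  have hd : Differentiable ℂ F := fun z => (hFan z).differentiableAt
  refine ⟨F 0, fun z hz => ?_⟩
  rw [← hlim z f (han z hz).continuousAt EventuallyEq.rfl]
  exact hd.apply_eq_apply_of_bounded
    (IsZLattice.isCompact_range_of_periodic L.lattice _ hd.continuous hFper).isBounded z 0

lemma liouville0 (f : ℂ → ℂ) (han : ∀ z, z ∉ L.lattice → AnalyticAt ℂ f z)
    (hper : ∀ l ∈ L.lattice, ∀ z, z ∉ L.lattice → f (z + l) = f z)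
    (hrem : ∃ g, AnalyticAt ℂ g 0 ∧ f =ᶠ[𝓝[≠] 0] g) :
    ∃ c, ∀ z, z ∉ L.lattice → f z = c := by
  have := liouville (L := L) (fun _ : Unit => (0 : ℂ)) f (by simpa using han) (by simpa using hper)
    (fun _ => hrem)
  simpa using this

lemma eq_of_nhdsNE {f g : ℂ → ℂ} {z : ℂ} (hf : ContinuousAt f z) (hg : ContinuousAt g z)
    (h : f =ᶠ[𝓝[≠] z] g) : f z = g z :=
  tendsto_nhds_unique ((hf.tendsto.mono_left nhdsWithin_le_nhds).congr' h)
    (hg.tendsto.mono_left nhdsWithin_le_nhds)

lemma wp_add {l : ℂ} (hl : l ∈ L.lattice) (z : ℂ) : ℘[L] (z + l) = ℘[L] z :=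
  L.weierstrassP_add_coe z ⟨l, hl⟩

lemma wp_sub_comm (L : PeriodPair) (a b : ℂ) : ℘[L] (a - b) = ℘[L] (b - a) := by
  rw [← L.weierstrassP_neg, neg_sub]

/-- the basic identity -/
lemma zeta_sq {a b : ℂ} (ha : a ∉ L.lattice) (hb : b ∉ L.lattice) (hab : a + b ∉ L.lattice) :
    (zeta L a + zeta L b - zeta L (a + b)) ^ 2 = ℘[L] a + ℘[L] b + ℘[L] (a + b) := by
  set f : ℂ → ℂ := fun a =>
    (zeta L a + zeta L b - zeta L (a + b)) ^ 2 - (℘[L] a + ℘[L] b + ℘[L] (a + b)) with hf
  have hsymm : ∀ a, f (-a - b) = f a := by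
    intro a
    simp only [hf]
    rw [show -a - b + b = -a by ring, show -a - b = -(a + b) by ring, zeta_neg, zeta_neg,
      L.weierstrassP_neg, L.weierstrassP_neg]
    ring
  -- local analysis at zero
  have hz1 : AnalyticAt ℂ (fun a => zeta L (a + b)) 0 :=
    AnalyticAt.comp_of_eq (analyticAt_zeta hb) (by fun_prop) (zero_add b)
  have hp1 : AnalyticAt ℂ (fun a => ℘[L] (a + b)) 0 :=
    AnalyticAt.comp_of_eq (analyticAt_wp hb) (by fun_prop) (zero_add b)
  have hz0 := analyticAt_zeta0 L
  obtain ⟨G, hG, hrG, hG0⟩ := exists_factor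
    (F := fun a => zeta0 L a + zeta L b - zeta L (a + b)) (by fun_prop) (by simp [zeta0_zero])
  have hG0' : G 0 = ℘[L] b := by
    rw [hG0]
    have h1 := hasDerivAt_zeta0 L (z := 0) (by simp)
    have h2 : HasDerivAt (fun a => zeta L (a + b)) (-℘[L] b) 0 := by
      have := hasDerivAt_zeta hb
      rw [← zero_add b] at this
      simpa using this.comp_add_const 0 b
    rw [((h1.add_const (zeta L b)).fun_sub h2).deriv]
    simp
  set g : ℂ → ℂ := fun a => 2 * G a + (a * G a) ^ 2
    - (L.weierstrassPExcept 0 a + ℘[L] b + ℘[L] (a + b)) with hg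
  have hgan : AnalyticAt ℂ g 0 := by
    simp only [hg]; fun_prop
  have hfg : f =ᶠ[𝓝[≠] 0] g := by
    filter_upwards [self_mem_nhdsWithin] with a ha
    have ha' : a ≠ 0 := ha
    simp only [hf, hg]
    have := hrG a
    rw [show zeta L a + zeta L b - zeta L (a + b) = 1 / a + a * G a by rw [← this, zeta]; ring,
      wp_eq L a]
    field_simp
    ring
  have hg0 : g 0 = 0 := by simp [hg, hG0']; ring
  have hL : ∃ c, ∀ z, (∀ i, z - (![0, -b] : Fin 2 → ℂ) i ∉ L.lattice) → f z = c := by
    refine liouville (L := L) (![0, -b]) f ?_ ?_ ?_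
    · intro z hz
      have h1 : z ∉ L.lattice := by simpa using hz 0
      have h2 : z + b ∉ L.lattice := by simpa using hz 1
      have h3 := analyticAt_zeta h1
      have h4 := analyticAt_wp h1
      have h5 : AnalyticAt ℂ (fun a => zeta L (a + b)) z :=
        AnalyticAt.comp_of_eq (analyticAt_zeta h2) (by fun_prop) rfl
      have h6 : AnalyticAt ℂ (fun a => ℘[L] (a + b)) z :=
        AnalyticAt.comp_of_eq (analyticAt_wp h2) (by fun_prop) rfl
      simp only [hf]; fun_prop
    · intro l hl z hz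
      have h1 : z ∉ L.lattice := by simpa using hz 0
      have h2 : z + b ∉ L.lattice := by simpa using hz 1
      obtain ⟨η, hη⟩ := zeta_add hl
      simp only [hf]
      rw [show z + l + b = z + b + l by ring, hη _ h1, hη _ h2, wp_add hl, wp_add hl]
      ring
    · intro i
      fin_cases i
      · exact ⟨g, hgan, hfg⟩
      · refine ⟨fun a => g (-a - b), ?_, ?_⟩
        · exact AnalyticAt.comp_of_eq hgan (by fun_prop) (by simp)
        · have ht : Tendsto (fun a : ℂ => -a - b) (𝓝[≠] (-b)) (𝓝[≠] 0) := by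
            refine tendsto_nhdsWithin_iff.2 ⟨?_, ?_⟩
            · have : Continuous fun a : ℂ => -a - b := by fun_prop
              simpa using (this.tendsto (-b)).mono_left nhdsWithin_le_nhds
            · filter_upwards [self_mem_nhdsWithin] with w hw
              intro h
              apply hw
              have : -w - b = 0 := h
              show w = -b
              linear_combination -this
          filter_upwards [ht.eventually hfg] with w hw
          rw [← hw, hsymm]
  · obtain ⟨c, hc⟩ := hL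
    have hc' : ∀ z, z ∉ L.lattice → z + b ∉ L.lattice → f z = c := by
      intro z h1 h2
      apply hc
      intro i
      fin_cases i <;> simpa
    have hc0 : g 0 = c := by
      refine eq_of_nhdsNE hgan.continuousAt continuousAt_const (hfg.symm.trans ?_)
      filter_upwards [eventually_notMem_nhdsNE L 0, eventually_sub_notMem L 0 (-b)] with w h1 h2
      exact hc' w h1 (by simpa using h2)
    have := hc' a ha hab
    rw [← hc0, hg0] at this
    exact sub_eq_zero.1 this

/-- the functions `℘^{(k)}` -/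
def ek (L : PeriodPair) (k : ℕ) : ℂ → ℂ := iteratedDeriv k ℘[L]

lemma analyticAt_ek (k : ℕ) {z : ℂ} (hz : z ∉ L.lattice) : AnalyticAt ℂ (ek L k) z := by
  induction k generalizing z with
  | zero => simpa [ek] using analyticAt_wp hz
  | succ k ih =>
    rw [ek, iteratedDeriv_succ]
    exact (ih hz).deriv

lemma ek_add (k : ℕ) {l : ℂ} (hl : l ∈ L.lattice) (z : ℂ) : ek L k (z + l) = ek L k z := by
  have h : (fun z => ℘[L] (z + l)) = ℘[L] := funext fun z => wp_add hl z
  have := congrFun (iteratedDeriv_comp_add_const k ℘[L] l) z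
  rw [h] at this
  exact this.symm

lemma hasDerivAt_ek (k : ℕ) {z : ℂ} (hz : z ∉ L.lattice) :
    HasDerivAt (ek L k) (ek L (k + 1) z) z := by
  have := (analyticAt_ek k hz).differentiableAt.hasDerivAt
  rwa [ek, ek, iteratedDeriv_succ]

lemma ek_pole (L : PeriodPair) (k : ℕ) : ∃ g : ℂ → ℂ, AnalyticAt ℂ g 0 ∧
    g 0 = (-1) ^ k * (k + 1).factorial ∧ ek L k =ᶠ[𝓝[≠] 0] fun z => g z / z ^ (k + 2) := by
  induction k with
  | zero =>
    refine ⟨fun z => 1 + z ^ 2 * L.weierstrassPExcept 0 z, by fun_prop, by simp, ?_⟩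
    filter_upwards [self_mem_nhdsWithin] with z hz
    have : z ≠ 0 := hz
    simp only [ek, iteratedDeriv_zero, zero_add]
    rw [wp_eq]; field_simp
  | succ k ih =>
    obtain ⟨g, hg, hg0, he⟩ := ih
    have hg' := hg.deriv
    refine ⟨fun z => z * deriv g z - (k + 2) * g z, by fun_prop, ?_, ?_⟩
    · simp only [hg0, Nat.factorial_succ (k + 1)]; push_cast; ring
    · rw [ek, iteratedDeriv_succ]
      refine he.nhdsNE_deriv.trans ?_
      filter_upwards [self_mem_nhdsWithin, mem_nhdsWithin_of_mem_nhds hg.eventually_analyticAt]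
        with z hz hgz
      have hz' : z ≠ 0 := hz
      have h1 := hgz.differentiableAt.hasDerivAt.fun_div (hasDerivAt_pow (k + 2) z)
        (pow_ne_zero _ hz')
      rw [h1.deriv]
      push_cast
      field_simp
      ring

lemma tendsto_sq_mul_wp (L : PeriodPair) :
    Tendsto (fun z => z ^ 2 * ℘[L] z) (𝓝[≠] 0) (𝓝 1) := by
  have h : ContinuousAt (fun z => 1 + z ^ 2 * L.weierstrassPExcept 0 z) 0 :=
    AnalyticAt.continuousAt (𝕜 := ℂ) (by fun_prop)
  have h2 := h.tendsto.mono_left (nhdsWithin_le_nhds (s := {0}ᶜ))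
  simp only [ne_eq, OfNat.ofNat_ne_zero, not_false_eq_true, zero_pow, zero_mul, add_zero] at h2
  refine h2.congr' ?_
  filter_upwards [self_mem_nhdsWithin] with z hz
  have : z ≠ 0 := hz
  rw [wp_eq]; field_simp

lemma quad_eq_zero {a b c : ℂ} (h : ∀ z, z ∉ L.lattice → a * ℘[L] z ^ 2 + b * ℘[L] z + c = 0) :
    a = 0 ∧ b = 0 ∧ c = 0 := by
  have hq := tendsto_sq_mul_wp L
  have hz : Tendsto (fun z : ℂ => z ^ 2) (𝓝[≠] 0) (𝓝 0) := by
    have : Continuous fun z : ℂ => z ^ 2 := by fun_prop
    simpa using (this.tendsto 0).mono_left nhdsWithin_le_nhds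
  have ha : a = 0 := by
    have h1 := (((hq.pow 2).const_mul a).add ((hz.mul hq).const_mul b)).add
      ((hz.pow 2).const_mul c)
    have h2 : Tendsto (fun z : ℂ => a * (z ^ 2 * ℘[L] z) ^ 2 + b * (z ^ 2 * (z ^ 2 * ℘[L] z))
        + c * (z ^ 2) ^ 2) (𝓝[≠] 0) (𝓝 0) := by
      refine tendsto_const_nhds.congr' ?_
      filter_upwards [eventually_notMem_nhdsNE L 0] with z hz
      linear_combination -(z ^ 4) * h z hz
    simpa using tendsto_nhds_unique h1 h2
  have hb : b = 0 := by
    have h1 := (hq.const_mul b).add (hz.const_mul c)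
    have h2 : Tendsto (fun z : ℂ => b * (z ^ 2 * ℘[L] z) + c * z ^ 2) (𝓝[≠] 0) (𝓝 0) := by
      refine tendsto_const_nhds.congr' ?_
      filter_upwards [eventually_notMem_nhdsNE L 0] with z hz
      have := h z hz
      rw [ha] at this
      linear_combination -(z ^ 2) * this
    simpa using tendsto_nhds_unique h1 h2
  refine ⟨ha, hb, ?_⟩
  simpa [ha, hb] using h _ L.ω₁_div_two_notMem_lattice

/-- no elliptic function has a single simple pole -/
lemma no_simple_pole (hΔ : L.g₂ ^ 3 - 27 * L.g₃ ^ 2 ≠ 0) (f g : ℂ → ℂ)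
    (han : ∀ z, z ∉ L.lattice → AnalyticAt ℂ f z)
    (hper : ∀ l ∈ L.lattice, ∀ z, z ∉ L.lattice → f (z + l) = f z)
    (hg : AnalyticAt ℂ g 0) (hfg : f =ᶠ[𝓝[≠] 0] fun z => g z / z) : g 0 = 0 := by
  by_contra hr
  set h : ℂ → ℂ := fun z => (f z - f (-z)) / (2 * g 0) with hh
  set G : ℂ → ℂ := fun z => (g z + g (-z)) / (2 * g 0) with hG
  have hgn : AnalyticAt ℂ (fun z => g (-z)) 0 := AnalyticAt.comp_of_eq hg (by fun_prop) neg_zero
  have hGan : AnalyticAt ℂ G 0 := (hg.add hgn).div_const
  have hG0 : G 0 = 1 := by simp only [hG, neg_zero]; field_simp; ring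
  have hG1 : HasDerivAt G 0 0 := by
    have h1 := hg.differentiableAt.hasDerivAt
    have h2 : HasDerivAt (fun z => g (-z)) (-deriv g 0) 0 := by
      have h3 : HasDerivAt g (deriv g 0) (-0) := by rwa [neg_zero]
      exact (HasDerivAt.comp (h := fun z : ℂ => -z) 0 h3 (hasDerivAt_neg 0)).congr_deriv (by simp)
    simpa using (h1.fun_add h2).div_const (2 * g 0)
  have hhan : ∀ z, z ∉ L.lattice → AnalyticAt ℂ h z := by
    intro z hz
    have h1 := han z hz
    have h2 : AnalyticAt ℂ (fun z => f (-z)) z :=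
      AnalyticAt.comp_of_eq (han _ (neg_notMem hz)) (by fun_prop) rfl
    exact (h1.sub h2).div_const
  have hhper : ∀ l ∈ L.lattice, ∀ z, z ∉ L.lattice → h (z + l) = h z := by
    intro l hl z hz
    simp only [hh]
    rw [hper l hl z hz, neg_add, hper _ (neg_mem hl) _ (neg_notMem hz)]
  have hneg : Tendsto (fun z : ℂ => -z) (𝓝[≠] 0) (𝓝[≠] 0) := by
    refine tendsto_nhdsWithin_iff.2 ⟨?_, ?_⟩
    · simpa using (continuous_neg.tendsto (0 : ℂ)).mono_left nhdsWithin_le_nhds
    · filter_upwards [self_mem_nhdsWithin] with w hw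
      simpa using hw
  have hhG : h =ᶠ[𝓝[≠] 0] fun z => G z / z := by
    filter_upwards [hfg, hneg.eventually hfg, self_mem_nhdsWithin] with z h1 h2 h3
    have : z ≠ 0 := h3
    simp only [hh, hG, h1, h2]
    field_simp
    ring
  -- first relation
  obtain ⟨e, he⟩ := liouville0 (L := L) (fun z => h z ^ 2 - ℘[L] z)
    (fun z hz => ((hhan z hz).pow 2).sub (analyticAt_wp hz))
    (fun l hl z hz => by simp only [hhper l hl z hz, wp_add hl]) (by
      obtain ⟨K, hK, hKe⟩ := exists_factor_two (F := fun z => G z ^ 2 - 1) (by fun_prop)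
        (by simp [hG0]) (by simpa using ((hG1.fun_pow 2).sub_const 1).deriv)
      refine ⟨fun z => K z - L.weierstrassPExcept 0 z, by fun_prop, ?_⟩
      filter_upwards [hhG, self_mem_nhdsWithin] with z h1 h2
      have : z ≠ 0 := h2
      have h3 := hKe z
      rw [h1, wp_eq]
      field_simp
      linear_combination h3)
  obtain ⟨k, hk⟩ := liouville0 (L := L) (fun z => deriv h z + ℘[L] z)
    (fun z hz => (hhan z hz).deriv.add (analyticAt_wp hz))
    (fun l hl z hz => by
      have : (fun w => h (w + l)) =ᶠ[𝓝 z] h := by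
        filter_upwards [eventually_notMem_nhds hz] with w hw using hhper l hl w hw
      have h2 := this.deriv_eq
      rw [deriv_comp_add_const] at h2
      simp only [h2, wp_add hl]) (by
      have hG' := hGan.deriv
      obtain ⟨K, hK, hKe⟩ := exists_factor_two (F := fun z => z * deriv G z - G z + 1) (by fun_prop)
        (by simp [hG0]) (by
          have h1 := (((hasDerivAt_id (0 : ℂ)).fun_mul hG'.differentiableAt.hasDerivAt).fun_sub
            hG1).add_const 1
          simpa [hG1.deriv] using h1.deriv)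
      refine ⟨fun z => K z + L.weierstrassPExcept 0 z, by fun_prop, ?_⟩
      filter_upwards [hhG.nhdsNE_deriv, self_mem_nhdsWithin,
        mem_nhdsWithin_of_mem_nhds hGan.eventually_analyticAt] with z h1 h2 h4
      have hz : z ≠ 0 := h2
      have h3 := hKe z
      rw [h1, wp_eq, (h4.differentiableAt.hasDerivAt.fun_div (hasDerivAt_id' z) hz).deriv]
      field_simp
      linear_combination h3)
  have hrel : ∀ z, z ∉ L.lattice → ℘'[L] z = 2 * h z * deriv h z := by
    intro z hz
    have h1 : (fun z => h z ^ 2 - e) =ᶠ[𝓝 z] ℘[L] := by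
      filter_upwards [eventually_notMem_nhds hz] with w hw
      rw [← he w hw]; ring
    have h2 := h1.deriv_eq
    rw [L.deriv_weierstrassP,
      (((hhan z hz).differentiableAt.hasDerivAt.fun_pow 2).sub_const e).deriv] at h2
    rw [← h2]; simp
  obtain ⟨h1, h2, h3⟩ := quad_eq_zero (L := L) (a := 4 * (e - 2 * k))
    (b := 4 * (k ^ 2 - 2 * e * k) + L.g₂) (c := 4 * e * k ^ 2 + L.g₃) (fun z hz => by
      have e1 := L.derivWeierstrassP_sq z hz
      have e2 := he z hz
      have e3 := hk z hz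
      rw [hrel z hz, mul_pow, mul_pow, show h z ^ 2 = ℘[L] z + e by rw [← e2]; ring,
        show deriv h z = k - ℘[L] z by rw [← e3]; ring] at e1
      linear_combination e1)
  apply hΔ
  have he2 : e = 2 * k := by linear_combination h1 / 4
  have hg2 : L.g₂ = 12 * k ^ 2 := by rw [he2] at h2; linear_combination h2
  have hg3 : L.g₃ = -8 * k ^ 3 := by rw [he2] at h3; linear_combination h3
  rw [hg2, hg3]; ring

/-- elliptic functions with a pole of order at most `m + 1` on the lattice -/
lemma exists_span (hΔ : L.g₂ ^ 3 - 27 * L.g₃ ^ 2 ≠ 0) (m : ℕ) (f g : ℂ → ℂ)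
    (han : ∀ z, z ∉ L.lattice → AnalyticAt ℂ f z)
    (hper : ∀ l ∈ L.lattice, ∀ z, z ∉ L.lattice → f (z + l) = f z)
    (hg : AnalyticAt ℂ g 0) (hfg : f =ᶠ[𝓝[≠] 0] fun z => g z / z ^ (m + 1)) :
    ∃ (c0 : ℂ) (c : Fin m → ℂ), ∀ z, z ∉ L.lattice → f z = c0 + ∑ k, c k * ek L k z := by
  induction m generalizing f g with
  | zero =>
    have h0 := no_simple_pole hΔ f g han hper hg (by simpa using hfg)
    obtain ⟨G, hG, hGe, -⟩ := exists_factor hg h0
    obtain ⟨c, hc⟩ := liouville0 f han hper ⟨G, hG, by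
      filter_upwards [hfg, self_mem_nhdsWithin] with z h1 h2
      have : z ≠ 0 := h2
      rw [h1, hGe, zero_add]; field_simp⟩
    exact ⟨c, Fin.elim0, by simpa using hc⟩
  | succ m ih =>
    obtain ⟨q, hq, hq0, hqe⟩ := ek_pole L m
    have hq0' : q 0 ≠ 0 := by
      rw [hq0]; exact mul_ne_zero (by simp) (by exact_mod_cast Nat.factorial_ne_zero _)
    set a : ℂ := g 0 / q 0 with ha
    obtain ⟨G, hG, hGe, -⟩ := exists_factor (F := fun z => g z - a * q z) (by fun_prop)
      (by simp only [ha]; field_simp; ring)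
    obtain ⟨c0, c, hc⟩ := ih (fun z => f z - a * ek L m z) G
      (fun z hz => (han z hz).sub (analyticAt_const.mul (analyticAt_ek m hz)))
      (fun l hl z hz => by simp only [hper l hl z hz, ek_add m hl]) hG (by
        filter_upwards [hfg, hqe, self_mem_nhdsWithin] with z h1 h2 h3
        have : z ≠ 0 := h3
        have h4 := hGe z
        rw [h1, h2]
        field_simp
        linear_combination (z ^ (m + 1)) * h4)
    refine ⟨c0, Fin.snoc c a, fun z hz => ?_⟩
    rw [Fin.sum_univ_castSucc]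
    simp only [Fin.snoc_castSucc, Fin.snoc_last, Fin.val_castSucc, Fin.val_last]
    rw [← add_assoc, ← hc z hz]; ring

/-- linear independence of `1, ℘, ℘', ...` off a countable set -/
lemma indep_ek {C : Set ℂ} (hC : C.Countable) (m : ℕ) (c0 : ℂ) (c : Fin m → ℂ)
    (h : ∀ z, z ∉ L.lattice → z ∉ C → c0 + ∑ k, c k * ek L k z = 0) : c0 = 0 ∧ c = 0 := by
  have h' : ∀ z, z ∉ L.lattice → c0 + ∑ k, c k * ek L k z = 0 := by
    intro z hz
    refine eq_of_eqOn_compl (f := fun z => c0 + ∑ k, c k * ek L k z) (g := fun _ => 0) hC ?_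
      continuousAt_const ?_
    · exact continuousAt_const.add (tendsto_finsetSum _ fun k _ =>
        (continuousAt_const.mul (analyticAt_ek k hz).continuousAt))
    · filter_upwards [eventually_notMem_nhds hz] with w hw hw' using h w hw hw'
  clear h
  induction m with
  | zero => exact ⟨by simpa using h' _ L.ω₁_div_two_notMem_lattice, Subsingleton.elim _ _⟩
  | succ m ih =>
    have hlast : c (Fin.last m) = 0 := by
      choose q hq hq0 hqe using ek_pole L
      set g : ℂ → ℂ := fun z => c0 * z ^ (m + 2) + ∑ k : Fin (m + 1), c k * (q k z * z ^ (m - k))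
      have hgc : ContinuousAt g 0 := by
        refine ContinuousAt.add (by fun_prop) (tendsto_finsetSum _ fun k _ => ?_)
        have := (hq k).continuousAt
        exact (by fun_prop : ContinuousAt (fun z => c k * (q k z * z ^ (m - k))) 0)
      have hg0 : g 0 = 0 := by
        refine eq_of_nhdsNE hgc continuousAt_const ?_
        filter_upwards [eventually_notMem_nhdsNE L 0, self_mem_nhdsWithin,
          eventually_all.2 fun k : Fin (m + 1) => hqe k] with z h1 h2 h3
        have hz : z ≠ 0 := h2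
        have h4 := h' z h1
        simp only [g]
        rw [← mul_zero (z ^ (m + 2)), ← h4, mul_add, Finset.mul_sum, mul_comm]
        congr 1
        refine Finset.sum_congr rfl fun k _ => ?_
        rw [h3 k]
        have : m + 2 = (m - k) + (k + 2) := by have := k.2; omega
        rw [this, pow_add]
        field_simp
      simp only [g] at hg0
      rw [Fin.sum_univ_castSucc, Finset.sum_eq_zero] at hg0
      · have h5 : q m 0 ≠ 0 := by
          rw [hq0]; exact mul_ne_zero (by simp) (by exact_mod_cast Nat.factorial_ne_zero _)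
        simpa [h5] using hg0
      · intro k _
        have : m - (k.castSucc : ℕ) ≠ 0 := by have := k.2; simp; omega
        rw [zero_pow this]; simp
    obtain ⟨h1, h2⟩ := ih (fun k => c k.castSucc) (fun z hz => by
      have := h' z hz
      rw [Fin.sum_univ_castSucc, hlast] at this
      simpa using this)
    refine ⟨h1, funext fun k => ?_⟩
    refine Fin.lastCases hlast (fun k => congrFun h2 k) k

end Pool.Agent.MP_88847a_mp.H86
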