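import Pool.Agent.MP_88847a_mp.H86.Jac

/-!
The three bilinear identities for the generating function.
-/

open Filter Topology PeriodPair Complex

noncomputable section

namespace Pool.Agent.MP_88847a_mp.H86

variable {L : PeriodPair} {N : ℕ} {y : Fin N → ℂ} {z w : ℂ}

/-- the functions `1, ℘, ℘', ...` -/
def ee (L : PeriodPair) (a : Option (Fin N)) (z : ℂ) : ℂ := a.elim 1 fun k => ek L k z

/-- the functions `-1, u_1, u_2, ...` -/
def UU (L : PeriodPair) (a : Option (Fin N)) (y : Fin N → ℂ) : ℂ := a.elim (-1) fun k => uMap L y k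

lemma phi_eq_sum (L : PeriodPair) (z : ℂ) (y : Fin N → ℂ) :
    phi L z y = ∑ a, ee L a z * UU L a y := by
  rw [Fintype.sum_option, phi]; simp [ee, UU]; ring

lemma analyticAt_UU (h : Reg0 L y) (a : Option (Fin N)) : AnalyticAt ℂ (UU L a) y := by
  cases a with
  | none => exact analyticAt_const
  | some k => exact analyticAt_u h k

lemma dd_phi_sum (h : Reg0 L y) (z : ℂ) (v : Fin N → ℂ) :
    dd v (phi L z) y = ∑ a, ee L a z * dd v (UU L a) y := by
  have : phi L z = fun y => ∑ a : Option (Fin N), ee L a z * UU L a y := funext (phi_eq_sum L z)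
  refine HL.dd_eq ?_ (analyticAt_phi h z).differentiableAt
  rw [this]
  exact HL.sum _ fun a _ => (HL_dd (analyticAt_UU h a).differentiableAt v).const_mul _

lemma Lap_phi_sum (h : Reg0 L y) (z : ℂ) :
    Lap (phi L z) y = ∑ a, ee L a z * Lap (UU L a) y := by
  simp only [Lap, Finset.mul_sum]
  rw [Finset.sum_comm]
  refine Finset.sum_congr rfl fun i _ => ?_
  have h1 : dd (vv i) (phi L z) =ᶠ[𝓝 y] fun x => ∑ a, ee L a z * dd (vv i) (UU L a) x := by
    filter_upwards [h.eventually] with x hx using dd_phi_sum hx z _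
  exact ((HL.sum _ fun a _ => (HL_dd (analyticAt_dd (analyticAt_UU h a) _).differentiableAt
    _).const_mul _).congr h1).dd_eq (analyticAt_dd (analyticAt_phi h z) _).differentiableAt

/-- `Γ(φ(z), φ(w))` -/
def gg (L : PeriodPair) (z w : ℂ) (y : Fin N → ℂ) : ℂ :=
  ∑ a, ∑ b, ee L a z * ee L b w * Gam (UU L a) (UU L b) y

lemma gg_eq (h : Reg0 L y) (z w : ℂ) : gg L z w y = Gam (phi L z) (phi L w) y := by
  simp only [gg, Gam, dd_phi_sum h, Finset.sum_mul_sum]
  simp only [Finset.mul_sum]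
  rw [Finset.sum_comm (s := (Finset.univ : Finset (Fin (N + 1))))]
  refine Finset.sum_congr rfl fun a _ => ?_
  rw [Finset.sum_comm (s := (Finset.univ : Finset (Fin (N + 1))))]
  exact Finset.sum_congr rfl fun b _ => Finset.sum_congr rfl fun i _ => by ring

/-- `∇ log J ⋅ ∇ U_a` -/
def BB (L : PeriodPair) (a : Option (Fin N)) (y : Fin N → ℂ) : ℂ :=
  ∑ i, lam L i y * dd (vv i) (UU L a) y

/-- `∇ log J ⋅ ∇ φ(z)` -/
def bb (L : PeriodPair) (z : ℂ) (y : Fin N → ℂ) : ℂ := ∑ a, ee L a z * BB L a y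

lemma bb_eq (h : Reg0 L y) (z : ℂ) : bb L z y = ∑ i, lam L i y * dd (vv i) (phi L z) y := by
  simp only [bb, BB, dd_phi_sum h, Finset.mul_sum]
  rw [Finset.sum_comm]
  exact Finset.sum_congr rfl fun i _ => Finset.sum_congr rfl fun a _ => by ring

/-- Hirota-type bilinear form -/
def HH (L : PeriodPair) (a b : Option (Fin N)) (y : Fin N → ℂ) : ℂ :=
  UU L b y * Lap (UU L a) y + UU L a y * Lap (UU L b) y - 2 * Gam (UU L a) (UU L b) y
    - 2 * dvc L y * (UU L a y * UU L b y)

/-- its value on `φ(z), φ(w)` -/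
def QQ (L : PeriodPair) (z w : ℂ) (y : Fin N → ℂ) : ℂ :=
  ((N : ℂ) + 1)⁻¹ * (2 * (L1 L z y * L1 L w y) - L2 L z y * phi L w y - phi L z y * L2 L w y)
    + ((N : ℂ) + 1) * (℘[L] (z - w) - zeta L (z - w) ^ 2) * (phi L z y * phi L w y)
    + 2 * zeta L (z - w) * (L1 L z y * phi L w y - phi L z y * L1 L w y)

lemma sum_HH (h : Reg0 L y) (z w : ℂ) : ∑ a, ∑ b, ee L a z * ee L b w * HH L a b y
    = phi L w y * Lap (phi L z) y + phi L z y * Lap (phi L w) y - 2 * Gam (phi L z) (phi L w) y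
      - 2 * dvc L y * (phi L z y * phi L w y) := by
  rw [← gg_eq h, Lap_phi_sum h, Lap_phi_sum h, phi_eq_sum, phi_eq_sum, mul_comm (∑ _, _ * UU _ _ _)]
  simp only [gg, Finset.sum_mul_sum]
  simp only [Finset.mul_sum, ← Finset.sum_add_distrib, ← Finset.sum_sub_distrib, HH]
  exact Finset.sum_congr rfl fun a _ => Finset.sum_congr rfl fun b _ => by ring

lemma hirota_gen (hΔ : L.g₂ ^ 3 - 27 * L.g₃ ^ 2 ≠ 0) (h : Reg0 L y) (hz : Gen L z y)
    (hw : Gen L w y) (hzw : z - w ∉ L.lattice) :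
    ∑ a, ∑ b, ee L a z * ee L b w * HH L a b y = QQ L z w y := by
  have hn := n_ne_zero N
  rw [sum_HH h, Lap_phi hΔ h hz, Lap_phi hΔ h hw, Gam, QQ, L1_eq hΔ h hz, L1_eq hΔ h hw,
    L2_eq hΔ h hz, L2_eq hΔ h hw]
  simp only [D_phi hΔ h hz, D_phi hΔ h hw]
  have h1 := sum_sq_diff hz.2 hw.2 hzw
  simp only [Fintype.card_fin, Nat.cast_add, Nat.cast_one] at h1
  have h2 : ∑ i, (alp L i z y + cc L (vv i) y) ^ 2 + ∑ i, (alp L i w y + cc L (vv i) y) ^ 2
      - 2 * ∑ i, (alp L i z y + cc L (vv i) y) * (alp L i w y + cc L (vv i) y)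
      = ∑ i, (zeta L (z - ext y i) - zeta L (w - ext y i)) ^ 2
        - (Zs L (ext y) z - Zs L (ext y) w) ^ 2 / ((N : ℂ) + 1) := by
    have e1 : ∀ i, (alp L i z y + cc L (vv i) y) ^ 2 + (alp L i w y + cc L (vv i) y) ^ 2
        - 2 * ((alp L i z y + cc L (vv i) y) * (alp L i w y + cc L (vv i) y))
        = (zeta L (z - ext y i) - zeta L (w - ext y i)) ^ 2
          - 2 * ((Zs L (ext y) z - Zs L (ext y) w) / ((N : ℂ) + 1))
            * (zeta L (z - ext y i) - zeta L (w - ext y i))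
          + ((Zs L (ext y) z - Zs L (ext y) w) / ((N : ℂ) + 1)) ^ 2 := by
      intro i; simp only [alp]; ring
    rw [Finset.mul_sum, ← Finset.sum_add_distrib, ← Finset.sum_sub_distrib]
    simp only [e1, Finset.sum_add_distrib, Finset.sum_sub_distrib, ← Finset.mul_sum,
      Finset.sum_const, Finset.card_univ, Fintype.card_fin, nsmul_eq_mul]
    rw [← Zs, ← Zs]
    push_cast
    field_simp
    ring
  have h3 : ∑ i, phi L z y * (alp L i z y + cc L (vv i) y) * (phi L w y * (alp L i w y + cc L (vv i) y))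
      = phi L z y * phi L w y * ∑ i, (alp L i z y + cc L (vv i) y) * (alp L i w y + cc L (vv i) y) := by
    rw [Finset.mul_sum]; exact Finset.sum_congr rfl fun i _ => by ring
  rw [h1] at h2
  rw [h3, div_eq_mul_inv] at *
  linear_combination phi L z y * phi L w y * h2

/-- right-hand side of the second identity -/
def RR (L : PeriodPair) (z w : ℂ) (y : Fin N → ℂ) : ℂ :=
  ((N : ℂ) + 1 - 1 / 2) * (phi L z y * (L1 L w y ^ 2 - phi L w y * L2 L w y))
    + ((N : ℂ) + 1) ^ 2 / 2 * ℘[L] (z - w) * (phi L z y * phi L w y ^ 2)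
    - 1 / 2 * (phi L w y ^ 2 * L2 L z y)
    + L1 L z y * phi L w y * (L1 L w y + ((N : ℂ) + 1) * zeta L (z - w) * phi L w y)
    - 1 / 2 * (phi L z y * (L1 L w y + ((N : ℂ) + 1) * zeta L (z - w) * phi L w y) ^ 2)
    + ((N : ℂ) + 1) * (phi L w y * gg L z w y) - ((N : ℂ) + 1) * (phi L z y * gg L w w y)

lemma lam_sub (L : PeriodPair) (i : Fin (N + 1)) (w : ℂ) (y : Fin N → ℂ) :
    lam L i y - ((N : ℂ) + 1) * (alp L i w y + cc L (vv i) y)
      = rho L (ext y) i + ((N : ℂ) + 1) * zeta L (w - ext y i) - Zs L (ext y) w := by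
  have := n_ne_zero N
  rw [lam, alp]; field_simp; ring

lemma second_gen (hΔ : L.g₂ ^ 3 - 27 * L.g₃ ^ 2 ≠ 0) (h : Regular L y) (hz : Gen L z y)
    (hw : Gen L w y) (hzw : z - w ∉ L.lattice) :
    phi L w y ^ 2 * bb L z y - phi L z y * (phi L w y * bb L w y) = RR L z w y := by
  have hn := n_ne_zero N
  have h0 := h.reg0
  rw [RR, gg_eq h0, gg_eq h0, bb_eq h0, bb_eq h0, Gam, Gam, L1_eq hΔ h0 hz, L1_eq hΔ h0 hw,
    L2_eq hΔ h0 hz, L2_eq hΔ h0 hw]
  simp only [D_phi hΔ h0 hz, D_phi hΔ h0 hw]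
  have h1 := sum_f_mul h.2.2 hz.2 hw.2 hzw
  simp only [Fintype.card_fin, Nat.cast_add, Nat.cast_one] at h1
  have hf0 : ∑ i, (rho L (ext y) i + ((N : ℂ) + 1) * zeta L (w - ext y i) - Zs L (ext y) w) = 0 := by
    simp only [Finset.sum_add_distrib, Finset.sum_sub_distrib, sum_rho, ← Finset.mul_sum,
      Finset.sum_const, Finset.card_univ, nsmul_eq_mul, Fintype.card_fin]
    rw [← Zs]; push_cast; ring
  set az : Fin (N + 1) → ℂ := fun i => alp L i z y + cc L (vv i) y with haz
  set aw : Fin (N + 1) → ℂ := fun i => alp L i w y + cc L (vv i) y with haw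
  have h2 : ∑ i, (lam L i y - ((N : ℂ) + 1) * aw i) * (az i - aw i)
      = ∑ i, (rho L (ext y) i + ((N : ℂ) + 1) * zeta L (w - ext y i) - Zs L (ext y) w)
        * (zeta L (w - ext y i) - zeta L (z - ext y i)) := by
    have e1 : ∀ i, az i - aw i = (zeta L (w - ext y i) - zeta L (z - ext y i))
        + (Zs L (ext y) z - Zs L (ext y) w) / ((N : ℂ) + 1) := by
      intro i; simp only [haz, haw, alp]; ring
    have e0 : ∀ i, lam L i y - ((N : ℂ) + 1) * aw i
        = rho L (ext y) i + ((N : ℂ) + 1) * zeta L (w - ext y i) - Zs L (ext y) w :=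
      fun i => lam_sub L i w y
    simp only [e1, e0]
    simp only [mul_add (_ - Zs L (ext y) w), Finset.sum_add_distrib, ← Finset.sum_mul, hf0,
      zero_mul, add_zero]
  have h3 : ∑ i, (lam L i y - ((N : ℂ) + 1) * aw i) * (az i - aw i)
      = ∑ i, lam L i y * az i - ∑ i, lam L i y * aw i - ((N : ℂ) + 1) * ∑ i, az i * aw i
        + ((N : ℂ) + 1) * ∑ i, aw i * aw i := by
    simp only [Finset.mul_sum, ← Finset.sum_add_distrib, ← Finset.sum_sub_distrib]
    exact Finset.sum_congr rfl fun i _ => by ring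
  have e1 : ∑ i, lam L i y * (phi L z y * az i) = phi L z y * ∑ i, lam L i y * az i := by
    rw [Finset.mul_sum]; exact Finset.sum_congr rfl fun i _ => by ring
  have e2 : ∑ i, lam L i y * (phi L w y * aw i) = phi L w y * ∑ i, lam L i y * aw i := by
    rw [Finset.mul_sum]; exact Finset.sum_congr rfl fun i _ => by ring
  have e3 : ∑ i, phi L z y * az i * (phi L w y * aw i)
      = phi L z y * phi L w y * ∑ i, az i * aw i := by
    rw [Finset.mul_sum]; exact Finset.sum_congr rfl fun i _ => by ring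
  have e4 : ∑ i, phi L w y * aw i * (phi L w y * aw i)
      = phi L w y * phi L w y * ∑ i, aw i * aw i := by
    rw [Finset.mul_sum]; exact Finset.sum_congr rfl fun i _ => by ring
  rw [h3, h1] at h2
  simp only [haz, haw] at e1 e2 e3 e4 h2
  rw [e1, e2, e3, e4]
  linear_combination phi L z y * phi L w y ^ 2 * h2

/-- `|∇ log J|^2 - V` -/
def AA (L : PeriodPair) (y : Fin N → ℂ) : ℂ := ∑ i, lam L i y ^ 2 - Vs L (ext y)

/-- right-hand side of the third identity -/
def SS (L : PeriodPair) (w : ℂ) (y : Fin N → ℂ) : ℂ :=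
  2 * ((N : ℂ) + 1) * (phi L w y * bb L w y) - ((N : ℂ) + 1) ^ 2 * gg L w w y
    + ((N : ℂ) + 1) * N * (L1 L w y ^ 2 - phi L w y * L2 L w y)

lemma third_gen (hΔ : L.g₂ ^ 3 - 27 * L.g₃ ^ 2 ≠ 0) (h : Regular L y) (hw : Gen L w y) :
    phi L w y ^ 2 * AA L y = SS L w y := by
  have h0 := h.reg0
  rw [SS, AA, gg_eq h0, bb_eq h0, Gam, L1_eq hΔ h0 hw, L2_eq hΔ h0 hw]
  simp only [D_phi hΔ h0 hw]
  have h1 := sum_f_sq h.2.2 hw.2
  simp only [Fintype.card_fin, Nat.cast_add, Nat.cast_one, ← lam_sub] at h1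
  set aw : Fin (N + 1) → ℂ := fun i => alp L i w y + cc L (vv i) y with haw
  have h3 : ∑ i, (lam L i y - ((N : ℂ) + 1) * aw i) ^ 2
      = ∑ i, lam L i y ^ 2 - 2 * ((N : ℂ) + 1) * ∑ i, lam L i y * aw i
        + ((N : ℂ) + 1) ^ 2 * ∑ i, aw i * aw i := by
    simp only [Finset.mul_sum, ← Finset.sum_add_distrib, ← Finset.sum_sub_distrib]
    exact Finset.sum_congr rfl fun i _ => by ring
  have e2 : ∑ i, lam L i y * (phi L w y * aw i) = phi L w y * ∑ i, lam L i y * aw i := by
    rw [Finset.mul_sum]; exact Finset.sum_congr rfl fun i _ => by ring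
  have e4 : ∑ i, phi L w y * aw i * (phi L w y * aw i)
      = phi L w y * phi L w y * ∑ i, aw i * aw i := by
    rw [Finset.mul_sum]; exact Finset.sum_congr rfl fun i _ => by ring
  simp only [haw] at e2 e4 h3
  rw [h3] at h1
  rw [e2, e4]
  linear_combination phi L w y ^ 2 * h1

/-! ### extension to non-generic points by continuity -/

lemma ext_two {F G : ℂ × ℂ → ℂ} (y : Fin N → ℂ) (hF : ContinuousAt F (z, w))
    (hG : ContinuousAt G (z, w)) (hzw : z - w ∉ L.lattice)
    (h : ∀ z w, Gen L z y → Gen L w y → z - w ∉ L.lattice → F (z, w) = G (z, w)) :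
    F (z, w) = G (z, w) := by
  have hd : Dense {z | ¬ Gen L z y}ᶜ := (countable_not_gen L y).dense_compl ℂ
  refine tendsto_nhds_unique_of_frequently_eq hF hG ?_
  have h1 := mem_closure_iff_frequently.1 ((hd.prod hd) (z, w))
  have h2 : ∀ᶠ p : ℂ × ℂ in 𝓝 (z, w), p.1 - p.2 ∉ L.lattice :=
    (by fun_prop : ContinuousAt (fun p : ℂ × ℂ => p.1 - p.2) (z, w)).eventually
      (eventually_notMem_nhds hzw)
  refine (h1.and_eventually h2).mono fun p hp => h p.1 p.2 ?_ ?_ hp.2
  · simpa using hp.1.1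
  · simpa using hp.1.2

lemma continuousAt_ee (hz : z ∉ L.lattice) (a : Option (Fin N)) : ContinuousAt (ee L a) z := by
  cases a with
  | none => exact continuousAt_const
  | some k => exact (analyticAt_ek k hz).continuousAt

lemma continuousAt_phi (hz : z ∉ L.lattice) (y : Fin N → ℂ) :
    ContinuousAt (fun z => phi L z y) z := (hasDerivAt_phi hz y).continuousAt

lemma continuousAt_L1 (hz : z ∉ L.lattice) (y : Fin N → ℂ) :
    ContinuousAt (fun z => L1 L z y) z := by
  have h1 := continuousAt_phi hz y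
  have h2 := (hasDerivAt_phi1 hz y).continuousAt
  have h3 := (analyticAt_zeta hz).continuousAt
  simp only [L1]
  fun_prop

lemma continuousAt_L2 (hz : z ∉ L.lattice) (y : Fin N → ℂ) :
    ContinuousAt (fun z => L2 L z y) z := by
  have h1 := continuousAt_phi hz y
  have h2 := (hasDerivAt_phi1 hz y).continuousAt
  have h3 := (analyticAt_zeta hz).continuousAt
  have h4 := (analyticAt_wp hz).continuousAt
  have h5 : ContinuousAt (fun z => phi2 L z y) z :=
    tendsto_finsetSum _ fun k _ => (analyticAt_ek _ hz).continuousAt.mul continuousAt_const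
  simp only [L2]
  fun_prop

lemma continuousAt_bb (hz : z ∉ L.lattice) (y : Fin N → ℂ) :
    ContinuousAt (fun z => bb L z y) z :=
  tendsto_finsetSum _ fun a _ => (continuousAt_ee hz a).mul continuousAt_const

lemma cfst {f : ℂ → ℂ} (h : ContinuousAt f z) : ContinuousAt (fun p : ℂ × ℂ => f p.1) (z, w) :=
  ContinuousAt.comp (g := f) (f := Prod.fst) h continuousAt_fst

lemma csnd {f : ℂ → ℂ} (h : ContinuousAt f w) : ContinuousAt (fun p : ℂ × ℂ => f p.2) (z, w) :=
  ContinuousAt.comp (g := f) (f := Prod.snd) h continuousAt_snd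

lemma csub {f : ℂ → ℂ} (h : ContinuousAt f (z - w)) :
    ContinuousAt (fun p : ℂ × ℂ => f (p.1 - p.2)) (z, w) :=
  ContinuousAt.comp (g := f) (f := fun p : ℂ × ℂ => p.1 - p.2) h (by fun_prop)

lemma continuousAt_bil (hz : z ∉ L.lattice) (hw : w ∉ L.lattice)
    (c : Option (Fin N) → Option (Fin N) → ℂ) :
    ContinuousAt (fun p : ℂ × ℂ => ∑ a, ∑ b, ee L a p.1 * ee L b p.2 * c a b) (z, w) :=
  tendsto_finsetSum _ fun a _ => tendsto_finsetSum _ fun b _ =>
    ((cfst (continuousAt_ee hz a)).mul (csnd (continuousAt_ee hw b))).mul continuousAt_const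

lemma continuousAt_gg_diag (hw : w ∉ L.lattice) (y : Fin N → ℂ) :
    ContinuousAt (fun w => gg L w w y) w :=
  tendsto_finsetSum _ fun a _ => tendsto_finsetSum _ fun b _ =>
    ((continuousAt_ee hw a).mul (continuousAt_ee hw b)).mul continuousAt_const

lemma hirota (hΔ : L.g₂ ^ 3 - 27 * L.g₃ ^ 2 ≠ 0) (h : Reg0 L y) (hz : z ∉ L.lattice)
    (hw : w ∉ L.lattice) (hzw : z - w ∉ L.lattice) :
    ∑ a, ∑ b, ee L a z * ee L b w * HH L a b y = QQ L z w y := by
  refine ext_two (F := fun p => ∑ a, ∑ b, ee L a p.1 * ee L b p.2 * HH L a b y)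
    (G := fun p => QQ L p.1 p.2 y) y (continuousAt_bil hz hw _) ?_ hzw
    (fun z w h1 h2 h3 => hirota_gen hΔ h h1 h2 h3)
  have c1 := cfst (w := w) (continuousAt_phi hz y)
  have c2 := csnd (z := z) (continuousAt_phi hw y)
  have c3 := cfst (w := w) (continuousAt_L1 hz y)
  have c4 := csnd (z := z) (continuousAt_L1 hw y)
  have c5 := cfst (w := w) (continuousAt_L2 hz y)
  have c6 := csnd (z := z) (continuousAt_L2 hw y)
  have c7 := csub (analyticAt_zeta hzw).continuousAt
  have c8 := csub (analyticAt_wp hzw).continuousAt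
  simp only [QQ]
  fun_prop

lemma second (hΔ : L.g₂ ^ 3 - 27 * L.g₃ ^ 2 ≠ 0) (h : Regular L y) (hz : z ∉ L.lattice)
    (hw : w ∉ L.lattice) (hzw : z - w ∉ L.lattice) :
    phi L w y ^ 2 * bb L z y - phi L z y * (phi L w y * bb L w y) = RR L z w y := by
  have c1 := cfst (w := w) (continuousAt_phi hz y)
  have c2 := csnd (z := z) (continuousAt_phi hw y)
  have c3 := cfst (w := w) (continuousAt_L1 hz y)
  have c4 := csnd (z := z) (continuousAt_L1 hw y)
  have c5 := cfst (w := w) (continuousAt_L2 hz y)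
  have c6 := csnd (z := z) (continuousAt_L2 hw y)
  have c7 := csub (analyticAt_zeta hzw).continuousAt
  have c8 := csub (analyticAt_wp hzw).continuousAt
  have c9 := cfst (w := w) (continuousAt_bb hz y)
  have c10 := csnd (z := z) (continuousAt_bb hw y)
  have c11 : ContinuousAt (fun p : ℂ × ℂ => gg L p.1 p.2 y) (z, w) := continuousAt_bil hz hw _
  have c12 := csnd (z := z) (continuousAt_gg_diag hw y)
  refine ext_two (F := fun p => phi L p.2 y ^ 2 * bb L p.1 y - phi L p.1 y * (phi L p.2 y * bb L p.2 y))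
    (G := fun p => RR L p.1 p.2 y) y (by fun_prop) ?_ hzw
    (fun z w h1 h2 h3 => second_gen hΔ h h1 h2 h3)
  simp only [RR]
  fun_prop

lemma third (hΔ : L.g₂ ^ 3 - 27 * L.g₃ ^ 2 ≠ 0) (h : Regular L y) (hw : w ∉ L.lattice) :
    phi L w y ^ 2 * AA L y = SS L w y := by
  have c2 := continuousAt_phi hw y
  have c4 := continuousAt_L1 hw y
  have c6 := continuousAt_L2 hw y
  have c10 := continuousAt_bb hw y
  have c12 := continuousAt_gg_diag hw y
  refine eq_of_eqOn_compl (f := fun w => phi L w y ^ 2 * AA L y) (g := fun w => SS L w y)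
    (countable_not_gen L y) (by fun_prop) ?_
    (.of_forall fun w hw => third_gen hΔ h (by simpa using hw))
  simp only [SS]
  fun_prop

end Pool.Agent.MP_88847a_mp.H86
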