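import Pool.Agent.MP_88847a_mp.H86.Phi

/-!
The logarithmic gradient of the Jacobian.
-/

open Filter Topology PeriodPair Complex

noncomputable section

namespace Pool.Agent.MP_88847a_mp.H86

variable {L : PeriodPair} {N : ℕ} {y : Fin N → ℂ} {z w : ℂ}

/-- the Jacobian matrix -/
def jmat (L : PeriodPair) (y : Fin N → ℂ) : Matrix (Fin N) (Fin N) ℂ :=
  Matrix.of fun k j => pd j (fun x => uMap L x k) y

lemma wmat_mul_jmat (h : Reg0 L y) :
    wmat L y * jmat L y = Matrix.diagonal fun i => - phi1 L (y i) y := by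
  ext i j
  have h1 : HL (fun x => phi L (x i) x) (∑ k : Fin N, (ek L (k + 1) (y i) * (Pi.single j 1 : Fin N → ℂ) i
      * uMap L y k + ek L k (y i) * pd j (fun x => uMap L x k) y) - 0) y (Pi.single j 1) :=
    (HL.sum _ fun (k : Fin N) _ => (HL.comp (F := fun x => x i) (hasDerivAt_ek k (h.1 i)) (HL_coord i y _)).mul
      (HL_dd (analyticAt_u h k).differentiableAt _)).sub (HL_const 1 _ _)
  have h2 : HL (fun x => phi L (x i) x) 0 y (Pi.single j 1) := by
    refine (HL_const 0 _ _).congr ?_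
    filter_upwards [h.eventually] with x hx using phi_self hx i
  have h3 := h1.unique h2
  rw [sub_zero, Finset.sum_add_distrib] at h3
  rw [Matrix.mul_apply, Matrix.diagonal_apply]
  simp only [wmat_apply, jmat, Matrix.of_apply]
  by_cases hij : i = j
  · subst hij
    simp only [Pi.single_eq_same, mul_one] at h3
    rw [if_pos rfl, phi1]
    linear_combination h3
  · simpa [hij, Pi.single_apply] using h3

lemma det_mul_jac (h : Reg0 L y) : (wmat L y).det * jac L y = ∏ i, - phi1 L (y i) y := by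
  rw [← Matrix.det_diagonal, ← wmat_mul_jmat h, Matrix.det_mul]
  rfl

/-- the cofactor of `σ(z - y_j)` in `φ(z)` -/
def Rr (L : PeriodPair) (j : Fin N) (z : ℂ) (y : Fin N → ℂ) : ℂ :=
  kap L y * (∏ m ∈ Finset.univ.erase j.castSucc, sigma L (z - ext y m)) / sigma L z ^ (N + 1)

lemma phi_eq_Rr (hΔ : L.g₂ ^ 3 - 27 * L.g₃ ^ 2 ≠ 0) (h : Reg0 L y) (hz : z ∉ L.lattice)
    (j : Fin N) : phi L z y = sigma L (z - y j) * Rr L j z y := by
  rw [(kap_spec hΔ h).2 z hz, Phi, Rr, ← Finset.mul_prod_erase _ _ (Finset.mem_univ j.castSucc),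
    ext_castSucc]
  ring

lemma sub_ext_notMem (h : Regular L y) (j : Fin N) {m : Fin (N + 1)}
    (hm : m ∈ Finset.univ.erase j.castSucc) : y j - ext y m ∉ L.lattice := by
  have := h.2.2 j.castSucc m (Finset.ne_of_mem_erase hm).symm
  rwa [ext_castSucc] at this

lemma rho_eq (L : PeriodPair) (y : Fin N → ℂ) (j : Fin N) : rho L (ext y) j.castSucc
    = ∑ m ∈ Finset.univ.erase j.castSucc, zeta L (y j - ext y m) := by
  rw [rho, Finset.sum_erase, ext_castSucc]
  rw [ext_castSucc, sub_self, zeta_zero]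

lemma hasDerivAt_Rr (h : Regular L y) (j : Fin N) : HasDerivAt (fun z => Rr L j z y)
    ((rho L (ext y) j.castSucc - ((N : ℂ) + 1) * zeta L (y j)) * Rr L j (y j) y) (y j) := by
  have h1 : HasDerivAt (fun z => ∏ m ∈ Finset.univ.erase j.castSucc, sigma L (z - ext y m))
      (rho L (ext y) j.castSucc * ∏ m ∈ Finset.univ.erase j.castSucc, sigma L (y j - ext y m))
      (y j) := by
    have := HasDerivAt.fun_finsetProd (u := Finset.univ.erase j.castSucc)
      (f := fun i z => sigma L (z - ext y i))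
      (f' := fun i => zeta L (y j - ext y i) * sigma L (y j - ext y i)) (x := y j)
      (fun i hi => (hasDerivAt_sigma (sub_ext_notMem h j hi)).comp_sub_const (y j) (ext y i))
    refine this.congr_deriv ?_
    rw [rho_eq, Finset.sum_mul]
    refine Finset.sum_congr rfl fun i hi => ?_
    rw [← Finset.prod_erase_mul _ _ hi, smul_eq_mul]; ring
  have h2 := (h1.const_mul (kap L y)).fun_div ((hasDerivAt_sigma (h.1 j)).fun_pow (N + 1))
    (pow_ne_zero _ (sigma_ne_zero (h.1 j)))
  refine h2.congr_deriv ?_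
  have := sigma_ne_zero (h.1 j)
  rw [Rr]
  push_cast
  field_simp
  ring

lemma hasDerivAt_sigma0_zero (L : PeriodPair) : HasDerivAt (sigma0 L) 0 0 := by
  simpa [zeta0_zero] using hasDerivAt_sigma0 L (z := 0) (by simp)

lemma hasDerivAt_sigma_zero (L : PeriodPair) : HasDerivAt (sigma L) 1 0 :=
  ((hasDerivAt_id' (0 : ℂ)).fun_mul (hasDerivAt_sigma0_zero L)).congr_deriv
    (by simp [sigma0_zero])

lemma phi1_self (hΔ : L.g₂ ^ 3 - 27 * L.g₃ ^ 2 ≠ 0) (h : Regular L y) (j : Fin N) :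
    phi1 L (y j) y = Rr L j (y j) y := by
  have h1 : (fun z => phi L z y) =ᶠ[𝓝 (y j)] fun z => sigma L (z - y j) * Rr L j z y := by
    filter_upwards [eventually_notMem_nhds (h.1 j)] with w hw using phi_eq_Rr hΔ h.reg0 hw j
  have h2 : HasDerivAt (fun z => sigma L (z - y j)) 1 (y j) := by
    have := hasDerivAt_sigma_zero L
    rw [← sub_self (y j)] at this
    exact this.comp_sub_const (y j) (y j)
  rw [(hasDerivAt_phi (h.1 j) y).unique
    ((h2.fun_mul (hasDerivAt_Rr h j)).congr_of_eventuallyEq h1)]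
  simp [sigma_zero]

lemma Rr_ne_zero (hΔ : L.g₂ ^ 3 - 27 * L.g₃ ^ 2 ≠ 0) (h : Regular L y) (j : Fin N) :
    Rr L j (y j) y ≠ 0 :=
  div_ne_zero (mul_ne_zero (kap_spec hΔ h.reg0).1 (Finset.prod_ne_zero_iff.2 fun _ hm =>
    sigma_ne_zero (sub_ext_notMem h j hm))) (pow_ne_zero _ (sigma_ne_zero (h.1 j)))

lemma jac_ne_zero (hΔ : L.g₂ ^ 3 - 27 * L.g₃ ^ 2 ≠ 0) (h : Regular L y) : jac L y ≠ 0 := by
  intro h0
  have := det_mul_jac h.reg0
  rw [h0, mul_zero, eq_comm, Finset.prod_eq_zero_iff] at this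
  obtain ⟨j, -, hj⟩ := this
  rw [phi1_self hΔ h] at hj
  exact Rr_ne_zero hΔ h j (neg_eq_zero.1 hj)

lemma analyticAt_jac (h : Reg0 L y) : AnalyticAt ℂ (jac L (N := N)) y :=
  analyticAt_det fun k _ => analyticAt_dd (analyticAt_u h k) _

lemma dd_phi_eq_sum (h : Reg0 L y) (z : ℂ) (v : Fin N → ℂ) :
    dd v (phi L z) y = ∑ k : Fin N, ek L k z * dd v (fun x => uMap L x k) y :=
  (((HL.sum _ fun k _ => (HL_dd (analyticAt_u h k).differentiableAt v).const_mul _).sub
    (HL_const 1 _ _)).dd_eq (analyticAt_phi h z).differentiableAt).trans (sub_zero _)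

lemma sum_ext_single (j : Fin N) (g : Fin (N + 1) → ℂ) :
    ∑ m, ext (Pi.single j (1 : ℂ) : Fin N → ℂ) m * g m = g j.castSucc - g (Fin.last N) := by
  rw [Fin.sum_univ_castSucc]
  simp [ext_castSucc, ext_last, Pi.single_apply, sub_eq_add_neg]

lemma psi_deriv (hΔ : L.g₂ ^ 3 - 27 * L.g₃ ^ 2 ≠ 0) (h : Regular L y) (j : Fin N) :
    ∑ k : Fin N, ek L (k + 1) (y j) * jmat L y k j = Rr L j (y j) y *
      (- rho L (ext y) j.castSucc + ((N : ℂ) + 1) * zeta L (y j)
        + zeta L (y j - ext y (Fin.last N)) + cc L (Pi.single j 1) y) := by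
  set ψ : ℂ → ℂ := fun z => ∑ k : Fin N, ek L k z * jmat L y k j with hψ
  set c := cc L (Pi.single j 1) y
  set g : ℂ → ℂ := fun z => sigma0 L (z - y j) * Rr L j z y * (-(1 + (z - y j) * zeta0 L (z - y j))
    + (z - y j) * (zeta L (z - ext y (Fin.last N)) + c)) with hg
  have hlast : y j - ext y (Fin.last N) ∉ L.lattice :=
    sub_ext_notMem h j (by simp [(Fin.castSucc_ne_last j).symm])
  have hψd : HasDerivAt ψ (∑ k : Fin N, ek L (k + 1) (y j) * jmat L y k j) (y j) :=
    HasDerivAt.fun_sum fun (k : Fin N) _ => (hasDerivAt_ek k (h.1 j)).mul_const _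
  have hs0 : HasDerivAt (fun z => sigma0 L (z - y j)) 0 (y j) := by
    have := hasDerivAt_sigma0_zero L
    nth_rewrite 2 [← sub_self (y j)] at this
    exact this.comp_sub_const (y j) (y j)
  have hz0 : HasDerivAt (fun z => zeta0 L (z - y j)) (-L.weierstrassPExcept 0 0) (y j) := by
    have := hasDerivAt_zeta0 L (z := 0) (by simp)
    nth_rewrite 3 [← sub_self (y j)] at this
    exact this.comp_sub_const (y j) (y j)
  have hid : HasDerivAt (fun z => z - y j) 1 (y j) := (hasDerivAt_id' _).sub_const _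
  have hzl := ((hasDerivAt_zeta hlast).comp_sub_const (y j) (ext y (Fin.last N))).add_const c
  have hgd := (hs0.fun_mul (hasDerivAt_Rr h j)).fun_mul
    (((hid.fun_mul hz0).const_add 1).fun_neg.fun_add (hid.fun_mul hzl))
  have he : ψ =ᶠ[𝓝[≠] (y j)] g := by
    filter_upwards [self_mem_nhdsWithin, eventually_notMem_nhdsNE L (y j),
      eventually_all.2 fun i => eventually_sub_notMem L (y j) (ext y i)] with z h1 h2 h3
    have h4 : z - y j ≠ 0 := sub_ne_zero.2 h1
    have h5 := dd_phi hΔ h.reg0 ⟨h2, h3⟩ (Pi.single j 1)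
    rw [dd_phi_eq_sum h.reg0, sum_ext_single, phi_eq_Rr hΔ h.reg0 h2 j, ext_castSucc] at h5
    refine h5.trans ?_
    simp only [hg, sigma, zeta, c]
    field_simp
    ring
  have he' : ψ =ᶠ[𝓝 (y j)] g := by
    have h0 := eq_of_nhdsNE hψd.continuousAt hgd.continuousAt he
    filter_upwards [eventually_nhdsWithin_iff.1 he] with z hz
    by_cases hzj : z = y j
    · rw [hzj]; exact h0
    · exact hz hzj
  rw [hψd.unique (hgd.congr_of_eventuallyEq he')]
  simp [sigma0_zero, zeta0_zero]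
  ring

lemma det_updateRow_eq (M : Matrix (Fin N) (Fin N) ℂ) (j : Fin N) (r : Fin N → ℂ) :
    (M.updateRow j r).det = ∑ k, r k * M.adjugate k j := by
  rw [← Matrix.cramer_transpose_apply, Matrix.cramer_eq_adjugate_mulVec,
    ← Matrix.adjugate_transpose]
  simp [Matrix.mulVec, dotProduct, mul_comm]

lemma pd_det (hΔ : L.g₂ ^ 3 - 27 * L.g₃ ^ 2 ≠ 0) (h : Regular L y) (j : Fin N) :
    pd j (fun x => (wmat L x).det) y = (wmat L y).det *
      (rho L (ext y) j.castSucc - ((N : ℂ) + 1) * zeta L (y j)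
        - zeta L (y j - ext y (Fin.last N)) - cc L (Pi.single j 1) y) := by
  have h1 : HL (fun x => (wmat L x).det)
      (∑ k : Fin N, ek L (k + 1) (y j) * (wmat L y).adjugate k j) y (Pi.single j 1) := by
    have h2 : (fun t : ℂ => (wmat L (y + t • (Pi.single j 1 : Fin N → ℂ))).det)
        = fun t => ∑ k : Fin N, ek L k (y j + t) * (wmat L y).adjugate k j := by
      ext t
      rw [← det_updateRow_eq]
      congr 1
      ext i k
      rw [Matrix.updateRow_apply, wmat_apply, wmat_apply]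
      by_cases hij : i = j
      · subst hij; simp
      · simp [hij]
    rw [HL, h2]
    refine HasDerivAt.fun_sum fun (k : Fin N) _ => HasDerivAt.mul_const ?_ _
    have := hasDerivAt_ek k (h.1 j)
    nth_rewrite 2 [← add_zero (y j)] at this
    exact this.comp_const_add (y j) 0
  rw [pd_eq_dd, h1.dd_eq (analyticAt_det (analyticAt_wmat h.1)).differentiableAt]
  have h3 : ∀ k, (wmat L y).adjugate k j * Rr L j (y j) y = - (wmat L y).det * jmat L y k j := by
    intro k
    have h4 : (wmat L y).adjugate * (wmat L y * jmat L y) = (wmat L y).det • jmat L y := by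
      rw [← Matrix.mul_assoc, Matrix.adjugate_mul, Matrix.smul_mul, Matrix.one_mul]
    rw [wmat_mul_jmat h.reg0] at h4
    have h5 := congrFun (congrFun h4 k) j
    rw [Matrix.mul_diagonal, phi1_self hΔ h] at h5
    simp only [Matrix.smul_apply, smul_eq_mul] at h5
    linear_combination -h5
  apply mul_right_cancel₀ (Rr_ne_zero hΔ h j)
  have h6 := psi_deriv hΔ h j
  rw [Finset.sum_mul]
  simp only [mul_assoc, h3]
  rw [Finset.sum_congr rfl fun (k : Fin N) _ => show ek L (k + 1) (y j) * (-(wmat L y).det * jmat L y k j)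
    = -(wmat L y).det * (ek L (k + 1) (y j) * jmat L y k j) by ring, ← Finset.mul_sum, h6]
  ring

lemma cc_eq_sum (L : PeriodPair) (v y : Fin N → ℂ) :
    cc L v y = ∑ j, v j * cc L (Pi.single j 1) y := by
  simp only [cc, ← mul_div_assoc, ← Finset.sum_div]
  rw [dd_eq_sum]
  rfl

lemma HL_Rr_self (hΔ : L.g₂ ^ 3 - 27 * L.g₃ ^ 2 ≠ 0) (h : Regular L y) (j : Fin N)
    (v : Fin N → ℂ) : HL (fun x => - Rr L j (x j) x)
      ((cc L v y + (∑ m, zeta L (y j - ext y m) * (v j - ext v m))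
        - ((N : ℂ) + 1) * zeta L (y j) * v j) * - Rr L j (y j) y) y v := by
  have h1 := HL.prod (Finset.univ.erase j.castSucc) (F := fun m x => sigma L (x j - ext x m))
    (fun m hm => HL_sigma ((HL_coord j y v).sub (HL_ext m y v)) (sub_ext_notMem h j hm))
  have h2 : HL (fun x => (sigma L (x j) ^ (N + 1))⁻¹)
      (-(((N : ℂ) + 1) * zeta L (y j) * v j) * (sigma L (y j) ^ (N + 1))⁻¹) y v := by
    have h3 := ((hasDerivAt_sigma (h.1 j)).fun_pow (N + 1)).fun_inv
      (pow_ne_zero _ (sigma_ne_zero (h.1 j)))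
    refine (HL.comp (F := fun x => x j) h3 (HL_coord j y v)).congr_val ?_
    have := sigma_ne_zero (h.1 j)
    push_cast
    field_simp
    ring
  refine (((HL_kap hΔ h.reg0 v).mul h1).mul h2).neg.congr_val ?_
  rw [Finset.sum_erase _ (by rw [ext_castSucc, ext_castSucc]; simp), Rr]
  ring

/-- the logarithmic gradient of the Jacobian -/
def lam (L : PeriodPair) (i : Fin (N + 1)) (y : Fin N → ℂ) : ℂ :=
  rho L (ext y) i + ((N : ℂ) + 1) * cc L (vv i) y

lemma dd_jac (hΔ : L.g₂ ^ 3 - 27 * L.g₃ ^ 2 ≠ 0) (h : Regular L y) (v : Fin N → ℂ) :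
    dd v (jac L) y = (((N : ℂ) + 1) * cc L v y + ∑ m, ext v m * rho L (ext y) m) * jac L y := by
  have hdet := analyticAt_det (analyticAt_wmat h.1)
  have hjac := analyticAt_jac h.reg0
  have h1 := (HL_dd hdet.differentiableAt v).mul (HL_dd hjac.differentiableAt v)
  have h2 := HL.prod Finset.univ fun j _ => HL_Rr_self hΔ h j v
  have h3 : (fun x => (wmat L x).det * jac L x) =ᶠ[𝓝 y] fun x => ∏ j, - Rr L j (x j) x := by
    filter_upwards [h.eventually] with x hx
    rw [det_mul_jac hx.reg0]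
    simp only [phi1_self hΔ hx]
  have h4 := h1.unique (h2.congr h3)
  rw [← h3.eq_of_nhds, dd_eq_sum] at h4
  simp only [pd_det hΔ h] at h4
  apply mul_left_cancel₀ h.2.1
  have h5 : ∑ j, v j * ((wmat L y).det * (rho L (ext y) j.castSucc - ((N : ℂ) + 1) * zeta L (y j)
      - zeta L (y j - ext y (Fin.last N)) - cc L (Pi.single j 1) y))
      = (wmat L y).det * (∑ j, v j * rho L (ext y) j.castSucc
        - ∑ j, ((N : ℂ) + 1) * zeta L (y j) * v j
        - ∑ j, v j * zeta L (y j - ext y (Fin.last N)) - cc L v y) := by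
    rw [cc_eq_sum L v y]
    simp only [← Finset.sum_sub_distrib, Finset.mul_sum]
    exact Finset.sum_congr rfl fun j _ => by ring
  have h6 : ∑ j, ∑ m, zeta L (y j - ext y m) * (v j - ext v m)
      = ∑ j, v j * rho L (ext y) j.castSucc + ∑ m, ext v m * rho L (ext y) m
        - ∑ j, v j * zeta L (y j - ext y (Fin.last N)) := by
    have e1 : ∑ j, ∑ m, zeta L (y j - ext y m) * v j = ∑ j, v j * rho L (ext y) j.castSucc := by
      refine Finset.sum_congr rfl fun j _ => ?_
      rw [rho, ext_castSucc, Finset.mul_sum]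
      exact Finset.sum_congr rfl fun m _ => by ring
    have e2 : ∀ m, ∑ j, zeta L (y j - ext y m)
        = - rho L (ext y) m + zeta L (ext y m - ext y (Fin.last N)) := by
      intro m
      rw [rho, Fin.sum_univ_castSucc]
      simp only [ext_castSucc, zeta_sub_comm L (y _) (ext y m), Finset.sum_neg_distrib]
      ring
    have e3 : ∑ m, ext v m * zeta L (ext y m - ext y (Fin.last N))
        = ∑ j, v j * zeta L (y j - ext y (Fin.last N)) := by
      rw [Fin.sum_univ_castSucc]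
      simp [ext_castSucc, zeta_zero]
    simp only [mul_sub, Finset.sum_sub_distrib, e1]
    rw [Finset.sum_comm]
    simp only [← Finset.sum_mul, e2, add_mul, Finset.sum_add_distrib, ← e3, neg_mul,
      Finset.sum_neg_distrib, mul_comm (ext v _)]
    ring
  rw [h5] at h4
  simp only [Finset.sum_add_distrib, Finset.sum_sub_distrib, h6, Finset.sum_const,
    Finset.card_univ, Fintype.card_fin, nsmul_eq_mul] at h4
  linear_combination h4

lemma D_jac (hΔ : L.g₂ ^ 3 - 27 * L.g₃ ^ 2 ≠ 0) (h : Regular L y) (i : Fin (N + 1)) :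
    dd (vv i) (jac L) y = lam L i y * jac L y := by
  rw [dd_jac hΔ h, sum_ext_vv, sum_rho, lam]; ring

variable {ℓ : (Fin N → ℂ) → ℂ}

lemma D_log (hΔ : L.g₂ ^ 3 - 27 * L.g₃ ^ 2 ≠ 0) (h : Regular L y) (hℓ : AnalyticAt ℂ ℓ y)
    (he : ∀ᶠ x in 𝓝 y, cexp (ℓ x) = jac L x) (i : Fin (N + 1)) :
    dd (vv i) ℓ y = lam L i y := by
  have h1 := dd_exp hℓ 1 (vv i)
  simp only [one_mul] at h1
  rw [dd_congr_at he, D_jac hΔ h, he.self_of_nhds, mul_comm] at h1
  exact (mul_left_cancel₀ (jac_ne_zero hΔ h) h1).symm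

lemma HL_rho (h : Regular L y) (i : Fin (N + 1)) :
    HL (fun x => rho L (ext x) i) (-∑ j, ℘[L] (ext y i - ext y j)) y (vv i) := by
  rw [← Finset.sum_neg_distrib]
  refine HL.sum _ fun j _ => ?_
  by_cases hij : i = j
  · subst hij
    simpa [zeta_zero] using HL_const 0 y (vv i)
  · refine (HL_zeta ((HL_ext i y _).sub (HL_ext j y _)) (h.2.2 i j hij)).congr_val ?_
    rw [ext_vv, ext_vv, if_pos rfl, if_neg hij]; ring

lemma Lap_log (hΔ : L.g₂ ^ 3 - 27 * L.g₃ ^ 2 ≠ 0) (h : Regular L y) (hℓ : AnalyticAt ℂ ℓ y)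
    (he : ∀ᶠ x in 𝓝 y, cexp (ℓ x) = jac L x) :
    Lap ℓ y = - Vs L (ext y) + ((N : ℂ) + 1) * dvc L y := by
  rw [Lap, Vs, dvc, Finset.mul_sum, ← Finset.sum_neg_distrib, ← Finset.sum_add_distrib]
  refine Finset.sum_congr rfl fun i _ => ?_
  have h1 : dd (vv i) ℓ =ᶠ[𝓝 y] lam L i := by
    filter_upwards [h.eventually, hℓ.eventually_analyticAt, he.eventually_nhds] with x h1 h2 h3
    exact D_log hΔ h1 h2 h3 i
  exact (((HL_rho h i).add ((HL_dd (analyticAt_cc hΔ h.reg0 _).differentiableAt _).const_mul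
    _)).congr h1).dd_eq (analyticAt_dd hℓ _).differentiableAt

lemma exists_log (hΔ : L.g₂ ^ 3 - 27 * L.g₃ ^ 2 ≠ 0) (h : Regular L y) :
    ∃ ℓ : (Fin N → ℂ) → ℂ, AnalyticAt ℂ ℓ y ∧ ∀ᶠ x in 𝓝 y, cexp (ℓ x) = jac L x := by
  have h0 := jac_ne_zero hΔ h
  have h1 : AnalyticAt ℂ (fun x => jac L x / jac L y) y := (analyticAt_jac h.reg0).div_const
  refine ⟨fun x => log (jac L x / jac L y) + log (jac L y), ?_, ?_⟩
  · refine (h1.clog ?_).add analyticAt_const
    simp [div_self h0]
  · filter_upwards [(analyticAt_jac h.reg0).continuousAt.eventually_ne h0] with x hx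
    rw [exp_add, exp_log (div_ne_zero hx h0), exp_log h0, div_mul_cancel₀ _ h0]

end Pool.Agent.MP_88847a_mp.H86
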