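import Pool.Agent.MP_88847a_mp.H86.Poly

/-!
The potential itself is not a polynomial in `u`.
-/

open Filter Topology PeriodPair Complex MvPolynomial

noncomputable section

namespace Pool.Agent.MP_88847a_mp.H86

variable {L : PeriodPair} {N : ℕ}

lemma tendsto_mul_nhdsNE {a : ℂ} (ha : a ≠ 0) :
    Tendsto (fun t : ℂ => t * a) (𝓝[≠] 0) (𝓝[≠] 0) := by
  refine tendsto_nhdsWithin_iff.2 ⟨?_, ?_⟩
  · have : Continuous fun t : ℂ => t * a := by fun_prop
    simpa using (this.tendsto 0).mono_left nhdsWithin_le_nhds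
  · filter_upwards [self_mem_nhdsWithin] with t ht
    exact mul_ne_zero ht ha

/-- the direction of degeneration -/
def wdir (N : ℕ) : Fin N → ℝ := fun i => (i : ℝ) + 1

/-- its extension -/
def wext (N : ℕ) : Fin (N + 1) → ℝ := Fin.snoc (wdir N) (-∑ i, wdir N i)

lemma wdir_pos (i : Fin N) : 0 < wdir N i := by unfold wdir; positivity

lemma wdir_inj : Function.Injective (wdir N) := by
  intro i j h
  simp only [wdir, add_left_inj, Nat.cast_inj] at h
  exact Fin.ext h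

lemma wext_inj : Function.Injective (wext N) := by
  have hs : 0 ≤ ∑ i, wdir N i := Finset.sum_nonneg fun i _ => (wdir_pos i).le
  intro i j
  refine Fin.lastCases ?_ (fun i => ?_) i <;> refine Fin.lastCases ?_ (fun j => ?_) j
  · simp
  · simp only [wext, Fin.snoc_last, Fin.snoc_castSucc]
    intro h; have := wdir_pos j; linarith
  · simp only [wext, Fin.snoc_last, Fin.snoc_castSucc]
    intro h; have := wdir_pos i; linarith
  · simp only [wext, Fin.snoc_castSucc]
    intro h; rw [wdir_inj h]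

lemma ext_path (t : ℂ) (i : Fin (N + 1)) :
    ext (fun j => t * (wdir N j : ℂ)) i = t * (wext N i : ℂ) := by
  refine Fin.lastCases ?_ (fun i => ?_) i
  · simp [ext_last, wext, Finset.mul_sum]
  · simp [ext_castSucc, wext]

lemma tendsto_scaled_ek (L : PeriodPair) (k : ℕ) {a : ℂ} (ha : a ≠ 0) :
    Tendsto (fun t => ek L k (t * a) * t ^ (k + 2)) (𝓝[≠] 0)
      (𝓝 ((a⁻¹) ^ 2 * (a⁻¹) ^ k * ((-1) ^ k * (k + 1).factorial))) := by
  obtain ⟨g, hg, hg0, he⟩ := ek_pole L k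
  have h1 := ((hg.continuousAt.tendsto.mono_left nhdsWithin_le_nhds).comp
    (tendsto_mul_nhdsNE ha)).const_mul ((a⁻¹) ^ 2 * (a⁻¹) ^ k)
  rw [hg0] at h1
  refine h1.congr' ?_
  filter_upwards [(tendsto_mul_nhdsNE ha).eventually he, self_mem_nhdsWithin] with t ht ht0
  have : t ≠ 0 := ht0
  simp only [Function.comp_apply]
  rw [ht, inv_pow, inv_pow]
  field_simp
  ring

lemma not_isPol_V (hN : 0 < N) : ¬ IsPol L fun y : Fin N → ℂ => Vs L (ext y) := by
  rintro ⟨p, hp⟩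
  set yt : ℂ → Fin N → ℂ := fun t j => t * (wdir N j : ℂ) with hyt
  have hw0 : ∀ i, (wdir N i : ℂ) ≠ 0 := fun i => by exact_mod_cast (wdir_pos i).ne'
  set Mt : ℂ → Matrix (Fin N) (Fin N) ℂ :=
    fun t => wmat L (yt t) * Matrix.diagonal fun k : Fin N => t ^ ((k : ℕ) + 2) with hMt
  set M0 : Matrix (Fin N) (Fin N) ℂ := Matrix.diagonal (fun i => ((wdir N i : ℂ)⁻¹) ^ 2)
    * Matrix.vandermonde (fun i => (wdir N i : ℂ)⁻¹)
    * Matrix.diagonal (fun k : Fin N => ((-1 : ℂ) ^ (k : ℕ) * ((k : ℕ) + 1).factorial)) with hM0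
  have hdet0 : M0.det ≠ 0 := by
    rw [hM0, Matrix.det_mul, Matrix.det_mul, Matrix.det_diagonal, Matrix.det_diagonal]
    refine mul_ne_zero (mul_ne_zero ?_ ?_) ?_
    · exact Finset.prod_ne_zero_iff.2 fun i _ => pow_ne_zero _ (inv_ne_zero (hw0 i))
    · refine Matrix.det_vandermonde_ne_zero_iff.2 fun i j hij => wdir_inj ?_
      exact_mod_cast inv_injective hij
    · exact Finset.prod_ne_zero_iff.2 fun k _ =>
        mul_ne_zero (by simp) (by exact_mod_cast Nat.factorial_ne_zero _)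
  have hM : Tendsto Mt (𝓝[≠] 0) (𝓝 M0) := by
    refine tendsto_pi_nhds.2 fun i => tendsto_pi_nhds.2 fun k => ?_
    simp only [hMt, hM0, Matrix.mul_diagonal, Matrix.diagonal_mul, Matrix.vandermonde_apply,
      wmat_apply, hyt]
    exact tendsto_scaled_ek L k (hw0 i)
  have hdet : ∀ᶠ t in 𝓝[≠] 0, (Mt t).det ≠ 0 :=
    ((continuous_id.matrix_det.tendsto M0).comp hM).eventually_ne hdet0
  have hreg : ∀ᶠ t in 𝓝[≠] 0, Regular L (yt t) := by
    have h1 : ∀ᶠ t in 𝓝[≠] 0, ∀ i, yt t i ∉ L.lattice := eventually_all.2 fun i =>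
      (tendsto_mul_nhdsNE (hw0 i)).eventually (eventually_notMem_nhdsNE L 0)
    have h2 : ∀ᶠ t in 𝓝[≠] 0, ∀ i j, i ≠ j → ext (yt t) i - ext (yt t) j ∉ L.lattice := by
      refine eventually_all.2 fun i => eventually_all.2 fun j => ?_
      by_cases hij : i = j
      · simp [hij]
      · have : (wext N i : ℂ) - wext N j ≠ 0 := by
          rw [sub_ne_zero]; exact_mod_cast wext_inj.ne hij
        filter_upwards [(tendsto_mul_nhdsNE this).eventually (eventually_notMem_nhdsNE L 0)]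
          with t ht _
        rwa [hyt, ext_path, ext_path, ← mul_sub]
    filter_upwards [h1, h2, hdet] with t h1 h2 h3
    refine ⟨h1, fun h0 => h3 ?_, h2⟩
    simp only [hMt, Matrix.det_mul, h0, zero_mul]
  have hinv : Tendsto (fun t => (Mt t)⁻¹) (𝓝[≠] 0) (𝓝 M0⁻¹) := by
    refine (continuousAt_matrix_inv M0 ?_).tendsto.comp hM
    rw [Ring.inverse_eq_inv']
    exact continuousAt_inv₀ hdet0
  have ht0 : Tendsto (fun t : ℂ => t) (𝓝[≠] 0) (𝓝 0) := tendsto_id.mono_left nhdsWithin_le_nhds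
  have hu : Tendsto (fun t => uMap L (yt t)) (𝓝[≠] 0) (𝓝 0) := by
    refine tendsto_pi_nhds.2 fun k => ?_
    have h1 : Tendsto (fun t => t ^ ((k : ℕ) + 2) * ∑ j, (Mt t)⁻¹ k j) (𝓝[≠] 0)
        (𝓝 (0 ^ ((k : ℕ) + 2) * ∑ j, M0⁻¹ k j)) :=
      (ht0.pow _).mul (tendsto_finsetSum _ fun j _ =>
        tendsto_pi_nhds.1 (tendsto_pi_nhds.1 hinv k) j)
    simp only [ne_eq, Nat.add_eq_zero_iff, OfNat.ofNat_ne_zero, and_false, not_false_eq_true,
      zero_pow, zero_mul] at h1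
    refine h1.congr' ?_
    filter_upwards [hreg, hdet] with t h1 h2
    have h3 : uMap L (yt t) = (Matrix.diagonal fun k : Fin N => t ^ ((k : ℕ) + 2)).mulVec
        ((Mt t)⁻¹.mulVec fun _ => 1) := by
      rw [← sub_eq_zero]
      refine Matrix.eq_zero_of_mulVec_eq_zero h1.2.1 ?_
      rw [Matrix.mulVec_sub, mulVec_uMap h1.reg0, Matrix.mulVec_mulVec, Matrix.mulVec_mulVec,
        Matrix.mul_nonsing_inv _ (isUnit_iff_ne_zero.2 h2), Matrix.one_mulVec, sub_self]
    rw [h3, Matrix.mulVec_diagonal]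
    simp [Matrix.mulVec, dotProduct]
  have hV : Tendsto (fun t => t ^ 2 * Vs L (ext (yt t))) (𝓝[≠] 0)
      (𝓝 (∑ i, ∑ j, (((wext N i - wext N j)⁻¹ ^ 2 : ℝ) : ℂ))) := by
    simp only [Vs, Finset.mul_sum]
    refine tendsto_finsetSum _ fun i _ => tendsto_finsetSum _ fun j _ => ?_
    by_cases hij : i = j
    · simp [hij]
    · have : (wext N i : ℂ) - wext N j ≠ 0 := by
        rw [sub_ne_zero]; exact_mod_cast wext_inj.ne hij
      have h1 := tendsto_scaled_ek L 0 this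
      simp only [ek, iteratedDeriv_zero, zero_add, pow_zero, mul_one, Nat.factorial_one,
        Nat.cast_one] at h1
      simp only [hyt, ext_path, ← mul_sub, mul_comm (_ ^ 2)]
      push_cast
      exact h1
  have hV0 : Tendsto (fun t => t ^ 2 * Vs L (ext (yt t))) (𝓝[≠] 0) (𝓝 (0 ^ 2 * eval 0 p)) := by
    refine ((ht0.pow 2).mul (((MvPolynomial.continuous_eval p).tendsto 0).comp hu)).congr' ?_
    filter_upwards [hreg] with t ht
    simp only [Function.comp_apply]
    rw [← hp _ ht]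
  have h0 := tendsto_nhds_unique hV hV0
  simp only [ne_eq, OfNat.ofNat_ne_zero, not_false_eq_true, zero_pow, zero_mul] at h0
  have h1 : ∑ i, ∑ j, (wext N i - wext N j)⁻¹ ^ 2 = 0 := by exact_mod_cast h0
  rw [Finset.sum_eq_zero_iff_of_nonneg fun i _ => Finset.sum_nonneg fun j _ => sq_nonneg _] at h1
  have h2 := h1 (Fin.last N) (Finset.mem_univ _)
  rw [Finset.sum_eq_zero_iff_of_nonneg fun j _ => sq_nonneg _] at h2
  have h3 := h2 (Fin.castSucc ⟨0, hN⟩) (Finset.mem_univ _)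
  rw [pow_eq_zero_iff two_ne_zero, inv_eq_zero, sub_eq_zero] at h3
  exact Fin.castSucc_ne_last _ (wext_inj h3).symm

theorem main (hΔ : L.g₂ ^ 3 - 27 * L.g₃ ^ 2 ≠ 0) (hN : 0 < N) (β γ : ℂ) :
    HasPolyForm L N β γ ↔ γ * (γ - 1) = β * (β - 1) := by
  rw [hasPolyForm_iff hΔ]
  constructor
  · intro h
    by_contra hne
    have h1 : β * (β - 1) - γ * (γ - 1) ≠ 0 := sub_ne_zero.2 (Ne.symm hne)
    exact not_isPol_V hN ((h.cmul (β * (β - 1) - γ * (γ - 1))⁻¹).congr fun y _ => by field_simp)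
  · intro h
    exact (isPol_const 0).congr fun y _ => by rw [h]; ring

end Pool.Agent.MP_88847a_mp.H86
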