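import Pool.Agent.MP_88847a_mp.H86.Calc

/-!
The generating function `φ(z) = ∑ u_k ℘^{(k)}(z) - 1` and its product formula.
-/

open Filter Topology PeriodPair Complex

noncomputable section

namespace Pool.Agent.MP_88847a_mp.H86

variable {L : PeriodPair} {N : ℕ} {y : Fin N → ℂ} {z w : ℂ}

/-- the domain of the change of variables -/
def Reg0 (L : PeriodPair) (y : Fin N → ℂ) : Prop :=
  (∀ i, y i ∉ L.lattice) ∧ (wmat L y).det ≠ 0

lemma Regular.reg0 (h : Regular L y) : Reg0 L y := ⟨h.1, h.2.1⟩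

lemma analyticAt_det {M : (Fin N → ℂ) → Matrix (Fin N) (Fin N) ℂ}
    (h : ∀ i j, AnalyticAt ℂ (fun x => M x i j) y) : AnalyticAt ℂ (fun x => (M x).det) y := by
  simp only [Matrix.det_apply']
  exact Finset.analyticAt_fun_sum _ fun σ _ =>
    analyticAt_const.mul (Finset.analyticAt_fun_prod _ fun i _ => h _ _)

lemma wmat_apply (y : Fin N → ℂ) (i k : Fin N) : wmat L y i k = ek L k (y i) := rfl

lemma analyticAt_wmat (hy : ∀ i, y i ∉ L.lattice) (i k : Fin N) :
    AnalyticAt ℂ (fun x => wmat L x i k) y :=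
  AnalyticAt.comp (g := ek L k) (f := fun x : Fin N → ℂ => x i) (analyticAt_ek k (hy i))
    (analyticAt_coord i y)

lemma eventually_notMem_comp {F : (Fin N → ℂ) → ℂ} (hF : AnalyticAt ℂ F y)
    (h : F y ∉ L.lattice) : ∀ᶠ x in 𝓝 y, F x ∉ L.lattice :=
  hF.continuousAt.eventually (eventually_notMem_nhds h)

lemma Reg0.eventually (h : Reg0 L y) : ∀ᶠ x in 𝓝 y, Reg0 L x := by
  refine Eventually.and (eventually_all.2 fun i => ?_) ?_
  · exact eventually_notMem_comp (analyticAt_coord i y) (h.1 i)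
  · exact (analyticAt_det (analyticAt_wmat h.1)).continuousAt.eventually_ne h.2

lemma Regular.eventually (h : Regular L y) : ∀ᶠ x in 𝓝 y, Regular L x := by
  have h2 : ∀ᶠ x in 𝓝 y, ∀ i j, i ≠ j → ext x i - ext x j ∉ L.lattice := by
    refine eventually_all.2 fun i => eventually_all.2 fun j => ?_
    by_cases hij : i = j
    · simp [hij]
    · filter_upwards [eventually_notMem_comp ((analyticAt_ext i y).fun_sub (analyticAt_ext j y))
        (h.2.2 i j hij)] with x hx _ using hx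
  filter_upwards [h.reg0.eventually, h2] with x h1 h2 using ⟨h1.1, h1.2, h2⟩

lemma mulVec_uMap (h : Reg0 L y) : (wmat L y).mulVec (uMap L y) = fun _ => 1 := by
  rw [uMap, Matrix.mulVec_mulVec, Matrix.mul_nonsing_inv _ (isUnit_iff_ne_zero.2 h.2),
    Matrix.one_mulVec]

lemma analyticAt_u (h : Reg0 L y) (k : Fin N) : AnalyticAt ℂ (fun x => uMap L x k) y := by
  have h1 : AnalyticAt ℂ (fun x => ((wmat L x).updateCol k fun _ => 1).det / (wmat L x).det) y := by
    refine (analyticAt_det fun i j => ?_).div (analyticAt_det (analyticAt_wmat h.1)) h.2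
    simp only [Matrix.updateCol_apply]
    split_ifs
    · exact analyticAt_const
    · exact analyticAt_wmat h.1 i j
  refine h1.congr ?_
  filter_upwards [h.eventually] with x hx
  have := congrFun (Matrix.det_smul_inv_mulVec_eq_cramer (wmat L x) (fun _ => 1)
    (isUnit_iff_ne_zero.2 hx.2)) k
  rw [Matrix.cramer_apply] at this
  rw [← this, div_eq_iff hx.2, mul_comm]
  rfl

lemma analyticAt_uMap (h : Reg0 L y) : AnalyticAt ℂ (uMap L (N := N)) y :=
  analyticAt_pi_iff.2 (analyticAt_u h)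

/-- the generating function -/
def phi (L : PeriodPair) (z : ℂ) (y : Fin N → ℂ) : ℂ := ∑ k : Fin N, ek L k z * uMap L y k - 1
/-- its first `z`-derivative -/
def phi1 (L : PeriodPair) (z : ℂ) (y : Fin N → ℂ) : ℂ := ∑ k : Fin N, ek L (k + 1) z * uMap L y k
/-- its second `z`-derivative -/
def phi2 (L : PeriodPair) (z : ℂ) (y : Fin N → ℂ) : ℂ :=
  ∑ k : Fin N, ek L (k + 1 + 1) z * uMap L y k
/-- the sigma quotient -/
def Phi (L : PeriodPair) (z : ℂ) (y : Fin N → ℂ) : ℂ :=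
  (∏ i, sigma L (z - ext y i)) / sigma L z ^ (N + 1)

lemma phi_self (h : Reg0 L y) (i : Fin N) : phi L (y i) y = 0 :=
  sub_eq_zero.2 (congrFun (mulVec_uMap h) i)

lemma hasDerivAt_phi (hz : z ∉ L.lattice) (y : Fin N → ℂ) :
    HasDerivAt (fun z => phi L z y) (phi1 L z y) z :=
  (HasDerivAt.fun_sum fun (k : Fin N) _ => (hasDerivAt_ek k hz).mul_const _).sub_const 1

lemma hasDerivAt_phi1 (hz : z ∉ L.lattice) (y : Fin N → ℂ) :
    HasDerivAt (fun z => phi1 L z y) (phi2 L z y) z :=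
  HasDerivAt.fun_sum fun (k : Fin N) _ => (hasDerivAt_ek (k + 1) hz).mul_const _

lemma analyticAt_phi (h : Reg0 L y) (z : ℂ) : AnalyticAt ℂ (phi L z (N := N)) y :=
  (Finset.analyticAt_fun_sum _ fun k _ => analyticAt_const.mul (analyticAt_u h k)).sub
    analyticAt_const

/-- `z` is generic for `y` -/
def Gen (L : PeriodPair) (z : ℂ) (y : Fin N → ℂ) : Prop :=
  z ∉ L.lattice ∧ ∀ i, z - ext y i ∉ L.lattice

lemma countable_shift (L : PeriodPair) (a : ℂ) : {z | z - a ∈ L.lattice}.Countable := by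
  refine ((countable_lattice L).image (fun l => l + a)).mono fun z hz => ?_
  exact ⟨z - a, hz, by simp⟩

lemma countable_not_gen (L : PeriodPair) (y : Fin N → ℂ) : {z | ¬ Gen L z y}.Countable := by
  refine ((countable_lattice L).union
    (Set.countable_iUnion fun i => countable_shift L (ext y i))).mono fun z hz => ?_
  by_contra hcon
  simp only [Set.mem_union, SetLike.mem_coe, Set.mem_iUnion, Set.mem_ofPred_eq, not_or,
    not_exists] at hcon
  exact hz ⟨hcon.1, hcon.2⟩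

lemma exists_gen (L : PeriodPair) (y : Fin N → ℂ) : ∃ z, Gen L z y := by
  obtain ⟨z, hz⟩ := ((countable_not_gen L y).dense_compl ℂ).nonempty
  exact ⟨z, by simpa using hz⟩

lemma Gen.eventually (h : Gen L z y) : ∀ᶠ x in 𝓝 y, Gen L z x := by
  have : ∀ᶠ x in 𝓝 y, ∀ i, z - ext x i ∉ L.lattice := eventually_all.2 fun i =>
    eventually_notMem_comp (analyticAt_const.fun_sub (analyticAt_ext i y)) (h.2 i)
  filter_upwards [this] with x hx using ⟨h.1, hx⟩

lemma Gen.eventually_z (h : Gen L z y) : ∀ᶠ w in 𝓝 z, Gen L w y := by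
  refine (eventually_notMem_nhds h.1).and (eventually_all.2 fun i => ?_)
  exact (by fun_prop : ContinuousAt (fun w => w - ext y i) z).eventually
    (eventually_notMem_nhds (h.2 i))

lemma Phi_ne_zero (h : Gen L z y) : Phi L z y ≠ 0 :=
  div_ne_zero (Finset.prod_ne_zero_iff.2 fun i _ => sigma_ne_zero (h.2 i))
    (pow_ne_zero _ (sigma_ne_zero h.1))

lemma analyticAt_sigma_sub (a z : ℂ) : AnalyticAt ℂ (fun z => sigma L (z - a)) z :=
  AnalyticAt.comp (g := sigma L) (f := fun z => z - a) (analyticAt_sigma L _) (by fun_prop)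

lemma exists_kap (hΔ : L.g₂ ^ 3 - 27 * L.g₃ ^ 2 ≠ 0) (h : Reg0 L y) :
    ∃ κ : ℂ, κ ≠ 0 ∧ ∀ z, z ∉ L.lattice → phi L z y = κ * Phi L z y := by
  refine (exists_span hΔ N (fun z => Phi L z y)
    (fun z => (∏ i, sigma L (z - ext y i)) / sigma0 L z ^ (N + 1)) ?_ ?_ ?_ ?_).elim ?_
  rotate_right
  · rintro c0 ⟨c, hc⟩
    have h1 : c = -c0 • uMap L y := by
      rw [← sub_eq_zero]
      refine Matrix.eq_zero_of_mulVec_eq_zero h.2 ?_
      rw [Matrix.mulVec_sub, Matrix.mulVec_smul, mulVec_uMap h]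
      ext i
      have h2 := hc (y i) (h.1 i)
      have h3 : Phi L (y i) y = 0 := by
        rw [Phi, Finset.prod_eq_zero (Finset.mem_univ i.castSucc), zero_div]
        rw [ext_castSucc, sub_self, sigma_zero]
      simp only [h3] at h2
      simp only [Matrix.mulVec, dotProduct, wmat_apply, Pi.sub_apply, Pi.smul_apply, smul_eq_mul,
        mul_one, Pi.zero_apply, mul_comm (ek L _ _)]
      linear_combination -h2
    have h2 : ∀ z, z ∉ L.lattice → Phi L z y = -c0 * phi L z y := by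
      intro z hz
      rw [hc z hz, h1, phi, mul_sub, Finset.mul_sum]
      simp only [Pi.smul_apply, smul_eq_mul]
      rw [Finset.sum_congr rfl fun k _ => show -c0 * uMap L y k * ek L k z
        = -c0 * (ek L k z * uMap L y k) by ring]
      ring
    have h3 : c0 ≠ 0 := by
      rintro rfl
      obtain ⟨z, hz⟩ := exists_gen L y
      exact Phi_ne_zero hz (by simpa using h2 z hz.1)
    refine ⟨-c0⁻¹, by simpa using h3, fun z hz => ?_⟩
    rw [h2 z hz]; field_simp
  · intro z hz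
    exact (Finset.analyticAt_fun_prod _ fun i _ => analyticAt_sigma_sub _ _).div
      ((analyticAt_sigma L z).pow _) (pow_ne_zero _ (sigma_ne_zero hz))
  · intro l hl z hz
    obtain ⟨η, χ, hχ, hs⟩ := sigma_add hl
    simp only [Phi]
    have h1 : ∀ i, sigma L (z + l - ext y i) = χ * cexp (η * (z - ext y i)) * sigma L (z - ext y i) :=
      fun i => by rw [← hs]; congr 1; ring
    have h2 : ∏ i, cexp (η * (z - ext y i)) = cexp (η * z) ^ (N + 1) := by
      rw [← exp_sum, ← exp_nat_mul, ← Finset.mul_sum, Finset.sum_sub_distrib, sum_ext]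
      simp; congr 1; ring
    simp only [h1, hs z, Finset.prod_mul_distrib, h2, Finset.prod_const, Finset.card_univ,
      Fintype.card_fin, mul_pow]
    have := exp_ne_zero (η * z)
    have := sigma_ne_zero hz
    field_simp
  · exact (Finset.analyticAt_fun_prod _ fun i _ => analyticAt_sigma_sub _ _).div
      ((analyticAt_sigma0 L 0).pow _) (by simp [sigma0_zero])
  · refine Eventually.of_forall fun z => ?_
    simp only [Phi]
    rw [div_div, ← mul_pow, mul_comm (sigma0 L z)]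
    rfl

/-- the normalising factor -/
def kap (L : PeriodPair) (y : Fin N → ℂ) : ℂ :=
  Classical.epsilon fun κ : ℂ => κ ≠ 0 ∧ ∀ z, z ∉ L.lattice → phi L z y = κ * Phi L z y

lemma kap_spec (hΔ : L.g₂ ^ 3 - 27 * L.g₃ ^ 2 ≠ 0) (h : Reg0 L y) :
    kap L y ≠ 0 ∧ ∀ z, z ∉ L.lattice → phi L z y = kap L y * Phi L z y :=
  Classical.epsilon_spec (exists_kap hΔ h)

lemma analyticAt_sigma_ext (z : ℂ) (i : Fin (N + 1)) (y : Fin N → ℂ) :
    AnalyticAt ℂ (fun x => sigma L (z - ext x i)) y :=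
  AnalyticAt.comp (g := sigma L) (f := fun x => z - ext x i) (analyticAt_sigma L _)
    (analyticAt_const.fun_sub (analyticAt_ext i y))

lemma analyticAt_Phi (z : ℂ) (y : Fin N → ℂ) : AnalyticAt ℂ (Phi L z (N := N)) y :=
  (Finset.analyticAt_fun_prod _ fun i _ => analyticAt_sigma_ext z i y).div_const

lemma analyticAt_kap (hΔ : L.g₂ ^ 3 - 27 * L.g₃ ^ 2 ≠ 0) (h : Reg0 L y) :
    AnalyticAt ℂ (kap L (N := N)) y := by
  obtain ⟨z, hz⟩ := exists_gen L y
  refine ((analyticAt_phi h z).div (analyticAt_Phi z y) (Phi_ne_zero hz)).congr ?_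
  filter_upwards [h.eventually, hz.eventually] with x h1 h2
  simp only [Pi.div_apply]
  rw [(kap_spec hΔ h1).2 z hz.1, mul_div_cancel_right₀ _ (Phi_ne_zero h2)]

/-- logarithmic derivative of the normalising factor -/
def cc (L : PeriodPair) (v y : Fin N → ℂ) : ℂ := dd v (kap L) y / kap L y

lemma analyticAt_cc (hΔ : L.g₂ ^ 3 - 27 * L.g₃ ^ 2 ≠ 0) (h : Reg0 L y) (v : Fin N → ℂ) :
    AnalyticAt ℂ (cc L v) y :=
  (analyticAt_dd (analyticAt_kap hΔ h) v).div (analyticAt_kap hΔ h) (kap_spec hΔ h).1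

lemma HL_kap (hΔ : L.g₂ ^ 3 - 27 * L.g₃ ^ 2 ≠ 0) (h : Reg0 L y) (v : Fin N → ℂ) :
    HL (kap L) (cc L v y * kap L y) y v :=
  (HL_dd (analyticAt_kap hΔ h).differentiableAt v).congr_val
    (by rw [cc, div_mul_cancel₀ _ (kap_spec hΔ h).1])

lemma HL_sigma {F : (Fin N → ℂ) → ℂ} {a : ℂ} {v : Fin N → ℂ} (hF : HL F a y v)
    (h : F y ∉ L.lattice) :
    HL (fun x => sigma L (F x)) (zeta L (F y) * a * sigma L (F y)) y v :=
  (HL.comp (hasDerivAt_sigma h) hF).congr_val (by ring)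

lemma HL_zeta {F : (Fin N → ℂ) → ℂ} {a : ℂ} {v : Fin N → ℂ} (hF : HL F a y v)
    (h : F y ∉ L.lattice) : HL (fun x => zeta L (F x)) (-℘[L] (F y) * a) y v :=
  HL.comp (hasDerivAt_zeta h) hF

lemma HL_sub_ext (z : ℂ) (j : Fin (N + 1)) (y v : Fin N → ℂ) :
    HL (fun x => z - ext x j) (-ext v j) y v :=
  ((HL_const z y v).sub (HL_ext j y v)).congr_val (by ring)

lemma HL_Phi (hz : Gen L z y) (v : Fin N → ℂ) :
    HL (Phi L z) (-(∑ j, ext v j * zeta L (z - ext y j)) * Phi L z y) y v := by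
  refine ((HL.prod Finset.univ fun j _ => HL_sigma (HL_sub_ext z j y v) (hz.2 j)).div_const
    (sigma L z ^ (N + 1))).congr_val ?_
  rw [Phi, mul_div_assoc, ← Finset.sum_neg_distrib]
  congr 1
  exact Finset.sum_congr rfl fun j _ => by ring

lemma phi_eventuallyEq (hΔ : L.g₂ ^ 3 - 27 * L.g₃ ^ 2 ≠ 0) (h : Reg0 L y) (hz : z ∉ L.lattice) :
    phi L z =ᶠ[𝓝 y] fun x => kap L x * Phi L z x := by
  filter_upwards [h.eventually] with x hx using (kap_spec hΔ hx).2 z hz

lemma dd_phi (hΔ : L.g₂ ^ 3 - 27 * L.g₃ ^ 2 ≠ 0) (h : Reg0 L y) (hz : Gen L z y)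
    (v : Fin N → ℂ) :
    dd v (phi L z) y = phi L z y * (-(∑ j, ext v j * zeta L (z - ext y j)) + cc L v y) := by
  refine (((HL_kap hΔ h v).mul (HL_Phi hz v)).congr (phi_eventuallyEq hΔ h hz.1)).dd_eq
    (analyticAt_phi h z).differentiableAt |>.trans ?_
  rw [(kap_spec hΔ h).2 z hz.1]; ring

/-- `α_i(z)` -/
def alp (L : PeriodPair) (i : Fin (N + 1)) (z : ℂ) (y : Fin N → ℂ) : ℂ :=
  - zeta L (z - ext y i) + Zs L (ext y) z / ((N : ℂ) + 1)

lemma sum_ext_vv (i : Fin (N + 1)) (g : Fin (N + 1) → ℂ) :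
    ∑ j, ext (vv i) j * g j = g i - (∑ j, g j) / ((N : ℂ) + 1) := by
  simp only [ext_vv, sub_mul, Finset.sum_sub_distrib, ite_mul, one_mul, zero_mul,
    Finset.sum_ite_eq, Finset.mem_univ, if_true, ← Finset.mul_sum]
  ring

lemma D_phi (hΔ : L.g₂ ^ 3 - 27 * L.g₃ ^ 2 ≠ 0) (h : Reg0 L y) (hz : Gen L z y)
    (i : Fin (N + 1)) :
    dd (vv i) (phi L z) y = phi L z y * (alp L i z y + cc L (vv i) y) := by
  rw [dd_phi hΔ h hz, sum_ext_vv, alp, Zs]; ring

lemma HL_alp (hz : Gen L z y) (i : Fin (N + 1)) :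
    HL (alp L i z) (-(1 - 2 / ((N : ℂ) + 1)) * ℘[L] (z - ext y i)
      - Ps L (ext y) z / ((N : ℂ) + 1) ^ 2) y (vv i) := by
  have h1 := fun j => HL_zeta (HL_sub_ext z j y (vv i)) (hz.2 j)
  refine ((h1 i).neg.add ((HL.sum Finset.univ fun j _ => h1 j).div_const ((N : ℂ) + 1))).congr_val ?_
  have h2 := sum_ext_vv i (fun j => ℘[L] (z - ext y j))
  have h3 : ∑ j, -℘[L] (z - ext y j) * -ext (vv i) j = ∑ j, ext (vv i) j * ℘[L] (z - ext y j) :=
    Finset.sum_congr rfl fun j _ => by ring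
  have := n_ne_zero N
  rw [h3, h2, ext_vv, if_pos rfl, Ps]
  field_simp
  ring

/-- divergence of `c` -/
def dvc (L : PeriodPair) (y : Fin N → ℂ) : ℂ := ∑ i, dd (vv i) (cc L (vv i)) y

lemma Lap_phi (hΔ : L.g₂ ^ 3 - 27 * L.g₃ ^ 2 ≠ 0) (h : Reg0 L y) (hz : Gen L z y) :
    Lap (phi L z) y = phi L z y * (∑ i, (alp L i z y + cc L (vv i) y) ^ 2
      - (1 - 1 / ((N : ℂ) + 1)) * Ps L (ext y) z + dvc L y) := by
  have key : ∀ i, dd (vv i) (dd (vv i) (phi L z)) y = phi L z y * ((alp L i z y + cc L (vv i) y) ^ 2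
      + (-(1 - 2 / ((N : ℂ) + 1)) * ℘[L] (z - ext y i) - Ps L (ext y) z / ((N : ℂ) + 1) ^ 2)
      + dd (vv i) (cc L (vv i)) y) := by
    intro i
    have h1 : dd (vv i) (phi L z) =ᶠ[𝓝 y] fun x => phi L z x * (alp L i z x + cc L (vv i) x) := by
      filter_upwards [h.eventually, hz.eventually] with x h1 h2 using D_phi hΔ h1 h2 i
    refine (((HL_dd (analyticAt_phi h z).differentiableAt _).mul ((HL_alp hz i).add
      (HL_dd (analyticAt_cc hΔ h _).differentiableAt _))).congr h1).dd_eq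
      (analyticAt_dd (analyticAt_phi h z) _).differentiableAt |>.trans ?_
    rw [D_phi hΔ h hz]; ring
  simp only [Lap, key, ← Finset.mul_sum, Finset.sum_add_distrib, dvc, Finset.sum_sub_distrib,
    Finset.sum_const, Finset.card_univ, Fintype.card_fin, nsmul_eq_mul]
  congr 1
  have := n_ne_zero N
  rw [← Ps]
  push_cast
  field_simp
  ring

lemma hasDerivAt_Phi_z (hz : Gen L z y) : HasDerivAt (fun z => Phi L z y)
    ((Zs L (ext y) z - ((N : ℂ) + 1) * zeta L z) * Phi L z y) z := by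
  have h1 : HasDerivAt (fun z => ∏ i, sigma L (z - ext y i))
      (Zs L (ext y) z * ∏ i, sigma L (z - ext y i)) z := by
    have := HasDerivAt.fun_finsetProd (u := Finset.univ) (f := fun i z => sigma L (z - ext y i))
      (f' := fun i => zeta L (z - ext y i) * sigma L (z - ext y i)) (x := z)
      (fun i _ => (hasDerivAt_sigma (hz.2 i)).comp_sub_const z (ext y i))
    refine this.congr_deriv ?_
    rw [Zs, Finset.sum_mul]
    refine Finset.sum_congr rfl fun i _ => ?_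
    rw [← Finset.prod_erase_mul _ _ (Finset.mem_univ i), smul_eq_mul]; ring
  have h2 := h1.fun_div ((hasDerivAt_sigma hz.1).fun_pow (N + 1))
    (pow_ne_zero _ (sigma_ne_zero hz.1))
  refine h2.congr_deriv ?_
  have := sigma_ne_zero hz.1
  rw [Phi]
  push_cast
  field_simp
  ring

lemma phi1_eq (hΔ : L.g₂ ^ 3 - 27 * L.g₃ ^ 2 ≠ 0) (h : Reg0 L y) (hz : Gen L z y) :
    phi1 L z y = phi L z y * (Zs L (ext y) z - ((N : ℂ) + 1) * zeta L z) := by
  have h1 : (fun z => phi L z y) =ᶠ[𝓝 z] fun z => kap L y * Phi L z y := by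
    filter_upwards [eventually_notMem_nhds hz.1] with w hw using (kap_spec hΔ h).2 w hw
  rw [(hasDerivAt_phi hz.1 y).unique
    (((hasDerivAt_Phi_z hz).const_mul (kap L y)).congr_of_eventuallyEq h1),
    (kap_spec hΔ h).2 z hz.1]
  ring

/-- `φ Z`, an affine function of `u` -/
def L1 (L : PeriodPair) (z : ℂ) (y : Fin N → ℂ) : ℂ :=
  phi1 L z y + ((N : ℂ) + 1) * zeta L z * phi L z y

/-- `φ (Z^2 - P)`, an affine function of `u` -/
def L2 (L : PeriodPair) (z : ℂ) (y : Fin N → ℂ) : ℂ :=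
  phi2 L z y + 2 * ((N : ℂ) + 1) * zeta L z * phi1 L z y
    + (((N : ℂ) + 1) ^ 2 * zeta L z ^ 2 - ((N : ℂ) + 1) * ℘[L] z) * phi L z y

lemma L1_eq (hΔ : L.g₂ ^ 3 - 27 * L.g₃ ^ 2 ≠ 0) (h : Reg0 L y) (hz : Gen L z y) :
    L1 L z y = phi L z y * Zs L (ext y) z := by
  rw [L1, phi1_eq hΔ h hz]; ring

lemma L2_eq (hΔ : L.g₂ ^ 3 - 27 * L.g₃ ^ 2 ≠ 0) (h : Reg0 L y) (hz : Gen L z y) :
    L2 L z y = phi L z y * (Zs L (ext y) z ^ 2 - Ps L (ext y) z) := by
  have h1 : (fun z => phi1 L z y) =ᶠ[𝓝 z]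
      fun z => phi L z y * (Zs L (ext y) z - ((N : ℂ) + 1) * zeta L z) := by
    filter_upwards [hz.eventually_z] with w hw using phi1_eq hΔ h hw
  have h2 : HasDerivAt (fun z => Zs L (ext y) z) (-Ps L (ext y) z) z := by
    rw [Ps, ← Finset.sum_neg_distrib]
    exact HasDerivAt.fun_sum fun i _ => (hasDerivAt_zeta (hz.2 i)).comp_sub_const z (ext y i)
  have h3 := ((hasDerivAt_phi hz.1 y).fun_mul (h2.fun_sub ((hasDerivAt_zeta hz.1).const_mul
    ((N : ℂ) + 1)))).congr_of_eventuallyEq h1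
  rw [L2, (hasDerivAt_phi1 hz.1 y).unique h3, phi1_eq hΔ h hz]
  ring

end Pool.Agent.MP_88847a_mp.H86
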