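import Pool.Agent.MP_88847a_mp.H86.Ident

/-!
Polynomiality of all the ingredients of the conjugated operator.
-/

open Filter Topology PeriodPair Complex MvPolynomial

noncomputable section

namespace Pool.Agent.MP_88847a_mp.H86

variable {L : PeriodPair} {N : ℕ} {z w : ℂ} {F G : (Fin N → ℂ) → ℂ}

/-- `F` agrees on the regular set with a polynomial in `u` -/
def IsPol (L : PeriodPair) (F : (Fin N → ℂ) → ℂ) : Prop :=
  ∃ p : MvPolynomial (Fin N) ℂ, ∀ y, Regular L y → F y = eval (uMap L y) p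

lemma IsPol.congr (h : IsPol L F) (hFG : ∀ y, Regular L y → G y = F y) : IsPol L G :=
  h.imp fun _ hp y hy => (hFG y hy).trans (hp y hy)

lemma isPol_const (c : ℂ) : IsPol L (fun _ : Fin N → ℂ => c) := ⟨C c, fun _ _ => by simp⟩

lemma isPol_u (k : Fin N) : IsPol L (fun y => uMap L y k) := ⟨X k, fun _ _ => by simp⟩

lemma IsPol.add (h : IsPol L F) (h' : IsPol L G) : IsPol L (fun y => F y + G y) := by
  obtain ⟨p, hp⟩ := h
  obtain ⟨q, hq⟩ := h'
  exact ⟨p + q, fun y hy => by simp only [hp y hy, hq y hy, map_add]⟩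

lemma IsPol.sub (h : IsPol L F) (h' : IsPol L G) : IsPol L (fun y => F y - G y) := by
  obtain ⟨p, hp⟩ := h
  obtain ⟨q, hq⟩ := h'
  exact ⟨p - q, fun y hy => by simp only [hp y hy, hq y hy, map_sub]⟩

lemma IsPol.mul (h : IsPol L F) (h' : IsPol L G) : IsPol L (fun y => F y * G y) := by
  obtain ⟨p, hp⟩ := h
  obtain ⟨q, hq⟩ := h'
  exact ⟨p * q, fun y hy => by simp only [hp y hy, hq y hy, map_mul]⟩

lemma IsPol.cmul (h : IsPol L F) (c : ℂ) : IsPol L (fun y => c * F y) := (isPol_const c).mul h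

lemma IsPol.neg (h : IsPol L F) : IsPol L (fun y => - F y) :=
  (h.cmul (-1)).congr fun _ _ => by ring

lemma IsPol.sq (h : IsPol L F) : IsPol L (fun y => F y ^ 2) :=
  (h.mul h).congr fun _ _ => by ring

lemma IsPol.sum {ι : Type*} (s : Finset ι) {F : ι → (Fin N → ℂ) → ℂ} (h : ∀ i ∈ s, IsPol L (F i)) :
    IsPol L (fun y => ∑ i ∈ s, F i y) := by
  classical
  induction s using Finset.induction_on with
  | empty => simpa using isPol_const 0
  | insert a s ha ih =>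
    simp only [Finset.sum_insert ha]
    exact (h a (Finset.mem_insert_self _ _)).add (ih fun i hi => h i (Finset.mem_insert_of_mem hi))

/-- the polynomial functions as a subspace -/
def polSub (L : PeriodPair) (N : ℕ) : Submodule ℂ ((Fin N → ℂ) → ℂ) where
  carrier := {F | IsPol L F}
  add_mem' h h' := IsPol.add h h'
  zero_mem' := isPol_const 0
  smul_mem' c _ h := IsPol.cmul h c

lemma extract {X : Type*} [AddCommGroup X] [Module ℂ X] (W : Submodule ℂ X) {C : Set ℂ}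
    (hC : C.Countable) (h : Option (Fin N) → X)
    (H : ∀ z, z ∉ L.lattice → z ∉ C → ∑ a, ee L a z • h a ∈ W) (a : Option (Fin N)) : h a ∈ W := by
  by_contra ha
  obtain ⟨μ, hμ, hW⟩ := W.exists_dual_map_eq_bot_of_notMem ha inferInstance
  have h0 : ∀ x ∈ W, μ x = 0 := fun x hx => by
    have : μ x ∈ W.map μ := ⟨x, hx, rfl⟩
    rwa [hW, Submodule.mem_bot] at this
  obtain ⟨h1, h2⟩ := indep_ek (L := L) hC N (μ (h none)) (fun k => μ (h (some k))) (fun z hz hz' => by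
    have := h0 _ (H z hz hz')
    rw [map_sum, Fintype.sum_option] at this
    simpa [ee, mul_comm] using this)
  cases a with
  | none => exact hμ h1
  | some k => exact hμ (congrFun h2 k)

lemma extract_pol {C : Set ℂ} (hC : C.Countable) (h : Option (Fin N) → (Fin N → ℂ) → ℂ)
    (H : ∀ z, z ∉ L.lattice → z ∉ C → IsPol L fun y => ∑ a, ee L a z * h a y)
    (a : Option (Fin N)) : IsPol L (h a) := by
  refine extract (L := L) (polSub L N) hC h (fun z hz hz' => ?_) a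
  refine (H z hz hz').congr fun y _ => ?_
  simp

lemma isPol_of_sq_mul (H : ∀ w, w ∉ L.lattice → IsPol L fun y => phi L w y ^ 2 * F y) :
    IsPol L F := by
  let I : Ideal (MvPolynomial (Fin N) ℂ) :=
    { carrier := {p | IsPol L fun y => eval (uMap L y) p * F y}
      add_mem' := fun {p q} hp hq => (IsPol.add hp hq).congr fun y _ => by simp [add_mul]
      zero_mem' := (isPol_const 0).congr fun y _ => by simp
      smul_mem' := fun c p hp => (IsPol.mul ⟨c, fun _ _ => rfl⟩ hp).congr fun y _ => by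
        simp [mul_assoc] }
  have h1 := extract (L := L) (N := N) (I.radical.restrictScalars ℂ) Set.countable_empty
    (fun a => a.elim (-1) X) (fun z hz _ => ⟨2, ?_⟩) none
  · have h2 : (1 : MvPolynomial (Fin N) ℂ) ∈ I.radical := by
      simpa using I.radical.neg_mem h1
    obtain ⟨m, hm⟩ := h2
    rw [one_pow] at hm
    exact IsPol.congr hm fun y _ => by simp
  · refine (H z hz).congr fun y _ => ?_
    rw [phi_eq_sum, map_pow, map_sum]
    congr 2
    refine Finset.sum_congr rfl fun a _ => ?_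
    cases a <;> simp [UU]

lemma isPol_UU (a : Option (Fin N)) : IsPol L (UU L a) := by
  cases a with
  | none => exact isPol_const _
  | some k => exact isPol_u k

lemma isPol_phi (z : ℂ) : IsPol L (phi L z (N := N)) :=
  (IsPol.sum _ fun k _ => (isPol_u k).cmul _).sub (isPol_const 1)

lemma isPol_phi1 (z : ℂ) : IsPol L (phi1 L z (N := N)) := IsPol.sum _ fun k _ => (isPol_u k).cmul _

lemma isPol_phi2 (z : ℂ) : IsPol L (phi2 L z (N := N)) := IsPol.sum _ fun k _ => (isPol_u k).cmul _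

lemma isPol_L1 (z : ℂ) : IsPol L (L1 L z (N := N)) := (isPol_phi1 z).add ((isPol_phi z).cmul _)

lemma isPol_L2 (z : ℂ) : IsPol L (L2 L z (N := N)) :=
  ((isPol_phi2 z).add ((isPol_phi1 z).cmul _)).add ((isPol_phi z).cmul _)

lemma isPol_QQ (z w : ℂ) : IsPol L (QQ L z w (N := N)) :=
  ((((((isPol_L1 z).mul (isPol_L1 w)).cmul _).sub ((isPol_L2 z).mul (isPol_phi w))).sub
    ((isPol_phi z).mul (isPol_L2 w))).cmul _ |>.add
    (((isPol_phi z).mul (isPol_phi w)).cmul _)).add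
    ((((isPol_L1 z).mul (isPol_phi w)).sub ((isPol_phi z).mul (isPol_L1 w))).cmul _)

lemma isPol_HH (hΔ : L.g₂ ^ 3 - 27 * L.g₃ ^ 2 ≠ 0) (a b : Option (Fin N)) : IsPol L (HH L a b) := by
  refine extract_pol Set.countable_empty (fun b => HH L a b) (fun w hw _ => ?_) b
  refine extract_pol (countable_shift L w) (fun a y => ∑ b, ee L b w * HH L a b y)
    (fun z hz hzw => ?_) a
  refine (isPol_QQ z w).congr fun y hy => ?_
  rw [← hirota hΔ hy.reg0 hz hw hzw]
  simp only [Finset.mul_sum, mul_assoc]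

lemma dd_const (c : ℂ) (v : Fin N → ℂ) : dd v (fun _ => c) = fun _ => 0 := by
  ext y; simp [dd]

lemma UU_none : UU L (none : Option (Fin N)) = fun _ => -1 := rfl

lemma isPol_dvc (hΔ : L.g₂ ^ 3 - 27 * L.g₃ ^ 2 ≠ 0) : IsPol L (dvc L (N := N)) := by
  refine ((isPol_HH hΔ none none).cmul (-1 / 2)).congr fun y _ => ?_
  simp only [HH, UU_none, Lap, Gam, dd_const]
  simp; ring

lemma isPol_Lap (hΔ : L.g₂ ^ 3 - 27 * L.g₃ ^ 2 ≠ 0) (a : Option (Fin N)) :
    IsPol L (Lap (UU L a)) := by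
  refine ((((isPol_dvc hΔ).mul (isPol_UU a)).cmul 2).sub (isPol_HH hΔ a none)).congr fun y _ => ?_
  simp only [HH, UU_none, Gam, dd_const]
  simp [Lap, dd_const]; ring

lemma isPol_Gam (hΔ : L.g₂ ^ 3 - 27 * L.g₃ ^ 2 ≠ 0) (a b : Option (Fin N)) :
    IsPol L (Gam (UU L a) (UU L b)) := by
  refine ((((((isPol_UU b).mul (isPol_Lap hΔ a)).add ((isPol_UU a).mul (isPol_Lap hΔ b))).sub
    (((isPol_dvc hΔ).cmul 2).mul ((isPol_UU a).mul (isPol_UU b)))).sub
    (isPol_HH hΔ a b)).cmul (1 / 2)).congr fun y _ => ?_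
  simp only [HH]; ring

lemma isPol_gg (hΔ : L.g₂ ^ 3 - 27 * L.g₃ ^ 2 ≠ 0) (z w : ℂ) : IsPol L (gg L z w (N := N)) :=
  IsPol.sum _ fun a _ => IsPol.sum _ fun b _ => (isPol_Gam hΔ a b).cmul _

lemma isPol_RR (hΔ : L.g₂ ^ 3 - 27 * L.g₃ ^ 2 ≠ 0) (z w : ℂ) : IsPol L (RR L z w (N := N)) := by
  have h1 : IsPol L fun y : Fin N → ℂ => L1 L w y + ((N : ℂ) + 1) * zeta L (z - w) * phi L w y :=
    (isPol_L1 w).add ((isPol_phi w).cmul _)
  exact ((((((((isPol_phi z).mul ((isPol_L1 w).sq.sub ((isPol_phi w).mul (isPol_L2 w)))).cmul _).add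
    (((isPol_phi z).mul (isPol_phi w).sq).cmul _)).sub
    (((isPol_phi w).sq.mul (isPol_L2 z)).cmul _)).add
    (((isPol_L1 z).mul (isPol_phi w)).mul h1)).sub (((isPol_phi z).mul h1.sq).cmul _)).add
    (((isPol_phi w).mul (isPol_gg hΔ z w)).cmul _)).sub (((isPol_phi z).mul (isPol_gg hΔ w w)).cmul _)

lemma isPol_aux (hΔ : L.g₂ ^ 3 - 27 * L.g₃ ^ 2 ≠ 0) (hw : w ∉ L.lattice) (a : Option (Fin N)) :
    IsPol L fun y => phi L w y ^ 2 * BB L a y - UU L a y * (phi L w y * bb L w y) := by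
  refine extract_pol (countable_shift L w)
    (fun a y => phi L w y ^ 2 * BB L a y - UU L a y * (phi L w y * bb L w y)) (fun z hz hzw => ?_) a
  refine (isPol_RR hΔ z w).congr fun y hy => ?_
  rw [← second hΔ hy hz hw hzw, phi_eq_sum L z, bb.eq_1 L z, Finset.mul_sum, Finset.sum_mul,
    ← Finset.sum_sub_distrib]
  exact Finset.sum_congr rfl fun a _ => by ring

lemma isPol_phi_bb (hΔ : L.g₂ ^ 3 - 27 * L.g₃ ^ 2 ≠ 0) (hw : w ∉ L.lattice) :
    IsPol L fun y : Fin N → ℂ => phi L w y * bb L w y := by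
  refine (isPol_aux hΔ hw none).congr fun y _ => ?_
  simp only [BB, UU_none, dd_const]
  simp

lemma isPol_BB (hΔ : L.g₂ ^ 3 - 27 * L.g₃ ^ 2 ≠ 0) (a : Option (Fin N)) : IsPol L (BB L a) := by
  refine isPol_of_sq_mul fun w hw => ?_
  refine ((isPol_aux hΔ hw a).add ((isPol_UU a).mul (isPol_phi_bb hΔ hw))).congr fun y _ => ?_
  ring

lemma isPol_AA (hΔ : L.g₂ ^ 3 - 27 * L.g₃ ^ 2 ≠ 0) : IsPol L (AA L (N := N)) := by
  refine isPol_of_sq_mul fun w hw => ?_
  have : IsPol L (SS L w (N := N)) :=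
    (((isPol_phi_bb hΔ hw).cmul _).sub ((isPol_gg hΔ w w).cmul _)).add
      (((isPol_L1 w).sq.sub ((isPol_phi w).mul (isPol_L2 w))).cmul _)
  exact this.congr fun y hy => third hΔ hy hw

/-- the conjugated operator at a regular point -/
lemma conj_formula (hΔ : L.g₂ ^ 3 - 27 * L.g₃ ^ 2 ≠ 0) (β γ : ℂ) {y : Fin N → ℂ} (hy : Regular L y)
    {ℓ : (Fin N → ℂ) → ℂ} (hℓ : AnalyticAt ℂ ℓ y) (he : ∀ᶠ x in 𝓝 y, cexp (ℓ x) = jac L x)
    {f : (Fin N → ℂ) → ℂ} (hf : AnalyticAt ℂ f (uMap L y)) :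
    cexp (-(γ * ℓ y)) * ham L β (fun x => cexp (γ * ℓ x) * f (uMap L x)) y
      = ∑ k, ∑ l, (- Gam (UU L (some k)) (UU L (some l)) y) * pd k (pd l f) (uMap L y)
        + ∑ k, (-(Lap (UU L (some k)) y + 2 * γ * BB L (some k) y)) * pd k f (uMap L y)
        + ((β * (β - 1) - γ * (γ - 1)) * Vs L (ext y)
          - (γ * ((N : ℂ) + 1) * dvc L y + γ ^ 2 * AA L y)) * f (uMap L y) := by
  rw [conj_eq L β γ hℓ (analyticAt_uMap hy.reg0) hf, Lap_log hΔ hy hℓ he]
  have h1 : Gam ℓ ℓ y = ∑ i, lam L i y ^ 2 := by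
    simp only [Gam, D_log hΔ hy hℓ he, sq]
  have h2 : ∀ k, Gam ℓ (fun x => uMap L x k) y = BB L (some k) y := by
    intro k
    simp only [Gam, D_log hΔ hy hℓ he]
    rfl
  simp only [h1, h2, AA]
  congr 2
  ring

lemma hasPolyForm_iff (hΔ : L.g₂ ^ 3 - 27 * L.g₃ ^ 2 ≠ 0) (N : ℕ) (β γ : ℂ) :
    HasPolyForm L N β γ ↔
      IsPol L fun y : Fin N → ℂ => (β * (β - 1) - γ * (γ - 1)) * Vs L (ext y) := by
  have h0 : IsPol L fun y : Fin N → ℂ => γ * ((N : ℂ) + 1) * dvc L y + γ ^ 2 * AA L y :=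
    ((isPol_dvc hΔ).cmul _).add ((isPol_AA hΔ).cmul _)
  constructor
  · rintro ⟨a, b, c, h⟩
    have hc : IsPol L fun y : Fin N → ℂ => eval (uMap L y) c := ⟨c, fun _ _ => rfl⟩
    refine (hc.add h0).congr fun y hy => ?_
    obtain ⟨ℓ, hℓ, he⟩ := exists_log hΔ hy
    have h1 := h y hy ℓ hℓ he (fun _ => 1) analyticAt_const
    rw [conj_formula hΔ β γ hy hℓ he analyticAt_const] at h1
    simp only [pd_eq_dd, dd_const, mul_zero, Finset.sum_const_zero, zero_add, mul_one] at h1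
    linear_combination h1
  · intro h
    choose a ha using fun k l => (isPol_Gam (N := N) hΔ (some k) (some l)).neg
    choose b hb using fun k =>
      ((isPol_Lap (N := N) hΔ (some k)).add ((isPol_BB hΔ (some k)).cmul (2 * γ))).neg
    obtain ⟨c, hc⟩ := h.sub h0
    refine ⟨a, b, c, fun y hy ℓ hℓ he f hf => ?_⟩
    rw [conj_formula hΔ β γ hy hℓ he hf]
    simp only [← ha _ _ y hy, ← hb _ y hy, ← hc y hy]

end Pool.Agent.MP_88847a_mp.H86
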