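import Mathlib

/-!
The Weierstrass zeta and sigma functions of a period lattice.
-/

open Filter Topology PeriodPair Complex

noncomputable section

namespace Pool.Agent.MP_88847a_mp.H86

variable (L : PeriodPair)

lemma countable_lattice : (L.lattice : Set ℂ).Countable :=
  countable_of_Lindelof_of_discrete (X := L.lattice)

lemma isOpen_compl_lattice : IsOpen (L.lattice : Set ℂ)ᶜ := L.isClosed_lattice.isOpen_compl

lemma ne_zero_of_notMem {L : PeriodPair} {z : ℂ} (hz : z ∉ L.lattice) : z ≠ 0 := by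
  rintro rfl; exact hz (zero_mem _)

lemma neg_notMem {L : PeriodPair} {z : ℂ} (hz : z ∉ L.lattice) : -z ∉ L.lattice := by
  simpa using hz

lemma add_notMem {L : PeriodPair} {z l : ℂ} (hz : z ∉ L.lattice) (hl : l ∈ L.lattice) :
    z + l ∉ L.lattice := fun h => hz (by simpa using sub_mem h hl)

lemma eventually_notMem_nhdsNE (z : ℂ) : ∀ᶠ w in 𝓝[≠] z, w ∉ L.lattice := by
  filter_upwards [self_mem_nhdsWithin, mem_nhdsWithin_of_mem_nhds
    (L.compl_lattice_sdiff_singleton_mem_nhds z)] with w hw hw'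
  simp_all

lemma eventually_notMem_nhds {L : PeriodPair} {z : ℂ} (hz : z ∉ L.lattice) :
    ∀ᶠ w in 𝓝 z, w ∉ L.lattice := (isOpen_compl_lattice L).mem_nhds hz

/-- the summand of zeta -/
def zterm (l z : ℂ) : ℂ := if l = 0 then 0 else 1 / (z - l) + 1 / l + z / l ^ 2

/-- zeta without its polar part at the origin -/
def zeta0 (z : ℂ) : ℂ := ∑' l : L.lattice, zterm l z

/-- Weierstrass zeta -/
def zeta (z : ℂ) : ℂ := 1 / z + zeta0 L z

lemma zterm_bound (r : ℝ) (hr : 0 < r) (s : ℂ) (hs : ‖s‖ < r) (l : ℂ) (h : 2 * r ≤ ‖l‖) :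
    ‖zterm l s‖ ≤ 2 * r ^ 2 * ‖l‖ ^ (-3 : ℝ) := by
  have h1 : s ≠ l := by rintro rfl; linarith
  have h2 : 0 < ‖l‖ := by linarith
  have h3 : l ≠ 0 := by simpa using h2
  have h4 : s - l ≠ 0 := sub_ne_zero.2 h1
  have h5 : zterm l s = s ^ 2 / (l ^ 2 * (s - l)) := by
    rw [zterm, if_neg h3]; field_simp; ring
  have h6 : ‖l‖ / 2 ≤ ‖s - l‖ := by
    rw [norm_sub_rev]; exact le_trans (by linarith) (norm_sub_norm_le l s)
  rw [h5, norm_div, norm_mul, norm_pow, norm_pow]
  calc ‖s‖ ^ 2 / (‖l‖ ^ 2 * ‖s - l‖) ≤ r ^ 2 / (‖l‖ ^ 2 * (‖l‖ / 2)) := by gcongr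
    _ = 2 * r ^ 2 / ‖l‖ ^ 3 := by field_simp
    _ = _ := by norm_cast

lemma hasSumLocallyUniformly_zeta0 :
    HasSumLocallyUniformly (fun (l : L.lattice) (z : ℂ) => zterm l z) (zeta0 L) := by
  refine L.hasSumLocallyUniformly_aux (u := (2 * · ^ 2 * ‖·‖ ^ (-3 : ℝ))) _
    (fun _ _ ↦ (ZLattice.summable_norm_rpow _ _ (by simp; norm_num)).mul_left _) fun r hr ↦
    Filter.eventually_atTop.mpr ⟨2 * r, ?_⟩
  rintro _ h s hs l rfl
  exact zterm_bound r hr s hs l h

lemma hasDerivAt_zterm (l z : ℂ) (h : l = 0 ∨ z ≠ l) :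
    HasDerivAt (zterm l) (-(if l = 0 then 0 else (1 / (z - l) ^ 2 - 1 / l ^ 2))) z := by
  by_cases hl : l = 0
  · have : zterm l = fun _ => 0 := by ext; simp [zterm, hl]
    rw [this]; simpa [hl] using hasDerivAt_const z (0 : ℂ)
  · have hz : z - l ≠ 0 := sub_ne_zero.2 (h.resolve_left hl)
    have : zterm l = fun z => (z - l)⁻¹ + 1 / l + z / l ^ 2 := by ext; simp [zterm, hl]
    rw [this, if_neg hl]
    have h1 := (((hasDerivAt_id z).sub_const l).inv hz).add_const (1 / l)
    have h2 := (hasDerivAt_id z).div_const (l ^ 2)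
    refine (h1.add h2).congr_deriv ?_
    simp only [id]
    ring

lemma differentiableOn_zterm_sum (s : Finset L.lattice) :
    DifferentiableOn ℂ (fun z => ∑ l ∈ s, zterm l z) ((L.lattice : Set ℂ) \ {0})ᶜ := by
  refine DifferentiableOn.fun_sum fun l _ z hz => ?_
  refine (hasDerivAt_zterm l z ?_).differentiableAt.differentiableWithinAt
  by_cases hl : (l : ℂ) = 0
  · exact Or.inl hl
  · right; rintro rfl; exact hz ⟨l.2, hl⟩

lemma differentiableOn_zeta0 : DifferentiableOn ℂ (zeta0 L) ((L.lattice : Set ℂ) \ {0})ᶜ :=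
  (hasSumLocallyUniformly_zeta0 L).hasSumLocallyUniformlyOn.differentiableOn
    (.of_forall fun s => differentiableOn_zterm_sum L s) L.isOpen_compl_lattice_sdiff

lemma hasDerivAt_zeta0 {z : ℂ} (hz : z ∈ ((L.lattice : Set ℂ) \ {0})ᶜ) :
    HasDerivAt (zeta0 L) (-L.weierstrassPExcept 0 z) z := by
  have hd := ((differentiableOn_zeta0 L).differentiableAt
    (L.isOpen_compl_lattice_sdiff.mem_nhds hz)).hasDerivAt
  refine hd.congr_deriv (Eq.symm ?_)
  have h1 := ((hasSumLocallyUniformly_zeta0 L).tendstoLocallyUniformlyOn.deriv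
    (.of_forall fun s => differentiableOn_zterm_sum L s) L.isOpen_compl_lattice_sdiff).tendsto_at hz
  have h2 := (L.hasSum_weierstrassPExcept 0 z).neg
  refine tendsto_nhds_unique h2 (h1.congr fun s => ?_)
  simp only [Function.comp_apply]
  refine HasDerivAt.deriv (HasDerivAt.fun_sum fun l _ => hasDerivAt_zterm l z ?_)
  by_cases hl : (l : ℂ) = 0
  · exact Or.inl hl
  · right; rintro rfl; exact hz ⟨l.2, hl⟩

lemma analyticAt_zeta0 : AnalyticAt ℂ (zeta0 L) 0 :=
  (differentiableOn_zeta0 L).analyticAt (L.compl_lattice_sdiff_singleton_mem_nhds 0)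

lemma wp_eq (z : ℂ) : ℘[L] z = 1 / z ^ 2 + L.weierstrassPExcept 0 z := by
  have := L.weierstrassPExcept_add 0 z
  simp only [ZeroMemClass.coe_zero, sub_zero, ne_eq, OfNat.ofNat_ne_zero, not_false_eq_true,
    zero_pow, div_zero] at this
  rw [← this]; ring

lemma hasDerivAt_zeta {L : PeriodPair} {z : ℂ} (hz : z ∉ L.lattice) :
    HasDerivAt (zeta L) (-℘[L] z) z := by
  have hz0 := ne_zero_of_notMem hz
  have h1 := (hasDerivAt_inv hz0).add (hasDerivAt_zeta0 L (z := z) (fun h => hz h.1))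
  have : zeta L = (fun y => y⁻¹) + zeta0 L := by ext; simp [zeta]
  rw [this]
  refine h1.congr_deriv ?_
  rw [wp_eq]; simp; ring

lemma analyticAt_zeta {L : PeriodPair} {z : ℂ} (hz : z ∉ L.lattice) :
    AnalyticAt ℂ (zeta L) z := by
  refine DifferentiableOn.analyticAt (s := (L.lattice : Set ℂ)ᶜ) ?_ (eventually_notMem_nhds hz)
  exact fun w hw => (hasDerivAt_zeta hw).differentiableAt.differentiableWithinAt

lemma analyticAt_wp {L : PeriodPair} {z : ℂ} (hz : z ∉ L.lattice) : AnalyticAt ℂ ℘[L] z :=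
  L.analyticOnNhd_weierstrassP z hz

lemma zeta0_neg (z : ℂ) : zeta0 L (-z) = - zeta0 L z := by
  simp only [zeta0]
  rw [← (Equiv.neg L.lattice).tsum_eq, ← tsum_neg]
  congr with l
  simp only [zterm, Equiv.neg_apply, NegMemClass.coe_neg, neg_eq_zero]
  split_ifs
  · simp
  · rw [show -z - -(l : ℂ) = -(z - l) by ring]
    simp only [div_neg, neg_div, even_two, Even.neg_pow]
    ring

lemma zeta_neg (z : ℂ) : zeta L (-z) = - zeta L z := by
  simp only [zeta, zeta0_neg, div_neg]; ring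

lemma zeta0_zero : zeta0 L 0 = 0 := by
  have := zeta0_neg L 0
  rw [neg_zero] at this
  exact CharZero.eq_neg_self_iff.1 this

lemma zeta_zero : zeta L 0 = 0 := by simp [zeta, zeta0_zero]

lemma zeta_sub_comm (a b : ℂ) : zeta L (a - b) = - zeta L (b - a) := by
  rw [← zeta_neg, neg_sub]

lemma isPreconnected_compl_lattice : IsPreconnected (L.lattice : Set ℂ)ᶜ :=
  (Set.Countable.isConnected_compl_of_one_lt_rank (by simp) (countable_lattice L)).2

/-- quasi-periodicity of zeta -/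
lemma zeta_add {L : PeriodPair} {l : ℂ} (hl : l ∈ L.lattice) :
    ∃ η : ℂ, ∀ z, z ∉ L.lattice → zeta L (z + l) = zeta L z + η := by
  have hd : ∀ z, z ∉ L.lattice → HasDerivAt (fun z => zeta L (z + l) - zeta L z) 0 z := by
    intro z hz
    have h1 := (hasDerivAt_zeta (add_notMem hz hl)).comp_add_const z l
    have h2 := h1.sub (hasDerivAt_zeta hz)
    have h3 := L.weierstrassP_add_coe z ⟨l, hl⟩
    simp only at h3
    rw [h3, sub_self] at h2
    exact h2
  obtain ⟨η, hη⟩ := IsOpen.exists_is_const_of_deriv_eq_zero (𝕜 := ℂ) (isOpen_compl_lattice L)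
    (isPreconnected_compl_lattice L) (f := fun z => zeta L (z + l) - zeta L z)
    (fun z hz => (hd z hz).differentiableAt.differentiableWithinAt) (fun z hz => (hd z hz).deriv)
  exact ⟨η, fun z hz => by rw [← hη z hz]; ring⟩

/-! ### sigma -/

/-- Weierstrass elementary factor -/
def efac (w : ℂ) : ℂ := (1 - w) * cexp (w + w ^ 2 / 2)

lemma hasDerivAt_efac (w : ℂ) : HasDerivAt efac (-w ^ 2 * cexp (w + w ^ 2 / 2)) w := by
  have h1 : HasDerivAt (fun w : ℂ => 1 - w) (-1) w := (hasDerivAt_id w).const_sub 1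
  have h2 : HasDerivAt (fun w : ℂ => w + w ^ 2 / 2) (1 + w) w := by
    refine ((hasDerivAt_id w).add ((hasDerivAt_pow 2 w).div_const 2)).congr_deriv ?_
    simp
  refine (h1.mul h2.cexp).congr_deriv ?_
  ring

lemma efac_bound (w : ℂ) (hw : ‖w‖ ≤ 1 / 2) : ‖efac w - 1‖ ≤ 3 * ‖w‖ ^ 3 := by
  have h := Convex.norm_image_sub_le_of_norm_hasDerivWithin_le (𝕜 := ℂ) (f := efac)
    (f' := fun w => -w ^ 2 * cexp (w + w ^ 2 / 2)) (s := Metric.closedBall 0 ‖w‖)
    (C := 3 * ‖w‖ ^ 2) (x := 0) (y := w)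
    (fun x _ => (hasDerivAt_efac x).hasDerivWithinAt) ?_ (convex_closedBall _ _) (by simp) (by simp)
  · have h0 : efac 0 = 1 := by simp [efac]
    rw [h0, sub_zero] at h
    calc _ ≤ _ := h
      _ = _ := by ring
  · intro x hx
    have hx' : ‖x‖ ≤ ‖w‖ := by simpa using hx
    rw [norm_mul, norm_neg, norm_pow, mul_comm]
    have h1 : ‖x + x ^ 2 / 2‖ ≤ 1 := by
      calc ‖x + x ^ 2 / 2‖ ≤ ‖x‖ + ‖x‖ ^ 2 / 2 := by
            refine (norm_add_le _ _).trans ?_
            simp
        _ ≤ 1 := by nlinarith [norm_nonneg x]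
    have h2 : ‖cexp (x + x ^ 2 / 2)‖ ≤ 3 := by
      refine (Complex.norm_exp_le_exp_norm _).trans ?_
      refine (Real.exp_le_exp.2 h1).trans ?_
      exact Real.exp_one_lt_d9.le.trans (by norm_num)
    gcongr

/-- sigma divided by `z` -/
def sigma0 (z : ℂ) : ℂ := ∏' l : L.lattice, (1 + (efac (z / l) - 1))

/-- Weierstrass sigma -/
def sigma (z : ℂ) : ℂ := z * sigma0 L z

lemma summable_bound (R : ℝ) : Summable (fun l : L.lattice => 3 * R ^ 3 * ‖l‖ ^ (-3 : ℝ)) :=
  (ZLattice.summable_norm_rpow _ _ (by simp; norm_num)).mul_left _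

lemma eventually_bound (R : ℝ) (hR : 0 < R) : ∀ᶠ l : L.lattice in cofinite,
    ∀ x ∈ Metric.ball (0 : ℂ) R, ‖efac (x / l) - 1‖ ≤ 3 * R ^ 3 * ‖l‖ ^ (-3 : ℝ) := by
  refine (isCompact_iff_finite.mp (isCompact_closedBall (0 : L.lattice) (2 * R))).subset ?_
  intro l hl
  by_contra hcon
  apply hl
  intro x hx
  have h1 : 2 * R < ‖(l : ℂ)‖ := by simpa using hcon
  have h2 : ‖x‖ < R := by simpa using hx
  have h3 : 0 < ‖(l : ℂ)‖ := by linarith
  have h4 : ‖x / l‖ ≤ 1 / 2 := by
    rw [norm_div, div_le_iff₀ h3]; linarith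
  refine (efac_bound _ h4).trans ?_
  rw [norm_div, div_pow]
  calc 3 * (‖x‖ ^ 3 / ‖(l : ℂ)‖ ^ 3) ≤ 3 * (R ^ 3 / ‖(l : ℂ)‖ ^ 3) := by gcongr
    _ = 3 * R ^ 3 / ‖(l : ℂ)‖ ^ 3 := by ring
    _ = _ := by norm_cast

lemma differentiable_efac_div (l : ℂ) : Differentiable ℂ (fun z => efac (z / l) - 1) := by
  have : Differentiable ℂ efac := fun w => (hasDerivAt_efac w).differentiableAt
  fun_prop

lemma hasProd_sigma0 (R : ℝ) (hR : 0 < R) :
    HasProdLocallyUniformlyOn (fun (l : L.lattice) (z : ℂ) => 1 + (efac (z / l) - 1)) (sigma0 L)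
      (Metric.ball 0 R) :=
  (summable_bound L R).hasProdLocallyUniformlyOn_one_add Metric.isOpen_ball
    (eventually_bound L R hR) (fun l => (differentiable_efac_div l).continuous.continuousOn)

lemma differentiable_sigma0 : Differentiable ℂ (sigma0 L) := by
  intro z
  have hR : 0 < ‖z‖ + 1 := by positivity
  have h := (hasProd_sigma0 L _ hR)
  have h2 : DifferentiableOn ℂ (sigma0 L) (Metric.ball 0 (‖z‖ + 1)) := by
    refine TendstoLocallyUniformlyOn.differentiableOn h (.of_forall fun s => ?_) Metric.isOpen_ball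
    refine Differentiable.differentiableOn ?_
    refine Differentiable.fun_finsetProd fun l _ => ?_
    exact (differentiable_efac_div l).const_add 1
  exact h2.differentiableAt (Metric.isOpen_ball.mem_nhds (by simp))

lemma efac_ne_zero {z l : ℂ} (h : l = 0 ∨ z ≠ l) : 1 + (efac (z / l) - 1) ≠ 0 := by
  rw [add_sub_cancel, efac]
  refine mul_ne_zero ?_ (exp_ne_zero _)
  rcases eq_or_ne l 0 with hl | hl
  · simp [hl]
  · have := h.resolve_left hl
    rw [sub_ne_zero, ne_comm, ne_eq, div_eq_one_iff_eq hl]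
    exact this

lemma aux_or {z : ℂ} (hz : z ∈ ((L.lattice : Set ℂ) \ {0})ᶜ) (l : L.lattice) :
    (l : ℂ) = 0 ∨ z ≠ l := by
  by_cases hl : (l : ℂ) = 0
  · exact Or.inl hl
  · right; rintro rfl; exact hz ⟨l.2, hl⟩

lemma sigma0_ne_zero {z : ℂ} (hz : z ∈ ((L.lattice : Set ℂ) \ {0})ᶜ) : sigma0 L z ≠ 0 := by
  refine tprod_one_add_ne_zero_of_summable (f := fun l : L.lattice => efac (z / l) - 1)
    (fun l => efac_ne_zero (aux_or L hz l)) ?_
  have hR : 0 < ‖z‖ + 1 := by positivity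
  refine (summable_bound L (‖z‖ + 1)).of_norm_bounded_eventually ?_
  filter_upwards [eventually_bound L _ hR] with l hl
  simpa using hl z (by simp)

lemma logDeriv_efac {z l : ℂ} (h : l = 0 ∨ z ≠ l) :
    logDeriv (fun z => 1 + (efac (z / l) - 1)) z = zterm l z := by
  have h1 : HasDerivAt (fun z => 1 + (efac (z / l) - 1))
      (-(z / l) ^ 2 * cexp (z / l + (z / l) ^ 2 / 2) * (1 / l)) z :=
    ((HasDerivAt.comp (h := fun z => z / l) z (hasDerivAt_efac (z / l))
      ((hasDerivAt_id z).div_const l)).sub_const 1).const_add 1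
  rw [logDeriv_apply, h1.deriv, add_sub_cancel, efac, zterm]
  split_ifs with hl
  · simp [hl]
  · have hz : z - l ≠ 0 := sub_ne_zero.2 (h.resolve_left hl)
    have hz' : l - z ≠ 0 := sub_ne_zero.2 (h.resolve_left hl).symm
    have he := exp_ne_zero (z / l + (z / l) ^ 2 / 2)
    have : 1 - z / l = (l - z) / l := by field_simp
    rw [this]
    field_simp
    ring

lemma hasDerivAt_sigma0 {z : ℂ} (hz : z ∈ ((L.lattice : Set ℂ) \ {0})ᶜ) :
    HasDerivAt (sigma0 L) (zeta0 L z * sigma0 L z) z := by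
  have hR : 0 < ‖z‖ + 1 := by positivity
  have h := logDeriv_tprod_eq_tsum (s := Metric.ball 0 (‖z‖ + 1)) Metric.isOpen_ball (x := z)
    (by simp) (f := fun (l : L.lattice) (z : ℂ) => 1 + (efac (z / l) - 1))
    (fun l => efac_ne_zero (aux_or L hz l))
    (fun l => ((differentiable_efac_div l).const_add 1).differentiableOn) ?_
    ⟨_, hasProd_sigma0 L _ hR⟩ (sigma0_ne_zero L hz)
  · simp only [logDeriv_efac (aux_or L hz _)] at h
    have h2 : deriv (sigma0 L) z / sigma0 L z = zeta0 L z := h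
    rw [div_eq_iff (sigma0_ne_zero L hz)] at h2
    rw [← h2]
    exact (differentiable_sigma0 L z).hasDerivAt
  · simp only [logDeriv_efac (aux_or L hz _)]
    exact (hasSumLocallyUniformly_zeta0 L).hasSum.summable

lemma sigma0_zero : sigma0 L 0 = 1 := by simp [sigma0, efac]

lemma differentiable_sigma : Differentiable ℂ (sigma L) :=
  differentiable_id.mul (differentiable_sigma0 L)

lemma analyticAt_sigma (z : ℂ) : AnalyticAt ℂ (sigma L) z := (differentiable_sigma L).analyticAt z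

lemma analyticAt_sigma0 (z : ℂ) : AnalyticAt ℂ (sigma0 L) z := (differentiable_sigma0 L).analyticAt z

lemma sigma_zero : sigma L 0 = 0 := by simp [sigma]

lemma sigma_ne_zero {L : PeriodPair} {z : ℂ} (hz : z ∉ L.lattice) : sigma L z ≠ 0 :=
  mul_ne_zero (ne_zero_of_notMem hz) (sigma0_ne_zero L (fun h => hz h.1))

lemma hasDerivAt_sigma {L : PeriodPair} {z : ℂ} (hz : z ∉ L.lattice) :
    HasDerivAt (sigma L) (zeta L z * sigma L z) z := by
  have h := (hasDerivAt_id z).mul (hasDerivAt_sigma0 L (z := z) (fun h => hz h.1))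
  refine h.congr_deriv ?_
  have := ne_zero_of_notMem hz
  simp only [zeta, sigma, id]
  field_simp

lemma eq_of_eqOn_compl {f g : ℂ → ℂ} {C : Set ℂ} (hC : C.Countable) {z : ℂ}
    (hf : ContinuousAt f z) (hg : ContinuousAt g z) (h : ∀ᶠ w in 𝓝 z, w ∉ C → f w = g w) :
    f z = g z := by
  have hd : Dense Cᶜ := hC.dense_compl ℂ
  refine tendsto_nhds_unique_of_frequently_eq hf hg ?_
  have : ∃ᶠ w in 𝓝 z, w ∈ Cᶜ := mem_closure_iff_frequently.1 (hd z)
  exact (this.and_eventually h).mono fun w hw => hw.2 hw.1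

/-- quasi-periodicity of sigma -/
lemma sigma_add {L : PeriodPair} {l : ℂ} (hl : l ∈ L.lattice) :
    ∃ η χ : ℂ, χ ≠ 0 ∧ ∀ z, sigma L (z + l) = χ * cexp (η * z) * sigma L z := by
  obtain ⟨η, hη⟩ := zeta_add hl
  have hd : ∀ z, z ∉ L.lattice →
      HasDerivAt (fun z => sigma L (z + l) / (cexp (η * z) * sigma L z)) 0 z := by
    intro z hz
    have h1 := (hasDerivAt_sigma (add_notMem hz hl)).comp_add_const z l
    have h2 := (((hasDerivAt_id z).const_mul η).cexp).mul (hasDerivAt_sigma hz)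
    have h3 := h1.div h2 (mul_ne_zero (exp_ne_zero _) (sigma_ne_zero hz))
    refine h3.congr_deriv ?_
    rw [hη z hz]
    simp only [id, Pi.mul_apply]
    ring
  obtain ⟨χ, hχ⟩ := IsOpen.exists_is_const_of_deriv_eq_zero (𝕜 := ℂ) (isOpen_compl_lattice L)
    (isPreconnected_compl_lattice L)
    (f := fun z => sigma L (z + l) / (cexp (η * z) * sigma L z))
    (fun z hz => (hd z hz).differentiableAt.differentiableWithinAt) (fun z hz => (hd z hz).deriv)
  have key : ∀ z, z ∉ L.lattice → sigma L (z + l) = χ * cexp (η * z) * sigma L z := by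
    intro z hz
    have := hχ z hz
    rw [div_eq_iff (mul_ne_zero (exp_ne_zero _) (sigma_ne_zero hz))] at this
    rw [this]; ring
  refine ⟨η, χ, ?_, fun z => ?_⟩
  · rintro rfl
    have := key _ L.ω₁_div_two_notMem_lattice
    exact sigma_ne_zero (add_notMem L.ω₁_div_two_notMem_lattice hl) (by simpa using this)
  · have hc := (differentiable_sigma L).continuous
    refine eq_of_eqOn_compl (f := fun z => sigma L (z + l))
      (g := fun z => χ * cexp (η * z) * sigma L z) (countable_lattice L) (by fun_prop) (by fun_prop)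
      (.of_forall key)

end Pool.Agent.MP_88847a_mp.H86
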